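import Pool.Agent.Helper62.DY.LemA2
import Pool.Agent.Helper70.DY.F0

/-!
# Lemma A for MP_d13a5e_al, final form

`Tri Ψ B t d1 d2`, `b1 = -B t d1`, `b2 = -B t d2`, `s 0 = 0`, `s 1 = 1`, `s (k+2) = 2 b1 s (k+1) - s k`, the same for
`s'` and `b2`. If `x = g t + x1 d1 + x2 d2` is a root with nonnegative coefficients which is positive at the point where
the line number `k + 1` of the vertex `t ∩ d1` and the line number `l + 1` of the vertex `t ∩ d2` meet, then its value at
the incenter of `t` and the next two lines is at least `1` (the value of `t`).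
-/

set_option autoImplicit false

namespace Pool.Agent.Helper62.DY

open _root_.DY (Z1 C01 Tri rf)

/-- coefficient triples of the roots of a system with three simple roots -/
structure RT (b1 b2 bO : ℝ) (R : ℝ → ℝ → ℝ → Prop) : Prop where
  z : ∀ g x1 x2, R g x1 x2 → (Z1 g ∧ Z1 x1 ∧ Z1 x2) ∨ (Z1 (-g) ∧ Z1 (-x1) ∧ Z1 (-x2))
  n : ∀ g x1 x2, R g x1 x2 → g ^ 2 + x1 ^ 2 + x2 ^ 2 - 2 * b1 * g * x1 - 2 * b2 * g * x2 - 2 * bO * x1 * x2 = 1
  r0 : ∀ g x1 x2, R g x1 x2 → R (2 * b1 * x1 + 2 * b2 * x2 - g) x1 x2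
  r1 : ∀ g x1 x2, R g x1 x2 → R g (2 * b1 * g + 2 * bO * x2 - x1) x2
  r2 : ∀ g x1 x2, R g x1 x2 → R g x1 (2 * b2 * g + 2 * bO * x1 - x2)
  e0 : R 1 0 0
  e1 : R 0 1 0
  e2 : R 0 0 1

/-- the coefficient triples of a triangle system -/
theorem rt_of_tri {E : Type*} [AddCommGroup E] [Module ℝ E] {Ψ : Set E} {B : E →ₗ[ℝ] E →ₗ[ℝ] ℝ} {t d1 d2 : E}
    (h : Tri Ψ B t d1 d2) : RT (-B t d1) (-B t d2) (-B d1 d2) (fun g x1 x2 => g • t + x1 • d1 + x2 • d2 ∈ Ψ) where
  z := by
    intro g x1 x2 hx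
    rcases h.pos _ hx with ⟨α, β, γ, e, h1, h2, h3⟩ | ⟨α, β, γ, e, h1, h2, h3⟩
    · left
      obtain ⟨e1, e2, e3⟩ := h.indep (g - α) (x1 - β) (x2 - γ) (by
        have : (g - α) • t + (x1 - β) • d1 + (x2 - γ) • d2 =
          (g • t + x1 • d1 + x2 • d2) - (α • t + β • d1 + γ • d2) := by module
        rw [this, e, sub_self])
      have f1 : g = α := by linarith only [e1]
      have f2 : x1 = β := by linarith only [e2]
      have f3 : x2 = γ := by linarith only [e3]
      rw [f1, f2, f3]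
      exact ⟨h1, h2, h3⟩
    · right
      obtain ⟨e1, e2, e3⟩ := h.indep (g + α) (x1 + β) (x2 + γ) (by
        have : (g + α) • t + (x1 + β) • d1 + (x2 + γ) • d2 =
          (α • t + β • d1 + γ • d2) - (-(g • t + x1 • d1 + x2 • d2)) := by module
        rw [this, ← e, sub_self])
      have f1 : -g = α := by linarith only [e1]
      have f2 : -x1 = β := by linarith only [e2]
      have f3 : -x2 = γ := by linarith only [e3]
      rw [f1, f2, f3]
      exact ⟨h1, h2, h3⟩
  n := by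
    intro g x1 x2 hx
    have h0 := h.one _ hx
    simp only [map_add, map_smul, LinearMap.add_apply, LinearMap.smul_apply, smul_eq_mul] at h0
    rw [h.one t h.ha, h.one d1 h.hb, h.one d2 h.hc, h.symm d1 t, h.symm d2 t, h.symm d2 d1] at h0
    linear_combination h0
  r0 := by
    intro g x1 x2 hx
    have h0 := h.refl t h.ha _ hx
    have e : rf B t (g • t + x1 • d1 + x2 • d2) =
        (2 * (-B t d1) * x1 + 2 * (-B t d2) * x2 - g) • t + x1 • d1 + x2 • d2 := by
      simp only [rf, map_add, map_smul, smul_eq_mul]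
      rw [h.one t h.ha]
      module
    rw [e] at h0
    exact h0
  r1 := by
    intro g x1 x2 hx
    have h0 := h.refl d1 h.hb _ hx
    have e : rf B d1 (g • t + x1 • d1 + x2 • d2) =
        g • t + (2 * (-B t d1) * g + 2 * (-B d1 d2) * x2 - x1) • d1 + x2 • d2 := by
      simp only [rf, map_add, map_smul, smul_eq_mul]
      rw [h.one d1 h.hb, h.symm d1 t]
      module
    rw [e] at h0
    exact h0
  r2 := by
    intro g x1 x2 hx
    have h0 := h.refl d2 h.hc _ hx
    have e : rf B d2 (g • t + x1 • d1 + x2 • d2) =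
        g • t + x1 • d1 + (2 * (-B t d2) * g + 2 * (-B d1 d2) * x1 - x2) • d2 := by
      simp only [rf, map_add, map_smul, smul_eq_mul]
      rw [h.one d2 h.hc, h.symm d2 t, h.symm d2 d1]
      module
    rw [e] at h0
    exact h0
  e0 := by
    have : (1 : ℝ) • t + (0 : ℝ) • d1 + (0 : ℝ) • d2 = t := by module
    rw [this]
    exact h.ha
  e1 := by
    have : (0 : ℝ) • t + (1 : ℝ) • d1 + (0 : ℝ) • d2 = d1 := by module
    rw [this]
    exact h.hb
  e2 := by
    have : (0 : ℝ) • t + (0 : ℝ) • d1 + (1 : ℝ) • d2 = d2 := by module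
    rw [this]
    exact h.hc

namespace RT

variable {b1 b2 bO : ℝ} {R : ℝ → ℝ → ℝ → Prop}

/-- exchange of `d1` and `d2` -/
theorem swap (h : RT b1 b2 bO R) : RT b2 b1 bO (fun g x1 x2 => R g x2 x1) where
  z := by
    intro g x1 x2 hx
    rcases h.z _ _ _ hx with ⟨a, b, c⟩ | ⟨a, b, c⟩
    · exact Or.inl ⟨a, c, b⟩
    · exact Or.inr ⟨a, c, b⟩
  n := by
    intro g x1 x2 hx
    linear_combination h.n _ _ _ hx
  r0 := by
    intro g x1 x2 hx
    have := h.r0 _ _ _ hx
    have e : 2 * b2 * x1 + 2 * b1 * x2 - g = 2 * b1 * x2 + 2 * b2 * x1 - g := by ring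
    rw [e]
    exact this
  r1 := fun g x1 x2 hx => h.r2 _ _ _ hx
  r2 := fun g x1 x2 hx => h.r1 _ _ _ hx
  e0 := h.e0
  e1 := h.e2
  e2 := h.e1

/-- exchange of `t` and `d2` -/
theorem swap0 (h : RT b1 b2 bO R) : RT bO b2 b1 (fun g x1 x2 => R x2 x1 g) where
  z := by
    intro g x1 x2 hx
    rcases h.z _ _ _ hx with ⟨a, b, c⟩ | ⟨a, b, c⟩
    · exact Or.inl ⟨c, b, a⟩
    · exact Or.inr ⟨c, b, a⟩
  n := by
    intro g x1 x2 hx
    linear_combination h.n _ _ _ hx
  r0 := by
    intro g x1 x2 hx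
    have := h.r2 _ _ _ hx
    have e : 2 * bO * x1 + 2 * b2 * x2 - g = 2 * b2 * x2 + 2 * bO * x1 - g := by ring
    rw [e]
    exact this
  r1 := by
    intro g x1 x2 hx
    have := h.r1 _ _ _ hx
    have e : 2 * bO * g + 2 * b1 * x2 - x1 = 2 * b1 * x2 + 2 * bO * g - x1 := by ring
    rw [e]
    exact this
  r2 := by
    intro g x1 x2 hx
    have := h.r0 _ _ _ hx
    have e : 2 * b2 * g + 2 * b1 * x1 - x2 = 2 * b1 * x1 + 2 * b2 * g - x2 := by ring
    rw [e]
    exact this
  e0 := h.e2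
  e1 := h.e1
  e2 := h.e0

/-- a root with a positive coefficient -/
theorem z0 (h : RT b1 b2 bO R) {g x1 x2 : ℝ} (hx : R g x1 x2) (hg : 0 < g) : 1 ≤ g ∧ Z1 x1 ∧ Z1 x2 := by
  rcases h.z _ _ _ hx with ⟨a, b, c⟩ | ⟨a, b, c⟩
  · refine ⟨?_, b, c⟩
    rcases a with a | a
    · exact absurd a hg.ne'
    · exact a
  · exfalso
    rcases a with a | a
    · linarith only [hg, a]
    · linarith only [hg, a]

theorem z1 (h : RT b1 b2 bO R) {g x1 x2 : ℝ} (hx : R g x1 x2) (hg : 0 < x1) : Z1 g ∧ 1 ≤ x1 ∧ Z1 x2 := by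
  rcases h.z _ _ _ hx with ⟨a, b, c⟩ | ⟨a, b, c⟩
  · refine ⟨a, ?_, c⟩
    rcases b with b | b
    · exact absurd b hg.ne'
    · exact b
  · exfalso
    rcases b with b | b
    · linarith only [hg, b]
    · linarith only [hg, b]

theorem z2 (h : RT b1 b2 bO R) {g x1 x2 : ℝ} (hx : R g x1 x2) (hg : 0 < x2) : Z1 g ∧ Z1 x1 ∧ 1 ≤ x2 := by
  rcases h.z _ _ _ hx with ⟨a, b, c⟩ | ⟨a, b, c⟩
  · refine ⟨a, b, ?_⟩
    rcases c with c | c
    · exact absurd c hg.ne'
    · exact c
  · exfalso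
    rcases c with c | c
    · linarith only [hg, c]
    · linarith only [hg, c]

theorem b1z (h : RT b1 b2 bO R) : Z1 (2 * b1) := by
  have h1 := h.r1 _ _ _ h.e0
  have e1 : 2 * b1 * 1 + 2 * bO * 0 - 0 = 2 * b1 := by ring
  rw [e1] at h1
  exact (h.z0 h1 one_pos).2.1

theorem b2z (h : RT b1 b2 bO R) : Z1 (2 * b2) := h.swap.b1z

theorem bOz (h : RT b1 b2 bO R) : Z1 (2 * bO) := h.swap0.b1z

theorem b1n (h : RT b1 b2 bO R) : 0 ≤ b1 := by
  rcases h.b1z with h1 | h1 <;> linarith only [h1]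

theorem b2n (h : RT b1 b2 bO R) : 0 ≤ b2 := h.swap.b1n

theorem bOn (h : RT b1 b2 bO R) : 0 ≤ bO := h.swap0.b1n

/-- the label of `O`: `2 bO` is `0`, `1` or at least `√2` -/
theorem bOs (h : RT b1 b2 bO R) : 2 * bO = 0 ∨ 2 * bO = 1 ∨ 2 ≤ (2 * bO) ^ 2 := by
  rcases h.bOz with h0 | h0
  · exact Or.inl h0
  · right
    have h1 := h.r2 _ _ _ h.e1
    have e1 : 2 * b2 * 0 + 2 * bO * 1 - 0 = 2 * bO := by ring
    rw [e1] at h1
    have h2 := h.r1 _ _ _ h1
    have e2 : 2 * b1 * 0 + 2 * bO * (2 * bO) - 1 = (2 * bO) ^ 2 - 1 := by ring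
    rw [e2] at h2
    rcases (h.z2 h2 (by linarith only [h0])).2.1 with h3 | h3
    · left
      nlinarith only [h0, h3]
    · right
      linarith only [h3]

/-- coefficients in the flat of `t` and `d2` -/
theorem flat (h : RT b1 b2 bO R) {s : ℕ → ℝ} (h0 : s 0 = 0) (h1 : s 1 = 1)
    (hr : ∀ k, s (k + 2) = 2 * b2 * s (k + 1) - s k) (n : ℕ) : ∀ g x2, R g 0 x2 →
    (Z1 (s (n + 1) * g - s n * x2) ∨ Z1 (-(s (n + 1) * g - s n * x2))) ∧
      (Z1 (s (n + 1) * x2 - s n * g) ∨ Z1 (-(s (n + 1) * x2 - s n * g))) := by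
  induction n with
  | zero =>
    intro g x2 hx
    rw [h0, h1]
    have e1 : 1 * g - 0 * x2 = g := by ring
    have e2 : 1 * x2 - 0 * g = x2 := by ring
    rw [e1, e2]
    rcases h.z _ _ _ hx with ⟨a, b, c⟩ | ⟨a, b, c⟩
    · exact ⟨Or.inl a, Or.inl c⟩
    · exact ⟨Or.inr a, Or.inr c⟩
  | succ n ih =>
    intro g x2 hx
    constructor
    · have h2 := h.r2 _ _ _ hx
      have e1 : 2 * b2 * g + 2 * bO * 0 - x2 = 2 * b2 * g - x2 := by ring
      rw [e1] at h2
      have h3 := (ih _ _ h2).2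
      have e2 : s (n + 1) * (2 * b2 * g - x2) - s n * g = s (n + 1 + 1) * g - s (n + 1) * x2 := by
        rw [hr n]
        ring
      rw [e2] at h3
      exact h3
    · have h2 := h.r0 _ _ _ hx
      have e1 : 2 * b1 * 0 + 2 * b2 * x2 - g = 2 * b2 * x2 - g := by ring
      rw [e1] at h2
      have h3 := (ih _ _ h2).1
      have e2 : s (n + 1) * (2 * b2 * x2 - g) - s n * x2 = s (n + 1 + 1) * x2 - s (n + 1) * g := by
        rw [hr n]
        ring
      rw [e2] at h3
      exact h3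

end RT

section cheb

variable {b : ℝ} {s : ℕ → ℝ}

theorem cheb_id (h0 : s 0 = 0) (h1 : s 1 = 1) (hr : ∀ k, s (k + 2) = 2 * b * s (k + 1) - s k) (n : ℕ) :
    s (n + 2) * s n = s (n + 1) ^ 2 - 1 := by
  induction n with
  | zero =>
    rw [h0, h1]
    ring
  | succ n ih =>
    rw [hr (n + 1), hr n]
    rw [hr n] at ih
    linear_combination ih

/-- `1 ≤ s` up to `k + 2` gives `Ch` -/
theorem ch_of (h0 : s 0 = 0) (h1 : s 1 = 1) (hr : ∀ k, s (k + 2) = 2 * b * s (k + 1) - s k) {k : ℕ} (hk : 1 ≤ k)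
    (hs : ∀ n, 1 ≤ n → n ≤ k + 2 → 1 ≤ s n) : Ch b (s (k + 1)) (s (k + 2)) (s k) where
  ad := cheb_id h0 h1 hr k
  sum := by
    rw [hr k]
    ring
  a1 := hs _ (by omega) le_rfl
  d1 := hs _ hk (by omega)
  s0 := by linarith only [hs (k + 1) (by omega) (by omega)]
  had := by
    rcases le_total b 1 with hb | hb
    · have e1 : s (k + 2) + s k = 2 * b * s (k + 1) := by
        rw [hr k]
        ring
      have e2 := cheb_id h0 h1 hr k
      have hb0 : 0 ≤ b := by
        have f1 := hs (k + 2) (by omega) le_rfl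
        have f2 := hs k hk (by omega)
        have f3 := hs (k + 1) (by omega) (by omega)
        by_contra hcon
        have := mul_neg_of_neg_of_pos (not_le.1 hcon) (by linarith only [f3] : 0 < s (k + 1))
        linarith only [e1, f1, f2, this]
      have e3 : (s (k + 2) - s k) ^ 2 = 4 - 4 * ((1 - b ^ 2) * s (k + 1) ^ 2) := by
        have : (s (k + 2) - s k) ^ 2 = (s (k + 2) + s k) ^ 2 - 4 * (s (k + 2) * s k) := by ring
        rw [this, e1, e2]
        ring
      have e4 : 0 ≤ (1 - b ^ 2) * s (k + 1) ^ 2 := mul_nonneg (by nlinarith only [hb, hb0]) (sq_nonneg _)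
      have e5 : (s (k + 2) - s k) ^ 2 ≤ 2 ^ 2 := by linarith only [e3, e4]
      have := abs_le_of_sq_le_sq' e5 (by norm_num)
      linarith only [this.1]
    · have h2 : ∀ n, 0 ≤ s n ∧ s n + 1 ≤ s (n + 1) := by
        intro n
        induction n with
        | zero =>
          rw [h0, h1]
          norm_num
        | succ n ih =>
          refine ⟨by linarith only [ih.1, ih.2], ?_⟩
          rw [hr n]
          nlinarith only [mul_nonneg (by linarith only [hb] : 0 ≤ b - 1) (by linarith only [ih.1, ih.2] : 0 ≤ s (n + 1)), ih.1, ih.2]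
      linarith only [(h2 k).2, (h2 (k + 1)).2]

end cheb

section main

variable {b1 b2 bO : ℝ} {R : ℝ → ℝ → ℝ → Prop} {s : ℕ → ℝ}

/-- a root of the flat of `t` and `d2` -/
theorem LA_flat (h : RT b1 b2 bO R) (h0 : s 0 = 0) (h1 : s 1 = 1) (hr : ∀ k, s (k + 2) = 2 * b2 * s (k + 1) - s k)
    {k : ℕ} (hk : 1 ≤ k) (hs : ∀ n, 1 ≤ n → n ≤ k + 2 → 1 ≤ s n) {g x2 : ℝ} (hx : R g 0 x2) (hx2 : 0 ≤ x2)
    (hu : s k / s (k + 1) * x2 < g) : 1 + (s (k + 1) - 1) / s (k + 2) * x2 ≤ g := by
  have hC := ch_of h0 h1 hr hk hs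
  refine flatA hC hx2 ?_ ?_
  · have := h.n _ _ _ hx
    linear_combination this
  · have hs1 := hC.s0
    have hv : 0 < s (k + 1) * g - s k * x2 := by
      have : s k / s (k + 1) * x2 = s k * x2 / s (k + 1) := by ring
      rw [this, div_lt_iff₀ hs1] at hu
      linarith only [hu]
    rcases (h.flat h0 h1 hr k _ _ hx).1 with h3 | h3
    · rcases h3 with h3 | h3
      · exact absurd h3 hv.ne'
      · exact h3
    · exfalso
      rcases h3 with h3 | h3 <;> linarith only [hv, h3]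

/-- Lemma A for `(2, k + 2)` -/
theorem LA_one (h : RT b1 b2 bO R) (h0 : s 0 = 0) (h1 : s 1 = 1) (hr : ∀ k, s (k + 2) = 2 * b2 * s (k + 1) - s k)
    {k : ℕ} (hk : 1 ≤ k) (hs : ∀ n, 1 ≤ n → n ≤ k + 2 → 1 ≤ s n) {g x1 x2 : ℝ} (hx : R g x1 x2) (hx2 : 0 ≤ x2)
    (hu : s k / s (k + 1) * x2 < g) : 1 + (s (k + 1) - 1) / s (k + 2) * x2 ≤ g := by
  have hC := ch_of h0 h1 hr hk hs
  have hs1 := hC.s0
  have hd1 := hC.d1
  have ha1 := hC.a1
  have hg0 : 0 < g := lt_of_le_of_lt (mul_nonneg (div_nonneg (by linarith only [hd1]) hs1.le) hx2) hu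
  have hu' : s k * x2 < s (k + 1) * g := by
    have : s k / s (k + 1) * x2 = s k * x2 / s (k + 1) := by ring
    rw [this, div_lt_iff₀ hs1] at hu
    linarith only [hu]
  obtain ⟨hg1, zx1, zx2⟩ := h.z0 hx hg0
  rcases zx2 with zx2 | zx2
  · rw [zx2, mul_zero, add_zero]
    exact hg1
  rcases zx1 with zx1 | zx1
  · rw [zx1] at hx
    exact LA_flat h h0 h1 hr hk hs hx hx2 hu
  have hr1 := h.r1 _ _ _ hx
  rcases (h.z0 hr1 hg0).2.1 with zy | zy
  · rw [zy] at hr1
    exact LA_flat h h0 h1 hr hk hs hr1 hx2 hu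
  have hn := h.n _ _ _ hx
  have hb1 := h.b1n
  have hbO := h.bOn
  have hq : 2 * b1 * g + 2 * bO * x2 ≤ g ^ 2 + x2 ^ 2 - 2 * b2 * g * x2 := by
    nlinarith only [hn, mul_nonneg (by linarith only [zx1] : 0 ≤ x1 - 1) (by linarith only [zy] : 0 ≤ 2 * b1 * g + 2 * bO * x2 - x1 - 1)]
  -- `i ≥ 4`
  have hi4 : 2 ≤ k → s (k + 1) + 1 ≤ s k ^ 2 := by
    intro hk2
    obtain ⟨m, rfl⟩ : ∃ m, k = m + 1 := ⟨k - 1, by omega⟩
    have e1 := cheb_id h0 h1 hr m
    have e2 := hs m (by omega) (by omega)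
    have e3 : s (m + 2) * 1 ≤ s (m + 2) * s m := mul_le_mul_of_nonneg_left e2 hs1.le
    have e4 : s (m + 1 + 1) = s (m + 2) := rfl
    rw [e4]
    linarith only [e1, e3]
  have had := hC.ad
  rcases h.b1z with zb | zb
  · -- `b1 = 0`
    have hb10 : b1 = 0 := by linarith only [zb]
    rcases h.bOz with zO | zO
    · exfalso
      have hbO0 : bO = 0 := by linarith only [zO]
      rw [hb10, hbO0] at zy
      linarith only [zx1, zy]
    · by_cases hk2 : 2 ≤ k
      · have h4 := hi4 hk2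
        refine stripA hC hb1 hbO (Or.inr zO) ?_ zx2 hu hq
        -- `a ≤ (s - 1) s`
        have e1 : s (k + 1) + 1 ≤ s (k + 1) * s k := by
          rcases le_total (s k) (s (k + 1)) with h5 | h5
          · nlinarith only [hd1, h4, h5]
          · have e2 : s k + 1 ≤ s (k + 1) ^ 2 := by nlinarith only [hd1, ha1, had]
            nlinarith only [hs1, ha1, had, h5]
        have e2 : s (k + 2) ≤ (s (k + 1) - 1) * s (k + 1) := by
          have e3 : s k * s (k + 2) ≤ s k * ((s (k + 1) - 1) * s (k + 1)) := by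
            have e4 : s k * s (k + 2) = (s (k + 1) - 1) * (s (k + 1) + 1) := by linarith only [had]
            rw [e4]
            have e5 := mul_le_mul_of_nonneg_left e1 (by linarith only [hC.s1] : 0 ≤ s (k + 1) - 1)
            linarith only [e5]
          exact le_of_mul_le_mul_left e3 (by linarith only [hd1])
        have e3 : (s (k + 1) - 1) * s (k + 1) * 1 ≤ (s (k + 1) - 1) * s (k + 1) * (2 * bO) :=
          mul_le_mul_of_nonneg_left zO (mul_nonneg (by linarith only [hC.s1]) hs1.le)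
        have e4 : 0 ≤ (s (k + 1) - 1) * (2 * b1 * s k) :=
          mul_nonneg (by linarith only [hC.s1]) (mul_nonneg (by linarith only [hb10]) (by linarith only [hd1]))
        linarith only [e2, e3, e4]
      · have hk1 : k = 1 := by omega
        subst hk1
        rw [h1] at hC hu' hu
        obtain ⟨hb, haa⟩ := hC.eq3
        have hs2e : s (1 + 1) = s 2 := rfl
        rcases h.bOs with zp | zp | zp
        · exfalso
          linarith only [zO, zp]
        · -- `2 bO = 1`
          have h6 := h.r2 _ _ _ hx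
          have h7 := h.r1 _ _ _ h6
          have e1 : 2 * b1 * g + 2 * bO * (2 * b2 * g + 2 * bO * x1 - x2) - x1 = 2 * b2 * g - x2 := by
            rw [hb10, zp]
            ring
          rw [e1] at h7
          have h8 := (h.z0 h7 hg0).2.1
          have h9 : 0 < 2 * b2 * g - x2 := by
            rw [← hb]
            linarith only [hu']
          refine strip3 hC hb1 hbO (Or.inr zO) zx2 ?_ hq
          rcases h8 with h8 | h8
          · exact absurd h8 h9.ne'
          · exact h8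
        · -- `(2 bO) ^ 2 ≥ 2`
          have key : ∀ y, R g y x2 → 1 ≤ y → 1 ≤ (s 2 ^ 2 - 1) * g - s 2 * x2 + s 2 * (2 * bO) * y := by
            intro y hy hy1
            have h6 := h.r2 _ _ _ hy
            have h7 := h.r0 _ _ _ h6
            have e1 : 2 * b1 * y + 2 * b2 * (2 * b2 * g + 2 * bO * y - x2) - g =
                (s 2 ^ 2 - 1) * g - s 2 * x2 + s 2 * (2 * bO) * y := by
              rw [hb10, ← hb]
              ring
            rw [e1] at h7
            have h8 := (h.z1 h7 (by linarith only [hy1])).1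
            rcases h8 with h8 | h8
            · exfalso
              have h9 := h.r2 _ _ _ h7
              rw [h8] at h9
              have e2 : 2 * b2 * 0 + 2 * bO * y - (2 * b2 * g + 2 * bO * y - x2) = x2 - 2 * b2 * g := by ring
              rw [e2] at h9
              have h10 := (h.z1 h9 (by linarith only [hy1])).2.2
              have h11 : 0 < 2 * b2 * g - x2 := by
                rw [← hb]
                linarith only [hu']
              rcases h10 with h10 | h10 <;> linarith only [h11, h10]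
            · exact h8
          refine strip3p hC (p := 2 * bO) (x1 := x1) (by linarith only [zO]) zp zx2 (by linarith only [hu']) zx1 ?_ ?_ ?_ ?_
          · rw [hb10] at zy
            linarith only [zy]
          · rw [hb10] at hn
            rw [← hb] at hn
            linear_combination -hn
          · exact key _ hx zx1
          · have h12 := key _ hr1 zy
            rw [hb10] at h12
            have e3 : 2 * 0 * g + 2 * bO * x2 - x1 = 2 * bO * x2 - x1 := by ring
            rw [e3] at h12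
            exact h12
  · rcases h.bOz with zO | zO
    · -- `bO = 0`
      have hbO0 : bO = 0 := by linarith only [zO]
      by_cases hk2 : 2 ≤ k
      · have h4 := hi4 hk2
        refine stripA hC hb1 hbO (Or.inl zb) ?_ zx2 hu hq
        have e2 : s (k + 2) ≤ (s (k + 1) - 1) * s k := by
          have e3 : s k * s (k + 2) ≤ s k * ((s (k + 1) - 1) * s k) := by
            have e4 : s k * s (k + 2) = (s (k + 1) - 1) * (s (k + 1) + 1) := by linarith only [had]
            rw [e4]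
            have e5 := mul_le_mul_of_nonneg_left h4 (by linarith only [hC.s1] : 0 ≤ s (k + 1) - 1)
            linarith only [e5]
          exact le_of_mul_le_mul_left e3 (by linarith only [hd1])
        have e3 : (s (k + 1) - 1) * s k * 1 ≤ (s (k + 1) - 1) * s k * (2 * b1) :=
          mul_le_mul_of_nonneg_left zb (mul_nonneg (by linarith only [hC.s1]) (by linarith only [hd1]))
        have e4 : 0 ≤ (s (k + 1) - 1) * (2 * bO * s (k + 1)) :=
          mul_nonneg (by linarith only [hC.s1]) (mul_nonneg (by linarith only [hbO0]) (by linarith only [hs1]))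
        linarith only [e2, e3, e4]
      · have hk1 : k = 1 := by omega
        subst hk1
        rw [h1] at hC hu' hu
        obtain ⟨hb, haa⟩ := hC.eq3
        have h6 := h.r2 _ _ _ hx
        have e1 : 2 * b2 * g + 2 * bO * x1 - x2 = 2 * b2 * g - x2 := by
          rw [hbO0]
          ring
        rw [e1] at h6
        have h8 := (h.z0 h6 hg0).2.2
        have h9 : 0 < 2 * b2 * g - x2 := by
          rw [← hb]
          linarith only [hu']
        refine strip3 hC hb1 hbO (Or.inl zb) zx2 ?_ hq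
        rcases h8 with h8 | h8
        · exact absurd h8 h9.ne'
        · exact h8
    · -- both at least `1/2`
      refine stripA hC hb1 hbO (Or.inl zb) ?_ zx2 hu hq
      have e1 : s (k + 2) ≤ (s (k + 1) - 1) * (s k + s (k + 1)) := by
        have e2 : (s (k + 1) - 1) * (s k + s (k + 1)) - s (k + 2) =
            (s (k + 1) - 1) * (s k - 1) + s (k + 2) * (s k - 1) := by
          linear_combination -had
        have e3 : 0 ≤ (s (k + 1) - 1) * (s k - 1) + s (k + 2) * (s k - 1) :=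
          add_nonneg (mul_nonneg (by linarith only [hC.s1]) (by linarith only [hd1])) (mul_nonneg (by linarith only [ha1]) (by linarith only [hd1]))
        linarith only [e2, e3]
      have e2 : (s (k + 1) - 1) * (s k + s (k + 1)) ≤ (s (k + 1) - 1) * (2 * b1 * s k + 2 * bO * s (k + 1)) := by
        apply mul_le_mul_of_nonneg_left _ (by linarith only [hC.s1])
        have e3 : 1 * s k ≤ 2 * b1 * s k := mul_le_mul_of_nonneg_right zb (by linarith only [hd1])
        have e4 : 1 * s (k + 1) ≤ 2 * bO * s (k + 1) := mul_le_mul_of_nonneg_right zO hs1.le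
        linarith only [e3, e4]
      linarith only [e1, e2]

/-- Lemma A -/
theorem LA (h : RT b1 b2 bO R) (h0 : s 0 = 0) (h1 : s 1 = 1) (hr : ∀ k, s (k + 2) = 2 * b1 * s (k + 1) - s k)
    {s' : ℕ → ℝ} (h0' : s' 0 = 0) (h1' : s' 1 = 1) (hr' : ∀ k, s' (k + 2) = 2 * b2 * s' (k + 1) - s' k)
    {k l : ℕ} (hs : ∀ n, 1 ≤ n → n ≤ k + 2 → 1 ≤ s n) (hs' : ∀ n, 1 ≤ n → n ≤ l + 2 → 1 ≤ s' n) {g x1 x2 : ℝ}
    (hx : R g x1 x2) (hx1 : 0 ≤ x1) (hx2 : 0 ≤ x2) (hu : s k / s (k + 1) * x1 + s' l / s' (l + 1) * x2 < g) :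
    1 + (s (k + 1) - 1) / s (k + 2) * x1 + (s' (l + 1) - 1) / s' (l + 2) * x2 ≤ g := by
  have hk1 : ∀ n, n ≤ k + 2 → 0 ≤ s n := by
    intro n hn
    rcases Nat.eq_zero_or_pos n with h2 | h2
    · rw [h2, h0]
    · linarith only [hs n h2 hn]
  have hl1 : ∀ n, n ≤ l + 2 → 0 ≤ s' n := by
    intro n hn
    rcases Nat.eq_zero_or_pos n with h2 | h2
    · rw [h2, h0']
    · linarith only [hs' n h2 hn]
  have hp1 : 0 ≤ s k / s (k + 1) * x1 := mul_nonneg (div_nonneg (hk1 _ (by omega)) (hk1 _ (by omega))) hx1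
  have hp2 : 0 ≤ s' l / s' (l + 1) * x2 := mul_nonneg (div_nonneg (hl1 _ (by omega)) (hl1 _ (by omega))) hx2
  have hg0 : 0 < g := by linarith only [hu, hp1, hp2]
  obtain ⟨hg1, zx1, zx2⟩ := h.z0 hx hg0
  rcases Nat.eq_zero_or_pos k with hk | hk
  · -- `k = 0`
    subst hk
    have e1 : (s (0 + 1) - 1) / s (0 + 2) * x1 = 0 := by
      have : s (0 + 1) = 1 := h1
      rw [this]
      ring
    rw [e1, add_zero]
    rcases Nat.eq_zero_or_pos l with hl | hl
    · subst hl
      have e2 : (s' (0 + 1) - 1) / s' (0 + 2) * x2 = 0 := by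
        have : s' (0 + 1) = 1 := h1'
        rw [this]
        ring
      rw [e2, add_zero]
      exact hg1
    · exact LA_one h h0' h1' hr' hl hs' hx hx2 (by linarith only [hu, hp1])
  · rcases Nat.eq_zero_or_pos l with hl | hl
    · subst hl
      have e2 : (s' (0 + 1) - 1) / s' (0 + 2) * x2 = 0 := by
        have : s' (0 + 1) = 1 := h1'
        rw [this]
        ring
      rw [e2, add_zero]
      exact LA_one h.swap h0 h1 hr hk hs (g := g) (x1 := x2) (x2 := x1) hx hx1 (by linarith only [hu, hp2])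
    · rcases zx1 with zx1 | zx1
      · rw [zx1, mul_zero, add_zero]
        rw [zx1] at hx
        rw [zx1, mul_zero, zero_add] at hu
        exact LA_one h h0' h1' hr' hl hs' hx hx2 hu
      · rcases zx2 with zx2 | zx2
        · rw [zx2, mul_zero, add_zero]
          rw [zx2] at hx
          rw [zx2, mul_zero, add_zero] at hu
          exact LA_one h.swap h0 h1 hr hk hs (g := g) (x1 := 0) (x2 := x1) hx hx1 hu
        · refine lemA33 (ch_of h0 h1 hr hk hs) (ch_of h0' h1' hr' hl hs') h.bOn zx1 zx2 ?_ hu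
          have := h.n _ _ _ hx
          simp only [Phi]
          linarith only [this]

/-- Lemma A for a triangle system -/
theorem LA_tri {E : Type*} [AddCommGroup E] [Module ℝ E] {Ψ : Set E} {B : E →ₗ[ℝ] E →ₗ[ℝ] ℝ} {t d1 d2 : E}
    (h : Tri Ψ B t d1 d2) (h0 : s 0 = 0) (h1 : s 1 = 1) (hr : ∀ k, s (k + 2) = 2 * (-B t d1) * s (k + 1) - s k)
    {s' : ℕ → ℝ} (h0' : s' 0 = 0) (h1' : s' 1 = 1) (hr' : ∀ k, s' (k + 2) = 2 * (-B t d2) * s' (k + 1) - s' k)
    {k l : ℕ} (hs : ∀ n, 1 ≤ n → n ≤ k + 2 → 1 ≤ s n) (hs' : ∀ n, 1 ≤ n → n ≤ l + 2 → 1 ≤ s' n) {g x1 x2 : ℝ}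
    (hx : g • t + x1 • d1 + x2 • d2 ∈ Ψ) (hx1 : 0 ≤ x1) (hx2 : 0 ≤ x2)
    (hu : s k / s (k + 1) * x1 + s' l / s' (l + 1) * x2 < g) :
    1 + (s (k + 1) - 1) / s (k + 2) * x1 + (s' (l + 1) - 1) / s' (l + 2) * x2 ≤ g :=
  LA (rt_of_tri h) h0 h1 hr h0' h1' hr' hs hs' hx hx1 hx2 hu

end main

end Pool.Agent.Helper62.DY
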