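import Pool.Agent.Helper62.DY.SaR
import Pool.Agent.Helper9.DY.CaseII

/-!
# NG0: `x_L` is a root of the flat of `O` (MP_d13a5e_al)
-/

set_option autoImplicit false

namespace Pool.Agent.Helper62.DY

open _root_.DY (Z1 C01 Tri rf sq Str Loc Canon)

section vertex

variable {c f r κ ω : ℝ}

/-- the limit of `s_n / s_(n + 1)` -/
theorem om_lim (hc : 1 ≤ c) (hω : ω ^ 2 - 2 * c * ω + 1 = 0) (hω0 : 0 < ω) (hω1 : ω ≤ 1)
    (h : ∀ n, sq c n ≤ κ * sq c (n + 1)) : ω ≤ κ := by
  by_contra hcon
  have hd : 0 < ω - κ := by linarith only [not_le.1 hcon]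
  have hid : ∀ n, ω * sq c (n + 1) - sq c n = ω ^ (n + 1) := by
    intro n
    induction n with
    | zero =>
      rw [sq_zero, sq_one]
      ring
    | succ n ih =>
      have h1 := sq_rec c n
      have e1 : sq c (n + 1 + 1) = sq c (n + 2) := rfl
      rw [e1, h1, pow_succ, ← ih]
      linear_combination (-(sq c (n + 1))) * hω
  obtain ⟨N, hN⟩ := exists_nat_gt (1 / (ω - κ))
  rw [div_lt_iff₀ hd] at hN
  have h1 := hid N
  have h2 := h N
  have h3 : ω ^ (N + 1) ≤ 1 := pow_le_one₀ hω0.le hω1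
  have h4 := (sq_grow hc (N + 1)).1
  push_cast at h4
  have h5 : (N : ℝ) * (ω - κ) ≤ sq c (N + 1) * (ω - κ) := mul_le_mul_of_nonneg_right (by linarith only [h4]) hd.le
  have h6 : sq c (N + 1) * (ω - κ) = (ω * sq c (N + 1) - sq c N) - (κ * sq c (N + 1) - sq c N) := by ring
  rw [h6, h1] at h5
  linarith only [hN, h2, h3, h5]

/-- the value at `d` when `F` is beyond all lines of an infinite vertex -/
theorem ult_low (hS : Str c f r) (hc : 1 ≤ c) (hω : ω ^ 2 - 2 * c * ω + 1 = 0) (hω0 : 0 < ω) (hω1 : ω ≤ 1) :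
    -ω ≤ r := by
  by_contra hcon
  have h1 := hS.ult hc
  have h2 := hS.foot
  have h3 : r + ω < 0 := by linarith only [not_le.1 hcon]
  have h4 : (r + ω) * (ω * r + 1) = ω * (1 + r ^ 2 + 2 * c * r) := by linear_combination (r) * hω
  have h5 : 0 ≤ ω * (1 + r ^ 2 + 2 * c * r) := mul_nonneg hω0.le h1
  rw [← h4] at h5
  have h6 : ω * r + 1 ≤ 0 := by
    by_contra h7
    have := mul_neg_of_neg_of_pos h3 (not_le.1 h7)
    linarith only [h5, this]
  have h7 : -(ω * c) ≤ ω * r := by nlinarith only [hω0, h2]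
  have h8 : 1 ≤ ω := by
    by_contra h9
    nlinarith only [h1, h2, h3, h4, h5, h6, h9]
  have h9 : ω = 1 := le_antisymm hω1 h8
  rw [h9] at h3 hω
  linarith only [hω, hcon, h2, h9]

/-- the information of a vertex with labels, five cases -/
theorem vcase (hS : Str c f r) (hc : 0 ≤ c) (hf : f < 0) (h1 : ∀ n, 0 < sq c (n + 1) → 1 ≤ sq c (n + 1))
    (h2 : ∀ n, 0 < sq c (n + 1) → 0 ≤ sq c (n + 2)) (hz : ∀ n, 0 < sq c (n + 1) → sq c (n + 1) * f + sq c n ≠ 0) :
    0 < r ∨ (c = 0 ∧ 0 ≤ r) ∨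
    (∃ m, (∀ n, 1 ≤ n → n ≤ m + 3 → 1 ≤ sq c n) ∧ sq c (m + 1) < sq c (m + 2) * -f ∧
      -(sq c (m + 1) / (sq c (m + 2) + 1)) < r) ∨
    (∃ m, (∀ n, 1 ≤ n → n ≤ m + 2 → 1 ≤ sq c n) ∧ sq c (m + 2) = 1 ∧ sq c (m + 1) = 2 * c ∧ 2 * c < -f ∧ -c ≤ r) ∨
    (1 ≤ c ∧ ∀ n, sq c n ≤ -f * sq c (n + 1)) := by
  classical
  have pos1 : ∀ k, (∀ i ≤ k, 0 < sq c (i + 1)) → ∀ n, 1 ≤ n → n ≤ k + 1 → 1 ≤ sq c n := by
    intro k hk n hn1 hn2
    obtain ⟨m, rfl⟩ : ∃ m, n = m + 1 := ⟨n - 1, by omega⟩
    exact h1 m (hk m (by omega))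
  by_cases hP : ∃ k, (∀ i ≤ k, 0 < sq c (i + 1)) ∧ 0 < sq c (k + 1) * f + sq c k
  · obtain ⟨hk1, hk2⟩ := Nat.find_spec hP
    have hmin : ∀ i < Nat.find hP, sq c (i + 1) * f + sq c i ≤ 0 := by
      intro i hi
      by_contra hcon
      exact Nat.find_min hP hi ⟨fun j hj => hk1 j (by omega), not_le.1 hcon⟩
    have hnk := hS.nk hf _ hk1 hmin hk2
    generalize Nat.find hP = K at hk1 hk2 hmin hnk
    rcases Nat.eq_zero_or_pos K with hK | hK
    · exfalso
      subst hK
      rw [sq_zero] at hk2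
      have : sq c (0 + 1) = 1 := rfl
      rw [this] at hk2
      linarith only [hf, hk2]
    · obtain ⟨m, rfl⟩ : ∃ m, K = m + 1 := ⟨K - 1, by omega⟩
      rcases Nat.eq_zero_or_pos m with hm | hm
      · left
        subst hm
        have e1 : sq c (0 + 1) = 1 := rfl
        rw [e1] at hnk
        have e2 := hk1 (0 + 1) le_rfl
        have e3 : 0 < sq c (0 + 1 + 1) * r := by linarith only [hnk]
        by_contra hcon
        have := mul_nonpos_of_nonneg_of_nonpos e2.le (not_lt.1 hcon)
        linarith only [e3, this]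
      · obtain ⟨l, rfl⟩ : ∃ l, m = l + 1 := ⟨m - 1, by omega⟩
        right; right; left
        have hs := pos1 (l + 1 + 1) hk1
        refine ⟨l, fun n h1 h2 => hs n h1 h2, ?_, ?_⟩
        · have e1 := hmin (l + 1) (by omega)
          have e2 := hz (l + 1) (hk1 (l + 1) (by omega))
          have e3 : sq c (l + 1 + 1) = sq c (l + 2) := rfl
          rw [e3] at e1 e2
          have := lt_of_le_of_ne e1 e2
          linarith only [this]
        · have e2 := hs (l + 3) (by omega) le_rfl
          have e4 := hs (l + 2) (by omega) (by omega)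
          have e5 := hs (l + 1) (by omega) (by omega)
          have e6 := cheb_id (b := c) (sq_zero c) (sq_one c) (sq_rec c) (l + 1)
          have e7 : sq c (l + 1 + 2) = sq c (l + 3) := rfl
          have e8 : sq c (l + 1 + 1) = sq c (l + 2) := rfl
          have e9 : sq c (l + 1 + 1 + 1) = sq c (l + 3) := rfl
          rw [e7, e8] at e6
          rw [e9, e8] at hnk
          have e10 : sq c (l + 1) / (sq c (l + 2) + 1) = (sq c (l + 2) - 1) / sq c (l + 3) := by
            rw [div_eq_div_iff (by linarith only [e4]) (by linarith only [e2])]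
            linarith only [e6]
          rw [e10, neg_lt, div_eq_mul_inv]
          have e11 : -r * sq c (l + 3) < sq c (l + 2) - 1 := by linarith only [hnk]
          have e12 : -r = -r * sq c (l + 3) * (sq c (l + 3))⁻¹ := by
            field_simp
          rw [e12]
          exact mul_lt_mul_of_pos_right e11 (by positivity)
  · have hP' : ∀ k, (∀ i ≤ k, 0 < sq c (i + 1)) → sq c (k + 1) * f + sq c k ≤ 0 := by
      intro k hk
      by_contra hcon
      exact hP ⟨k, hk, not_le.1 hcon⟩
    by_cases hQ : ∀ i, 0 < sq c (i + 1)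
    · right; right; right; right
      refine ⟨one_le_of_all hc (fun n => h1 n (hQ n)), ?_⟩
      intro n
      have := hP' n (fun i _ => hQ i)
      linarith only [this]
    · -- finite order
      have hQ' : ∃ i, sq c (i + 1) ≤ 0 := by
        by_contra hcon
        apply hQ
        intro i
        by_contra h3
        exact hcon ⟨i, not_lt.1 h3⟩
      have hM := Nat.find_spec hQ'
      have hmin : ∀ i < Nat.find hQ', 0 < sq c (i + 1) := by
        intro i hi
        exact not_le.1 (Nat.find_min hQ' hi)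
      generalize Nat.find hQ' = K at hM hmin
      rcases Nat.eq_zero_or_pos K with hK | hK
      · exfalso
        subst hK
        have : sq c (0 + 1) = 1 := rfl
        rw [this] at hM
        linarith only [hM]
      · obtain ⟨M, rfl⟩ : ∃ M, K = M + 1 := ⟨K - 1, by omega⟩
        have e1 := hmin M (by omega)
        have e2 := h2 M e1
        have e3 : sq c (M + 2) = 0 := le_antisymm hM e2
        have e4 := cheb_id (b := c) (sq_zero c) (sq_one c) (sq_rec c) M
        have e5 : sq c (M + 1) = 1 := by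
          rw [e3, zero_mul] at e4
          nlinarith only [e4, h1 M e1]
        have e6 : sq c M = 2 * c := by
          have := sq_rec c M
          rw [e3, e5] at this
          linarith only [this]
        have e7 := hP' M (fun i hi => hmin i (by omega))
        have e8 := hz M e1
        have e9 := lt_of_le_of_ne e7 e8
        rw [e5, e6] at e9
        have hs := pos1 M (fun i hi => hmin i (by omega))
        rcases Nat.eq_zero_or_pos M with h3 | h3
        · right; left
          subst h3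
          rw [sq_zero] at e6
          have hc0 : c = 0 := by linarith only [e6]
          refine ⟨hc0, ?_⟩
          have := hS.foot
          linarith only [hc0, this]
        · obtain ⟨m, rfl⟩ : ∃ m, M = m + 1 := ⟨M - 1, by omega⟩
          right; right; right; left
          exact ⟨m, fun n h1 h2 => hs n h1 h2, e5, e6, by linarith only [e9], hS.foot⟩

end vertex

section ng0

variable {E : Type*} [AddCommGroup E] [Module ℝ E] {Ψ : Set E} {B : E →ₗ[ℝ] E →ₗ[ℝ] ℝ}

/-- a root of the flat of `x` and `t` has coefficients of the same sign -/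
theorem canon_neg {x t u : E} (hc : Canon Ψ x t) (hu : u ∈ Ψ) {α β : ℝ} (e : u = α • x + β • t) (hα : 0 < α)
    (hβ : β < 0) : False := by
  rcases hc u hu _ _ e with (⟨h6, h7⟩ | ⟨h6, h7⟩ | ⟨h6, h7⟩) | (⟨h6, h7⟩ | ⟨h6, h7⟩ | ⟨h6, h7⟩) <;> linarith

/-- the reflection in a root of the flat of `O` -/
theorem refl_O {t d1 d2 : E} (hT : Tri Ψ B t d1 d2) {o o' g x1 x2 : ℝ} (ha : o • d1 + o' • d2 ∈ Ψ)
    (hx : g • t + x1 • d1 + x2 • d2 ∈ Ψ) :
    g • t + (x1 + (2 * (-B t d1 * o + -B t d2 * o') * g - 2 * (o - -B d1 d2 * o') * x1 -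
      2 * (o' - -B d1 d2 * o) * x2) * o) • d1 + (x2 + (2 * (-B t d1 * o + -B t d2 * o') * g -
      2 * (o - -B d1 d2 * o') * x1 - 2 * (o' - -B d1 d2 * o) * x2) * o') • d2 ∈ Ψ := by
  have h0 := hT.refl _ ha _ hx
  have e : rf B (o • d1 + o' • d2) (g • t + x1 • d1 + x2 • d2) =
      g • t + (x1 + (2 * (-B t d1 * o + -B t d2 * o') * g - 2 * (o - -B d1 d2 * o') * x1 -
      2 * (o' - -B d1 d2 * o) * x2) * o) • d1 + (x2 + (2 * (-B t d1 * o + -B t d2 * o') * g -
      2 * (o - -B d1 d2 * o') * x1 - 2 * (o' - -B d1 d2 * o) * x2) * o') • d2 := by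
    simp only [rf, map_add, map_smul, smul_eq_mul, LinearMap.add_apply, LinearMap.smul_apply]
    rw [hT.one d1 hT.hb, hT.one d2 hT.hc, hT.symm d1 t, hT.symm d2 t, hT.symm d2 d1]
    match_scalars <;> ring
  rw [e] at h0
  exact h0

theorem tau_eq {c : ℝ} {l : ℕ} (hs : ∀ n, 1 ≤ n → n ≤ l + 3 → 1 ≤ sq c n) :
    sq c (l + 1) / (sq c (l + 2) + 1) = (sq c (l + 2) - 1) / sq c (l + 3) := by
  have e2 := hs (l + 3) (by omega) le_rfl
  have e4 := hs (l + 2) (by omega) (by omega)
  have e6 := cheb_id (b := c) (sq_zero c) (sq_one c) (sq_rec c) (l + 1)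
  have e7 : sq c (l + 1 + 2) = sq c (l + 3) := rfl
  have e8 : sq c (l + 1 + 1) = sq c (l + 2) := rfl
  rw [e7, e8] at e6
  rw [div_eq_div_iff (by linarith only [e4]) (by linarith only [e2])]
  linarith only [e6]

/-- the real inequalities behind NG0 -/
theorem ng0_num {b1 b2 bO : ℝ} {R : ℝ → ℝ → ℝ → Prop} (h : RT b1 b2 bO R) {o o' o'' g x1 x2 f1 f2 r1 r2 : ℝ}
    (hR : R 0 o o') (ho : 1 ≤ o) (ho' : Z1 o') (hoo : o'' = 2 * bO * o - o') (ho'' : 1 ≤ o'') (hx : R g x1 x2)
    (hx' : R g (x1 + (2 * (b1 * o + b2 * o') * g - 2 * (o - bO * o') * x1 - 2 * (o' - bO * o) * x2) * o)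
      (x2 + (2 * (b1 * o + b2 * o') * g - 2 * (o - bO * o') * x1 - 2 * (o' - bO * o) * x2) * o'))
    (p1 : 1 ≤ x1) (hu : o * x1 < o'' * x2) (fa : o * f1 + o' * f2 = 0) (fx : g + x1 * f1 + x2 * f2 = 0)
    (hf2 : f2 < 0) (S2 : Str b2 f2 r2) (hz2 : ∀ n, 0 < sq b2 (n + 1) → sq b2 (n + 1) * f2 + sq b2 n ≠ 0)
    (Sn : b2 = 0 → Str b1 (f1 + 2 * bO * f2) (r1 + 2 * bO * r2)) (hne : g = 1 → b2 = 0 → x2 ≠ 2 * bO * x1)
    (ra : 0 ≤ o * r1 + o' * r2) (sum : g + x1 * r1 + x2 * r2 + (o * r1 + o' * r2) ≤ 1) : False := by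
  have hnO := h.n _ _ _ hR
  have ho0 : 0 < o := by linarith only [ho]
  have ho'0 : 0 ≤ o' := by rcases ho' with h1 | h1 <;> linarith only [h1]
  have hb1n := h.b1n
  have hb2n := h.b2n
  obtain ⟨η, hη⟩ : ∃ η, η = x1 / o := ⟨_, rfl⟩
  obtain ⟨ζ, hζd⟩ : ∃ ζ, ζ = x2 - o' * η := ⟨_, rfl⟩
  have hx1 : x1 = o * η := by
    rw [hη]
    field_simp
  have hx2 : x2 = ζ + o' * η := by linarith only [hζd]
  have hη0 : 0 < η := by
    rw [hη]
    positivity
  have hprod : o' * o'' = o ^ 2 - 1 := by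
    rw [hoo]
    linear_combination -hnO
  have hηζ : η < o'' * ζ := by
    rw [hx1, hx2] at hu
    nlinarith only [hu, hη0, hprod]
  have hζ : 0 < ζ := by
    by_contra hcon
    have := mul_nonpos_of_nonneg_of_nonpos (by linarith only [ho''] : 0 ≤ o'') (not_lt.1 hcon)
    linarith only [hη0, hηζ, this]
  have hg : g = -f2 * ζ := by
    rw [hx1, hx2] at fx
    linear_combination fx - η * fa
  have hg0 : 0 < g := by
    rw [hg]
    exact mul_pos (by linarith only [hf2]) hζ
  have hg1 := (h.z0 hx hg0).1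
  obtain ⟨A, hA⟩ : ∃ A, A = o * r1 + o' * r2 := ⟨_, rfl⟩
  rw [← hA] at ra sum
  have hsum : g + η * A + ζ * r2 + A ≤ 1 := by
    have : g + x1 * r1 + x2 * r2 = g + η * A + ζ * r2 := by
      rw [hA, hx1, hx2]
      ring
    linarith only [sum, this]
  have hηA := mul_nonneg hη0.le ra
  obtain ⟨η', hη'⟩ : ∃ η', η' = 2 * b1 * o * g + o' * (2 * b2 * g - ζ) + o'' * ζ - η := ⟨_, rfl⟩
  have hS : η + η' = 2 * b1 * o * g + o' * (2 * b2 * g - ζ) + o'' * ζ := by linarith only [hη']
  have hT : 2 * (b1 * o + b2 * o') * g - 2 * (o - bO * o') * x1 - 2 * (o' - bO * o) * x2 = η' - η := by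
    rw [hη', hx1, hx2, hoo]
    linear_combination (-2 * η) * hnO
  rw [hT, hx1, hx2] at hx'
  have q1 : o * η + (η' - η) * o = o * η' := by ring
  have q2 : ζ + o' * η + (η' - η) * o' = ζ + o' * η' := by ring
  rw [q1, q2] at hx'
  have hxx := hx
  rw [hx1, hx2] at hxx
  have hN := Sa_hN h hR hoo hxx hS
  -- the case `o' = 0`
  have o1 : o' = 0 → o = 1 ∧ ζ = x2 := by
    intro h0
    rw [h0] at hnO
    refine ⟨by nlinarith only [hnO, ho0], ?_⟩
    rw [hx2, h0]
    ring
  rcases vcase S2 hb2n hf2 h.pge h.pnn hz2 with c1 | ⟨c1, c2⟩ | ⟨m, c1, c2, c3⟩ | ⟨m, c1, c2, c3, c4, c5⟩ | ⟨c1, c2⟩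
  · have := mul_pos hζ c1
    linarith only [hg1, ra, hsum, hηA, this]
  · -- `b2 = 0`
    have e1 := mul_nonneg hζ.le c2
    have e2 : g = 1 := by linarith only [hg1, ra, hsum, hηA, e1]
    have e3 : A = 0 := by linarith only [hg1, ra, hsum, hηA, e1]
    have e4 : ζ * r2 = 0 := by linarith only [ra, hsum, hηA, e1, e2]
    have e5 : r2 = 0 := by
      rcases mul_eq_zero.1 e4 with h1 | h1
      · linarith only [hζ, h1]
      · exact h1
    have e6 : r1 = 0 := by
      rw [hA, e5] at e3
      have : o * r1 = 0 := by linarith only [e3]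
      rcases mul_eq_zero.1 this with h1 | h1
      · linarith only [ho0, h1]
      · exact h1
    have e7 := hne e2 c1
    -- the coefficient of `r_{d2} x`
    have e8 := h.r2 _ _ _ hx
    have e9 := (h.z1 e8 (by linarith only [p1])).2.2
    have e10 : 2 * b2 * g + 2 * bO * x1 - x2 = o'' * η - ζ := by
      rw [c1, hx1, hx2, hoo]
      ring
    rw [e10] at e9
    have e11 : 0 < o'' * η - ζ := by
      rcases e9 with h1 | h1
      · exfalso
        apply e7
        rw [h1, c1] at e10
        linarith only [e10]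
      · linarith
    -- `b1 > 0`
    have hb1 : 0 < b1 := by
      rcases hb1n.lt_or_eq with h1 | h1
      · exact h1
      · exfalso
        have h2 := h.r0 _ _ _ hx
        have h3 := (h.z1 h2 (by linarith only [p1])).1
        rw [← h1, c1, e2] at h3
        rcases h3 with h3 | h3 <;> linarith only [h3]
    have hs := Sn c1
    rw [e6, e5] at hs
    have hs0 : (0 : ℝ) + 2 * bO * 0 = 0 := by ring
    rw [hs0] at hs
    -- the value of `φ` at `n`
    rw [e2] at hg
    have k1 : o * (f1 + 2 * bO * f2) = o'' * f2 := by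
      rw [hoo]
      linear_combination fa
    have k2 : o * ζ * (f1 + 2 * bO * f2) = -o'' := by
      have : o * ζ * (f1 + 2 * bO * f2) = ζ * (o * (f1 + 2 * bO * f2)) := by ring
      rw [this, k1]
      linear_combination o'' * hg
    have k3 : f1 + 2 * bO * f2 < 0 := by
      by_contra hcon
      have := mul_nonneg (mul_pos ho0 hζ).le (not_lt.1 hcon)
      linarith only [ho'', k2, this]
    have k4 : 2 * b1 * o'' < o * ζ := by
      have m1 : (o'' * η - ζ) * (η - o'' * ζ) < 0 := mul_neg_of_pos_of_neg e11 (by linarith only [hηζ])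
      have m2 : η * η' = ζ ^ 2 := by
        rw [hN, e2, c1]
        ring
      have m3 : η + η' = 2 * b1 * o - o' * ζ + o'' * ζ := by
        rw [hS, e2, c1]
        ring
      have m4 : o * η * (2 * b1 * o'') < o * η * (o * ζ) := by
        have m5 : o * η * (2 * b1 * o'') = o'' * η * (2 * b1 * o) := by ring
        have m6 : 2 * b1 * o = η + η' + o' * ζ - o'' * ζ := by linarith only [m3]
        have m7 : o'' * η * (η + η' + o' * ζ - o'' * ζ) =
          o'' * η ^ 2 + o'' * ζ ^ 2 + (o ^ 2 - 1) * (η * ζ) - o'' ^ 2 * (η * ζ) := by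
          linear_combination o'' * m2 + (η * ζ) * hprod
        rw [m5, m6, m7]
        nlinarith only [m1]
      exact lt_of_mul_lt_mul_left m4 (by positivity)
    have hq2 : sq b1 (1 + 1) = 2 * b1 := by
      have : sq b1 (1 + 1) = 2 * b1 * 1 - 0 := rfl
      rw [this]
      ring
    have hq1 : sq b1 1 = 1 := rfl
    have hnk := hs.nk k3 1 (by
      intro i hi
      rcases Nat.le_one_iff_eq_zero_or_eq_one.1 hi with h1 | h1
      · rw [h1]
        have : sq b1 (0 + 1) = 1 := rfl
        rw [this]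
        norm_num
      · rw [h1, hq2]
        linarith only [hb1]) (by
      intro i hi
      have : i = 0 := by omega
      rw [this]
      have : sq b1 (0 + 1) = 1 := rfl
      rw [this, sq_zero]
      linarith only [k3]) (by
      rw [hq2, hq1]
      have n1 : 0 < o * ζ := mul_pos ho0 hζ
      have n2 : 0 < o * ζ * (2 * b1 * (f1 + 2 * bO * f2) + 1) := by
        have : o * ζ * (2 * b1 * (f1 + 2 * bO * f2) + 1) =
          2 * b1 * (o * ζ * (f1 + 2 * bO * f2)) + o * ζ := by ring
        rw [this, k2]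
        linarith only [k4]
      exact (mul_pos_iff_of_pos_left n1).1 n2)
    rw [hq2, hq1] at hnk
    linarith only [hnk]
  · -- index at least `3`
    have hv : sq b2 (m + 1) * ζ < sq b2 (m + 2) * g := by
      have := mul_lt_mul_of_pos_right c2 hζ
      rw [hg]
      linarith only [this]
    have key : 1 + sq b2 (m + 1) / (sq b2 (m + 2) + 1) * ζ ≤ g := by
      rcases ho' with h0 | h0
      · obtain ⟨h1, h2⟩ := o1 h0
        rw [h2] at hv ⊢
        rw [tau_eq c1]
        refine LA_one h (sq_zero b2) (sq_one b2) (sq_rec b2) (k := m + 1) (by omega) (fun n h1 h2 => c1 n h1 h2) hx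
          (by rw [← h2]; exact hζ.le) ?_
        have h3 := c1 (m + 2) (by omega) (by omega)
        have e1 : sq b2 (m + 1 + 1) = sq b2 (m + 2) := rfl
        rw [e1]
        have : sq b2 (m + 1) / sq b2 (m + 2) * x2 = sq b2 (m + 1) * x2 / sq b2 (m + 2) := by ring
        rw [this, div_lt_iff₀ (by linarith only [h3])]
        linarith only [hv]
      · exact Sa_pair h c1 hR ho h0 hoo (by linarith only [ho'']) hxx hx' hS hζ.le hv
    have := mul_lt_mul_of_pos_left c3 hζ
    linarith only [ra, hsum, hηA, key, this]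
  · -- beyond, finite order
    have hv : sq b2 (m + 1) * ζ < g := by
      rw [c3, hg]
      exact mul_lt_mul_of_pos_right c4 hζ
    have key : 1 + sq b2 (m + 1) / 2 * ζ < g := by
      rcases ho' with h0 | h0
      · obtain ⟨h1, h2⟩ := o1 h0
        rw [h2] at hv ⊢
        rw [h0, h1] at hoo
        exact Sa_fin1 h c1 c2 (by linarith only [hoo, ho'']) hx p1 (by rw [← h2]; exact hζ) c3 hv
      · exact Sa_fin h c1 c2 hR ho h0 hoo ho'' hxx hx' hS hζ hv
    rw [c3] at key
    have := mul_le_mul_of_nonneg_left c5 hζ.le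
    linarith only [ra, hsum, hηA, key, this]
  · -- infinite order
    obtain ⟨y, hy⟩ : ∃ y, y = Real.sqrt (b2 ^ 2 - 1) := ⟨_, rfl⟩
    have hy0 : 0 ≤ y := by rw [hy]; exact Real.sqrt_nonneg _
    have hy2 : y ^ 2 = b2 ^ 2 - 1 := by
      rw [hy]
      exact Real.sq_sqrt (by nlinarith only [c1])
    obtain ⟨ω, hω⟩ : ∃ ω, ω = b2 - y := ⟨_, rfl⟩
    have w1 : ω ^ 2 - 2 * b2 * ω + 1 = 0 := by
      rw [hω]
      linear_combination hy2
    have w2 : 0 < ω := by
      rw [hω]
      nlinarith only [c1, hy2]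
    have w3 : ω ≤ 1 := by
      rw [hω]
      nlinarith only [hy0, hy2]
    have w4 := om_lim c1 w1 w2 w3 c2
    have w5 := ult_low S2 c1 w1 w2 w3
    have w6 : 0 ≤ g - ω * ζ := by
      rw [hg]
      have := mul_le_mul_of_nonneg_right w4 hζ.le
      linarith only [this]
    have w7 : (g - ω * ζ) * (ω * g - ζ) = ω * (1 + η * η') := by
      rw [hN]
      linear_combination (-(g * ζ)) * w1
    have w8 : 0 ≤ 2 * b2 * g - ζ := by
      have e1 : 2 * b2 * (ω * ζ) ≤ 2 * b2 * g := mul_le_mul_of_nonneg_left (by linarith only [w6]) (by linarith only [c1])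
      have e2 : 2 * b2 * (ω * ζ) = ω ^ 2 * ζ + ζ := by linear_combination (-ζ) * w1
      have e3 : 0 ≤ ω ^ 2 * ζ := by positivity
      linarith only [e1, e2, e3]
    have w9 : 0 < η' := by
      rw [hη']
      have e1 := mul_nonneg ho'0 w8
      have e2 : 0 ≤ 2 * b1 * o * g := by positivity
      linarith only [hηζ, e1, e2]
    have w10 : ω < (g - ω * ζ) * (ω * g - ζ) := by
      rw [w7]
      have := mul_pos w2 (mul_pos hη0 w9)
      linarith only [this]
    have w11 : (g - ω * ζ) * (ω * g - ζ) ≤ (g - ω * ζ) * (ω * (g - ω * ζ)) := by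
      apply mul_le_mul_of_nonneg_left _ w6
      have : 0 ≤ (1 - ω ^ 2) * ζ := mul_nonneg (by nlinarith only [w2, w3]) hζ.le
      linarith only [this]
    have w12 : 1 < g - ω * ζ := by
      by_contra hcon
      have e1 : (g - ω * ζ) * (g - ω * ζ) ≤ 1 * 1 :=
        mul_le_mul (not_lt.1 hcon) (not_lt.1 hcon) w6 zero_le_one
      have e2 := mul_le_mul_of_nonneg_left e1 w2.le
      linarith only [w10, w11, e2]
    have w13 := mul_le_mul_of_nonneg_left w5 hζ.le
    linarith only [ra, hsum, hηA, w12, w13]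

/-- **NG0** -/
theorem ng0 : _root_.DY.NG0Stat Ψ B := by
  intro ρ φ t d1 d2 x x' g x1 x2 al1 al2 be1 be2 X O hbe hu
  have hT := X.L.tri
  have hRT := rt_of_tri hT
  have hbe2 : be2 = al1 := by
    linear_combination (al1 + B d1 d2 * al2) * O.det + al2 * O.adj - be2 * O.ra.nrm
  have hbe1 : be1 = 2 * (-B d1 d2) * al1 - al2 := by
    linear_combination (-(al2 + B d1 d2 * al1)) * O.det + al1 * O.adj - be1 * O.ra.nrm
  have hx : g • t + x1 • d1 + x2 • d2 ∈ Ψ := by
    rw [← X.e]
    exact X.L.xm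
  have ha : (0 : ℝ) • t + al1 • d1 + al2 • d2 ∈ Ψ := by
    rw [← X.e']
    exact X.L.xm'
  have ha' : al1 • d1 + al2 • d2 ∈ Ψ := O.ra.mem
  have hfx : g + x1 * φ d1 + x2 * φ d2 = 0 := by
    have := X.L.val_φ g x1 x2
    rw [← X.e, X.L.fx] at this
    linarith only [this]
  have hfa : al1 * φ d1 + al2 * φ d2 = 0 := by
    have := X.L.val_φ 0 al1 al2
    rw [← X.e', X.L.fx'] at this
    linarith only [this]
  have hg0 : 0 ≤ g := by rcases X.c.zg with h1 | h1 <;> linarith only [h1]
  have hh2 : 0 ≤ be2 := by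
    rw [hbe2]
    linarith only [X.p1']
  have ho1 := X.p1'
  -- strictness of `hu`
  have hu' : al1 * x1 < be1 * x2 := by
    rw [hbe2] at hu
    rcases (by linarith only [hu] : al1 * x1 ≤ be1 * x2).lt_or_eq with h1 | h1
    · exact h1
    · exfalso
      have hμ : 0 < x2 / al1 := by
        have := X.p2
        positivity
      have hg1 : 0 < g := by
        have e1 : al1 * g + x1 * (al1 * φ d1) + al1 * (x2 * φ d2) = 0 := by linear_combination al1 * hfx
        have e2 : x1 * (al1 * φ d1) = -(x1 * (al2 * φ d2)) := by linear_combination x1 * hfa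
        have e3 : al1 * x2 - x1 * al2 ≥ 0 → 0 < al1 * x2 - x1 * al2 → 0 < g := by
          intro _ h3
          have : al1 * g = (al1 * x2 - x1 * al2) * (-φ d2) := by linarith only [e1, e2]
          have h4 := mul_pos h3 (by linarith only [X.h2] : 0 < -φ d2)
          rw [← this] at h4
          exact (mul_pos_iff_of_pos_left (by linarith only [ho1])).1 h4
        have e4 : 0 < al1 * x2 - x1 * al2 := by
          have := X.st
          linarith only [this]
        exact e3 e4.le e4
      have e1 : be1 • d1 + be2 • d2 = (al1 / x2) • x + (-(g * (al1 / x2))) • t := by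
        rw [X.e, hbe2]
        have hx2 : x2 ≠ 0 := by linarith only [X.p2]
        have h2 : be1 = al1 * x1 / x2 := by
          field_simp
          linarith only [h1]
        rw [h2]
        match_scalars <;> field_simp <;> ring
      have hq : 0 < al1 / x2 := by
        have := X.p2
        positivity
      exact canon_neg X.L.cxt O.rh.mem e1 hq (by
        have := mul_pos hg1 hq
        linarith only [this])
  have hx' := refl_O hT ha' hx
  have C1 : ∀ α β γ : ℝ, Z1 α → Z1 β → Z1 γ → α • t + β • d1 + γ • d2 ∈ C01 t d1 d2 :=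
    fun α β γ h1 h2 h3 => ⟨α, β, γ, rfl, h1, h2, h3⟩
  have S2 : Str (-B t d2) (φ d2) (ρ d2) := by
    refine X.L.str d2 hT.hc ⟨0, 0, 1, by module, Or.inl rfl, Or.inl rfl, Or.inr le_rfl⟩ ?_
    intro h
    have := (hT.indep 1 0 (-1) (by rw [h]; module)).1
    exact one_ne_zero this
  refine ng0_num (r1 := ρ d1) hRT ha ho1 O.ra.z2 hbe1 hbe hx hx' X.p1 hu' hfa hfx X.h2 S2 ?_ ?_ ?_ ?_ ?_
  · -- no line of the vertex
    intro n hn h0
    have hm := (hRT.pencil n).1
    obtain ⟨u, hue⟩ : ∃ u : E, u = sq (-B t d2) n • t + (0 : ℝ) • d1 + sq (-B t d2) (n + 1) • d2 := ⟨_, rfl⟩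
    have hum : u ∈ Ψ := by
      rw [hue]
      exact hm
    have hfu : φ u = 0 := by
      rw [hue, X.L.val_φ]
      linarith only [h0]
    obtain ⟨α, β, e⟩ := X.L.sp u hum
    rw [hfu, zero_smul, add_zero] at e
    have hd1 : α * x1 + β * al1 = 0 := by
      have e2 : (α * g + β * 0 - sq (-B t d2) n) • t + (α * x1 + β * al1) • d1 +
          (α * x2 + β * al2 - sq (-B t d2) (n + 1)) • d2 = 0 := by
        have e3 : (α * g + β * 0 - sq (-B t d2) n) • t + (α * x1 + β * al1) • d1 +
          (α * x2 + β * al2 - sq (-B t d2) (n + 1)) • d2 =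
          (α • (g • t + x1 • d1 + x2 • d2) + β • ((0 : ℝ) • t + al1 • d1 + al2 • d2)) -
          (sq (-B t d2) n • t + (0 : ℝ) • d1 + sq (-B t d2) (n + 1) • d2) := by module
        rw [e3, ← X.e, ← X.e', ← e, ← hue, sub_self]
      exact (hT.indep _ _ _ e2).2.1
    have p1 := X.p1
    rcases X.L.cxx u hum _ _ e with (⟨h6, h7⟩ | ⟨h6, h7⟩ | ⟨h6, h7⟩) | (⟨h6, h7⟩ | ⟨h6, h7⟩ | ⟨h6, h7⟩)
    · rw [h6, h7] at hd1
      linarith only [ho1, hd1]
    · rw [h6, h7] at hd1
      linarith only [hd1, p1]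
    · have := mul_pos (by linarith only [h6] : 0 < α) (by linarith only [p1] : 0 < x1)
      have := mul_pos (by linarith only [h7] : 0 < β) (by linarith only [ho1] : 0 < al1)
      linarith
    · have h8 : α = 0 := by linarith only [h6]
      have h9 : β = -1 := by linarith only [h7]
      rw [h8, h9] at hd1
      linarith only [ho1, hd1]
    · have h8 : α = -1 := by linarith only [h6]
      have h9 : β = 0 := by linarith only [h7]
      rw [h8, h9] at hd1
      linarith only [hd1, p1]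
    · have := mul_pos (by linarith only [h6] : 0 < -α) (by linarith only [p1] : 0 < x1)
      have := mul_pos (by linarith only [h7] : 0 < -β) (by linarith only [ho1] : 0 < al1)
      linarith
  · -- the root `n = d1 + 2 bO d2`
    intro hb2
    have hn := hRT.r2 _ _ _ hRT.e1
    obtain ⟨n, hne⟩ : ∃ n : E, n = (0 : ℝ) • t + (1 : ℝ) • d1 + (2 * (-B t d2) * 0 + 2 * (-B d1 d2) * 1 - 0) • d2 :=
      ⟨_, rfl⟩
    have hnm : n ∈ Ψ := by
      rw [hne]
      exact hn
    have hn1 : n ≠ t := by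
      intro h
      have := (hT.indep (-1) 1 (2 * (-B t d2) * 0 + 2 * (-B d1 d2) * 1 - 0) (by
        have e1 : (-1 : ℝ) • t + (1 : ℝ) • d1 + (2 * (-B t d2) * 0 + 2 * (-B d1 d2) * 1 - 0) • d2 =
          ((0 : ℝ) • t + (1 : ℝ) • d1 + (2 * (-B t d2) * 0 + 2 * (-B d1 d2) * 1 - 0) • d2) - t := by module
        rw [e1, ← hne, h, sub_self])).2.1
      exact one_ne_zero this
    have hnc : n ∈ C01 t d1 d2 := by
      rw [hne]
      refine C1 _ _ _ (Or.inl rfl) (Or.inr le_rfl) ?_
      have := hRT.bOz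
      have e1 : 2 * (-B t d2) * 0 + 2 * (-B d1 d2) * 1 - 0 = 2 * (-B d1 d2) := by ring
      rw [e1]
      exact this
    have := X.L.str n hnm hnc hn1
    have e1 : -B t n = -B t d1 := by
      rw [hne]
      simp only [map_add, map_smul, smul_eq_mul]
      linear_combination (2 * (-B d1 d2)) * hb2
    have e2 : φ n = φ d1 + 2 * (-B d1 d2) * φ d2 := by
      rw [hne, X.L.val_φ]
      ring
    have e3 : ρ n = ρ d1 + 2 * (-B d1 d2) * ρ d2 := by
      rw [hne, X.L.val_ρ]
      ring
    rw [e1, e2, e3] at this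
    exact this
  · -- `x ≠ t + x1 n`
    intro hg hb2 h0
    have hn := hRT.r2 _ _ _ hRT.e1
    obtain ⟨n, hne⟩ : ∃ n : E, n = (0 : ℝ) • t + (1 : ℝ) • d1 + (2 * (-B t d2) * 0 + 2 * (-B d1 d2) * 1 - 0) • d2 :=
      ⟨_, rfl⟩
    have hnm : n ∈ Ψ := by
      rw [hne]
      exact hn
    have p1 := X.p1
    have e1 : n = (1 / x1) • x + (-(1 / x1)) • t := by
      rw [X.e, hg, h0, hne]
      match_scalars <;> field_simp <;> ring
    exact canon_neg X.L.cxt hnm e1 (by positivity) (by
      have : 0 < 1 / x1 := by positivity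
      linarith only [this])
  · have := X.L.rx'
    rw [X.rx'] at this
    linarith only [this]
  · have := X.L.sum
    rw [X.rx, X.rx'] at this
    linarith only [this]

end ng0

end Pool.Agent.Helper62.DY
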