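import Pool.Agent.Helper62.DY.LemA4

/-!
# Case I of the foot chamber route (MP_d13a5e_al): `φ d1 < 0` and `φ d2 < 0`
-/

set_option autoImplicit false

namespace Pool.Agent.Helper62.DY

open _root_.DY (Z1 C01 Tri rf sq Str Loc)

section pencil

variable {c f r : ℝ}

theorem sq_zero (c : ℝ) : sq c 0 = 0 := rfl

theorem sq_one (c : ℝ) : sq c 1 = 1 := rfl

theorem sq_rec (c : ℝ) (k : ℕ) : sq c (k + 2) = 2 * c * sq c (k + 1) - sq c k := rfl

theorem sq_quad (c : ℝ) (n : ℕ) : sq c n ^ 2 + sq c (n + 1) ^ 2 - 2 * c * sq c n * sq c (n + 1) = 1 := by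
  induction n with
  | zero =>
    rw [sq_zero, sq_one]
    ring
  | succ n ih =>
    rw [sq_rec c n]
    linear_combination ih

/-- for `c ≥ 1` the sequence grows -/
theorem sq_grow (hc : 1 ≤ c) (n : ℕ) : (n : ℝ) ≤ sq c n ∧ sq c n + 1 ≤ sq c (n + 1) := by
  induction n with
  | zero =>
    rw [sq_zero, sq_one]
    norm_num
  | succ n ih =>
    have h0 : 0 ≤ sq c n := le_trans (Nat.cast_nonneg n) ih.1
    refine ⟨?_, ?_⟩
    · push_cast
      linarith only [ih.1, ih.2]
    · rw [sq_rec c n]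
      nlinarith only [mul_nonneg (by linarith only [hc] : 0 ≤ c - 1) (by linarith only [h0, ih.2] : 0 ≤ sq c (n + 1)), ih.2]

/-- if all values are at least one then `c ≥ 1` -/
theorem one_le_of_all (hc : 0 ≤ c) (h : ∀ n, 1 ≤ sq c (n + 1)) : 1 ≤ c := by
  by_contra hcon
  have hc1 := not_le.1 hcon
  have hd : 0 < 1 - c ^ 2 := by nlinarith only [hc, hc1]
  obtain ⟨K, hK⟩ : ∃ K, K = 1 / (1 - c ^ 2) := ⟨_, rfl⟩
  have hK1 : K * (1 - c ^ 2) = 1 := by rw [hK]; field_simp
  have hb : ∀ n, sq c (n + 1) ≤ K := by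
    intro n
    have e1 := sq_quad c n
    have e2 : (1 - c ^ 2) * sq c (n + 1) ^ 2 ≤ 1 := by nlinarith only [e1, sq_nonneg (sq c n - c * sq c (n + 1))]
    have e3 : sq c (n + 1) ≤ sq c (n + 1) ^ 2 := by nlinarith only [h n]
    have e4 : (1 - c ^ 2) * sq c (n + 1) ≤ (1 - c ^ 2) * K := by
      have := mul_le_mul_of_nonneg_left e3 hd.le
      linarith only [hK1, e2, this]
    exact le_of_mul_le_mul_left e4 hd
  have hA : ∀ n : ℕ, sq c (n + 1) - sq c n ≤ 1 - n * (2 - 2 * c) := by
    intro n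
    induction n with
    | zero =>
      rw [sq_zero, sq_one]
      norm_num
    | succ n ih =>
      rw [sq_rec c n]
      push_cast
      nlinarith only [ih, mul_le_mul_of_nonneg_left (h n) (by linarith only [hc1] : 0 ≤ 2 - 2 * c)]
  obtain ⟨N, hN⟩ := exists_nat_gt ((K + 1) / (2 - 2 * c))
  rw [div_lt_iff₀ (by linarith only [hc1])] at hN
  rcases Nat.eq_zero_or_pos N with h0 | h0
  · rw [h0] at hN
    have := hb 0
    have := h 0
    norm_num at hN
    linarith
  · obtain ⟨M, rfl⟩ : ∃ M, N = M + 1 := ⟨N - 1, by omega⟩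
    have e1 := hA (M + 1)
    have e2 := hb M
    have e3 := h (M + 1)
    linarith only [hN, e1, e2, e3]

/-- the information of a vertex -/
theorem vinfo (hS : Str c f r) (hc : 0 ≤ c) (hf : f < 0) (h1 : ∀ n, 0 < sq c (n + 1) → 1 ≤ sq c (n + 1))
    (h2 : ∀ n, 0 < sq c (n + 1) → 0 ≤ sq c (n + 2)) :
    0 ≤ r ∨ (1 ≤ 2 * c ∧ 2 * c ≤ -f ∧ -c ≤ r) ∨
      (∀ ε : ℝ, 0 < ε → ∃ k, 1 ≤ k ∧ (∀ n, 1 ≤ n → n ≤ k + 2 → 1 ≤ sq c n) ∧ sq c k / sq c (k + 1) ≤ -f ∧
        -((sq c (k + 1) - 1) / sq c (k + 2)) - ε ≤ r) := by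
  classical
  have pos1 : ∀ k, (∀ i ≤ k, 0 < sq c (i + 1)) → ∀ n, 1 ≤ n → n ≤ k + 1 → 1 ≤ sq c n := by
    intro k hk n hn1 hn2
    obtain ⟨m, rfl⟩ : ∃ m, n = m + 1 := ⟨n - 1, by omega⟩
    exact h1 m (hk m (by omega))
  by_cases hP : ∃ k, (∀ i ≤ k, 0 < sq c (i + 1)) ∧ 0 < sq c (k + 1) * f + sq c k
  · obtain ⟨hk1, hk2⟩ := Nat.find_spec hP
    have hmin : ∀ i < Nat.find hP, sq c (i + 1) * f + sq c i ≤ 0 := by
      intro i hi
      by_contra hcon
      exact Nat.find_min hP hi ⟨fun j hj => hk1 j (by omega), not_le.1 hcon⟩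
    have hnk := hS.nk hf _ hk1 hmin hk2
    generalize Nat.find hP = K at hk1 hk2 hmin hnk
    rcases Nat.eq_zero_or_pos K with hK | hK
    · exfalso
      subst hK
      rw [sq_zero] at hk2
      have : sq c (0 + 1) = 1 := rfl
      rw [this] at hk2
      linarith only [hf, hk2]
    · obtain ⟨m, rfl⟩ : ∃ m, K = m + 1 := ⟨K - 1, by omega⟩
      rcases Nat.eq_zero_or_pos m with hm | hm
      · left
        subst hm
        have e1 : sq c (0 + 1) = 1 := rfl
        rw [e1] at hnk
        have e2 := hk1 (0 + 1) le_rfl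
        have e3 : 0 < sq c (0 + 1 + 1) * r := by linarith only [hnk]
        by_contra hcon
        have := mul_nonpos_of_nonneg_of_nonpos e2.le (not_le.1 hcon).le
        linarith only [e3, this]
      · right
        right
        intro ε hε
        refine ⟨m, hm, pos1 (m + 1) hk1, ?_, ?_⟩
        · have e1 := hmin m (by omega)
          have e2 := hk1 m (by omega)
          rw [div_le_iff₀ e2]
          linarith only [e1]
        · have e2 := hk1 (m + 1) le_rfl
          have e3 : -((sq c (m + 1) - 1) / sq c (m + 1 + 1)) ≤ r := by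
            have e4 : -r ≤ (sq c (m + 1) - 1) / sq c (m + 1 + 1) := by
              rw [le_div_iff₀ e2]
              linarith only [hnk]
            linarith only [e4]
          have e5 : sq c (m + 2) = sq c (m + 1 + 1) := rfl
          rw [e5]
          linarith only [hε, e3]
  · have hP' : ∀ k, (∀ i ≤ k, 0 < sq c (i + 1)) → sq c (k + 1) * f + sq c k ≤ 0 := by
      intro k hk
      by_contra hcon
      exact hP ⟨k, hk, not_le.1 hcon⟩
    by_cases hQ : ∀ i, 0 < sq c (i + 1)
    · right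
      right
      have hall : ∀ n, 1 ≤ sq c (n + 1) := fun n => h1 n (hQ n)
      have hc1 := one_le_of_all hc hall
      intro ε hε
      obtain ⟨N, hN⟩ := exists_nat_gt (2 / ε)
      refine ⟨N + 1, by omega, ?_, ?_, ?_⟩
      · intro n hn1 _
        obtain ⟨m, rfl⟩ : ∃ m, n = m + 1 := ⟨n - 1, by omega⟩
        exact hall m
      · have e1 := hP' (N + 1) (fun i _ => hQ i)
        rw [div_le_iff₀ (hQ (N + 1))]
        linarith only [e1]
      · have e1 := hS.low (N + 2) (fun i _ => hQ i)
        have e2 := hQ (N + 2)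
        have e3 := (sq_grow hc1 (N + 2 + 1)).1
        have e4 : 2 / ε < sq c (N + 2 + 1) := by
          push_cast at e3
          linarith only [hN, e3]
        rw [div_lt_iff₀ hε] at e4
        have e5 : sq c (N + 1 + 2) = sq c (N + 2 + 1) := rfl
        have e6 : sq c (N + 1 + 1) = sq c (N + 2) := rfl
        rw [e5, e6]
        have e7 : -r ≤ (sq c (N + 2) - 1) / sq c (N + 2 + 1) + ε := by
          have e8 : (sq c (N + 2) - 1) / sq c (N + 2 + 1) + ε =
            (sq c (N + 2) - 1 + sq c (N + 2 + 1) * ε) / sq c (N + 2 + 1) := by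
            field_simp
          rw [e8, le_div_iff₀ e2]
          linarith only [e1, e4]
        linarith only [e7]
    · -- finite order
      have hQ' : ∃ i, sq c (i + 1) ≤ 0 := by
        by_contra hcon
        apply hQ
        intro i
        by_contra h3
        exact hcon ⟨i, not_lt.1 h3⟩
      have hM := Nat.find_spec hQ'
      have hmin : ∀ i < Nat.find hQ', 0 < sq c (i + 1) := by
        intro i hi
        exact not_le.1 (Nat.find_min hQ' hi)
      generalize Nat.find hQ' = K at hM hmin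
      rcases Nat.eq_zero_or_pos K with hK | hK
      · exfalso
        subst hK
        have : sq c (0 + 1) = 1 := rfl
        rw [this] at hM
        linarith only [hM]
      · obtain ⟨M, rfl⟩ : ∃ M, K = M + 1 := ⟨K - 1, by omega⟩
        have e1 := hmin M (by omega)
        have e2 := h2 M e1
        have e3 : sq c (M + 2) = 0 := le_antisymm hM e2
        have e4 := cheb_id (b := c) (sq_zero c) (sq_one c) (sq_rec c) M
        have e5 : sq c (M + 1) = 1 := by
          rw [e3, zero_mul] at e4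
          nlinarith only [e4, h1 M e1]
        have e6 : sq c M = 2 * c := by
          have := sq_rec c M
          rw [e3, e5] at this
          linarith only [this]
        have e7 := hP' M (fun i hi => hmin i (by omega))
        rw [e5, e6] at e7
        rcases hc.eq_or_lt with h3 | h3
        · left
          have := hS.foot
          linarith only [h3, this]
        · right
          left
          refine ⟨?_, by linarith only [e7], hS.foot⟩
          have h4 : 0 < sq c (1 + 1) := by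
            have : sq c (1 + 1) = 2 * c * 1 - 0 := rfl
            rw [this]
            linarith only [h3]
          have h5 := h1 1 h4
          have : sq c (1 + 1) = 2 * c * 1 - 0 := rfl
          rw [this] at h5
          linarith only [h5]

end pencil

section main

variable {b1 b2 bO : ℝ} {R : ℝ → ℝ → ℝ → Prop}

/-- the roots of the vertex `t ∩ d2` -/
theorem RT.pencil (h : RT b1 b2 bO R) (n : ℕ) : R (sq b2 n) 0 (sq b2 (n + 1)) ∧ R (sq b2 (n + 1)) 0 (sq b2 n) := by
  induction n with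
  | zero => exact ⟨h.e2, h.e0⟩
  | succ n ih =>
    constructor
    · have h1 := h.r2 _ _ _ ih.2
      have e1 : 2 * b2 * sq b2 (n + 1) + 2 * bO * 0 - sq b2 n = sq b2 (n + 1 + 1) := by
        rw [sq_rec]
        ring
      rw [e1] at h1
      exact h1
    · have h1 := h.r0 _ _ _ ih.1
      have e1 : 2 * b1 * 0 + 2 * b2 * sq b2 (n + 1) - sq b2 n = sq b2 (n + 1 + 1) := by
        rw [sq_rec]
        ring
      rw [e1] at h1
      exact h1

theorem RT.pge (h : RT b1 b2 bO R) (n : ℕ) (hn : 0 < sq b2 (n + 1)) : 1 ≤ sq b2 (n + 1) :=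
  (h.z2 (h.pencil n).1 hn).2.2

theorem RT.pnn (h : RT b1 b2 bO R) (n : ℕ) (hn : 0 < sq b2 (n + 1)) : 0 ≤ sq b2 (n + 2) := by
  rcases (h.z0 (h.pencil (n + 1)).1 hn).2.2 with h1 | h1
  · exact h1.ge
  · have : sq b2 (n + 1 + 1) = sq b2 (n + 2) := rfl
    linarith only [h1]

/-- the information of one vertex -/
def VI (c p r : ℝ) : Prop :=
  0 ≤ r ∨ (1 ≤ 2 * c ∧ 2 * c ≤ p ∧ -c ≤ r) ∨
      (∀ ε : ℝ, 0 < ε → ∃ k, 1 ≤ k ∧ (∀ n, 1 ≤ n → n ≤ k + 2 → 1 ≤ sq c n) ∧ sq c k / sq c (k + 1) ≤ p ∧
        -((sq c (k + 1) - 1) / sq c (k + 2)) - ε ≤ r)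

/-- one root has a value larger than `1/2` -/
theorem half_lt (h : RT b1 b2 bO R) {g x1 x2 p1 p2 r1 r2 : ℝ} (hx : R g x1 x2) (hx1 : 1 ≤ x1) (hx2 : 1 ≤ x2)
    (hp1 : 0 < p1) (hp2 : 0 < p2) (hg : g = p1 * x1 + p2 * x2) (hk1 : 0 < p1 + r1) (hk2 : 0 < p2 + r2)
    (hv1 : VI b1 p1 r1) (hv2 : VI b2 p2 r2) : 1 / 2 < g + x1 * r1 + x2 * r2 := by
  have hgpos : 0 < g := by
    rw [hg]
    have := mul_pos hp1 (by linarith only [hx1] : 0 < x1)
    have := mul_pos hp2 (by linarith only [hx2] : 0 < x2)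
    linarith
  have hg1 := (h.z0 hx hgpos).1
  rcases hv2 with hv2 | ⟨c1, c2, c3⟩ | hv2
  · rcases hv1 with hv1 | ⟨c1, c2, c3⟩ | hv1
    · have := mul_nonneg (by linarith only [hx1] : 0 ≤ x1) hv1
      have := mul_nonneg (by linarith only [hx2] : 0 ≤ x2) hv2
      linarith
    · have e1 : g + x1 * r1 + x2 * r2 = (p1 + r1) * x1 + (p2 + r2) * x2 := by
        rw [hg]
        ring
      rw [e1]
      have e2 := mul_pos hk2 (by linarith only [hx2] : 0 < x2)
      have e3 : 1 / 2 * 1 ≤ (p1 + r1) * x1 := mul_le_mul (by linarith only [c1, c2, c3]) hx1 (by norm_num) hk1.le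
      linarith only [e2, e3]
    · obtain ⟨k, hk, hs, hκ, hr⟩ := hv1 (1 / (4 * x1)) (by positivity)
      have e1 := LA_one h.swap (sq_zero b1) (sq_one b1) (sq_rec b1) hk hs (g := g) (x1 := x2) (x2 := x1) hx
        (by linarith only [hx1]) (by
          have e2 := mul_le_mul_of_nonneg_right hκ (by linarith only [hx1] : 0 ≤ x1)
          have e3 := mul_pos hp2 (by linarith only [hx2] : 0 < x2)
          linarith only [hg, e2, e3])
      have e2 := mul_le_mul_of_nonneg_left hr (by linarith only [hx1] : 0 ≤ x1)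
      have e3 : x1 * (1 / (4 * x1)) = 1 / 4 := by field_simp
      have e4 := mul_nonneg (by linarith only [hx2] : 0 ≤ x2) hv2
      nlinarith only [e1, e2, e3, e4]
  · have e1 : g + x1 * r1 + x2 * r2 = (p1 + r1) * x1 + (p2 + r2) * x2 := by
      rw [hg]
      ring
    rw [e1]
    have e2 := mul_pos hk1 (by linarith only [hx1] : 0 < x1)
    have e3 : 1 / 2 * 1 ≤ (p2 + r2) * x2 := mul_le_mul (by linarith only [c1, c2, c3]) hx2 (by norm_num) hk2.le
    linarith only [e2, e3]
  · obtain ⟨l, hl, hs', hκ', hr'⟩ := hv2 (1 / (8 * x2)) (by positivity)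
    have f1 := mul_le_mul_of_nonneg_left hr' (by linarith only [hx2] : 0 ≤ x2)
    have f2 : x2 * (1 / (8 * x2)) = 1 / 8 := by field_simp
    rcases hv1 with hv1 | ⟨c1, c2, c3⟩ | hv1
    · have e1 := LA_one h (sq_zero b2) (sq_one b2) (sq_rec b2) hl hs' hx (by linarith only [hx2]) (by
          have e2 := mul_le_mul_of_nonneg_right hκ' (by linarith only [hx2] : 0 ≤ x2)
          have e3 := mul_pos hp1 (by linarith only [hx1] : 0 < x1)
          linarith only [hg, e2, e3])
      have e4 := mul_nonneg (by linarith only [hx1] : 0 ≤ x1) hv1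
      nlinarith only [f1, f2, e1, e4]
    · have e1 : g + x1 * r1 + x2 * r2 = (p1 + r1) * x1 + (p2 + r2) * x2 := by
        rw [hg]
        ring
      rw [e1]
      have e2 := mul_pos hk2 (by linarith only [hx2] : 0 < x2)
      have e3 : 1 / 2 * 1 ≤ (p1 + r1) * x1 := mul_le_mul (by linarith only [c1, c2, c3]) hx1 (by norm_num) hk1.le
      linarith only [e2, e3]
    · obtain ⟨k, hk, hs, hκ, hr⟩ := hv1 (1 / (8 * x1)) (by positivity)
      have e1 := LA' h (sq_zero b1) (sq_one b1) (sq_rec b1) (sq_zero b2) (sq_one b2) (sq_rec b2) hs hs' hx hx1 hx2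
        hp1 hp2 hg.ge hκ hκ'
      have e2 := mul_le_mul_of_nonneg_left hr (by linarith only [hx1] : 0 ≤ x1)
      have e3 : x1 * (1 / (8 * x1)) = 1 / 8 := by field_simp
      nlinarith only [f1, f2, e1, e2, e3]

end main

section loc

variable {E : Type*} [AddCommGroup E] [Module ℝ E] {Ψ : Set E} {B : E →ₗ[ℝ] E →ₗ[ℝ] ℝ}
  {ρ φ : E →ₗ[ℝ] ℝ} {t d1 d2 x x' : E}

/-- the coordinates of `x` in case I -/
theorem coords (hT : Tri Ψ B t d1 d2) (ft : φ t = 1) {x : E} (fx : φ x = 0) (xm : x ∈ Ψ) (xp : x ∈ C01 t d1 d2)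
    (cxt : _root_.DY.Canon Ψ x t) (h1 : φ d1 < 0) (h2 : φ d2 < 0) :
    ∃ g x1 x2 : ℝ, x = g • t + x1 • d1 + x2 • d2 ∧ 1 ≤ x1 ∧ 1 ≤ x2 ∧ g = -φ d1 * x1 + -φ d2 * x2 := by
  obtain ⟨g, x1, x2, e, zg, z1, z2⟩ := xp
  have hg0 : 0 ≤ g := by rcases zg with h | h <;> linarith only [h]
  have hx10 : 0 ≤ x1 := by rcases z1 with h | h <;> linarith only [h]
  have hx20 : 0 ≤ x2 := by rcases z2 with h | h <;> linarith only [h]
  have hφ : g = -φ d1 * x1 + -φ d2 * x2 := by
    have : φ x = g * φ t + x1 * φ d1 + x2 * φ d2 := by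
      rw [e]
      simp only [map_add, map_smul, smul_eq_mul]
    rw [fx, ft] at this
    linarith only [this]
  have hx0 : x1 = 0 → x2 = 0 → False := by
    intro h3 h4
    rw [h3, h4] at hφ
    have hg : g = 0 := by linarith only [hφ]
    have e0 : x = 0 := by
      rw [e, hg, h3, h4]
      module
    have := hT.one x xm
    rw [e0] at this
    simp at this
  refine ⟨g, x1, x2, e, ?_, ?_, hφ⟩
  · rcases z1 with h | h
    · exfalso
      rcases z2 with h3 | h3
      · exact hx0 h h3
      · have hx2p : 0 < x2 := by linarith only [h3]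
        have e1 : d2 = (1 / x2) • x + (-g / x2) • t := by
          rw [e, h]
          have : (1 / x2) • (g • t + (0 : ℝ) • d1 + x2 • d2) + (-g / x2) • t =
            (g / x2 + -g / x2) • t + (x2 / x2) • d2 := by module
          rw [this, div_self hx2p.ne']
          have : g / x2 + -g / x2 = 0 := by ring
          rw [this]
          module
        have hpos : 0 < 1 / x2 := by positivity
        have hneg : -g / x2 ≤ 0 := div_nonpos_of_nonpos_of_nonneg (by linarith only [hg0]) hx2p.le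
        rcases cxt d2 hT.hc _ _ e1 with (⟨a1, a2⟩ | ⟨a1, a2⟩ | ⟨a1, a2⟩) | (⟨a1, a2⟩ | ⟨a1, a2⟩ | ⟨a1, a2⟩)
        · linarith only [hpos, a1]
        · have hg' : g = 0 := by
            rw [div_eq_zero_iff] at a2
            rcases a2 with a2 | a2
            · linarith only [a2]
            · exact absurd a2 hx2p.ne'
          rw [h, hg'] at hφ
          have := mul_pos (by linarith only [h2] : 0 < -φ d2) hx2p
          linarith only [hφ, this]
        · linarith only [hneg, a2]
        · linarith only [hpos, a1]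
        · linarith only [hpos, a1]
        · linarith only [hpos, a1]
    · exact h
  · rcases z2 with h | h
    · exfalso
      rcases z1 with h3 | h3
      · exact hx0 h3 h
      · have hx1p : 0 < x1 := by linarith only [h3]
        have e1 : d1 = (1 / x1) • x + (-g / x1) • t := by
          rw [e, h]
          have : (1 / x1) • (g • t + x1 • d1 + (0 : ℝ) • d2) + (-g / x1) • t =
            (g / x1 + -g / x1) • t + (x1 / x1) • d1 := by module
          rw [this, div_self hx1p.ne']
          have : g / x1 + -g / x1 = 0 := by ring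
          rw [this]
          module
        have hpos : 0 < 1 / x1 := by positivity
        have hneg : -g / x1 ≤ 0 := div_nonpos_of_nonpos_of_nonneg (by linarith only [hg0]) hx1p.le
        rcases cxt d1 hT.hb _ _ e1 with (⟨a1, a2⟩ | ⟨a1, a2⟩ | ⟨a1, a2⟩) | (⟨a1, a2⟩ | ⟨a1, a2⟩ | ⟨a1, a2⟩)
        · linarith only [hpos, a1]
        · have hg' : g = 0 := by
            rw [div_eq_zero_iff] at a2
            rcases a2 with a2 | a2
            · linarith only [a2]
            · exact absurd a2 hx1p.ne'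
          rw [h, hg'] at hφ
          have := mul_pos (by linarith only [h1] : 0 < -φ d1) hx1p
          linarith only [hφ, this]
        · linarith only [hneg, a2]
        · linarith only [hpos, a1]
        · linarith only [hpos, a1]
        · linarith only [hpos, a1]
    · exact h

/-- **Case I**: `F` is below both `d1` and `d2` -/
theorem caseI (hL : Loc Ψ B ρ φ t d1 d2 x x') (h1 : φ d1 < 0) (h2 : φ d2 < 0) : False := by
  have hT := hL.tri
  have hR := rt_of_tri hT
  have hd1 : d1 ∈ C01 t d1 d2 := ⟨0, 1, 0, by module, Or.inl rfl, Or.inr le_rfl, Or.inl rfl⟩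
  have hd2 : d2 ∈ C01 t d1 d2 := ⟨0, 0, 1, by module, Or.inl rfl, Or.inl rfl, Or.inr le_rfl⟩
  have n1 : d1 ≠ t := by
    intro h
    have := (hT.indep 1 (-1) 0 (by rw [h]; module)).1
    exact one_ne_zero this
  have n2 : d2 ≠ t := by
    intro h
    have := (hT.indep 1 0 (-1) (by rw [h]; module)).1
    exact one_ne_zero this
  have S1 := hL.str d1 hT.hb hd1 n1
  have S2 := hL.str d2 hT.hc hd2 n2
  have V1 : VI (-B t d1) (-φ d1) (ρ d1) := by
    have := vinfo S1 hR.b1n h1 hR.swap.pge hR.swap.pnn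
    exact this
  have V2 : VI (-B t d2) (-φ d2) (ρ d2) := by
    have := vinfo S2 hR.b2n h2 hR.pge hR.pnn
    exact this
  have K : ∀ c f r : ℝ, Str c f r → 0 ≤ c → f < 0 → 0 < -f + r := by
    intro c f r hS hc hf
    rcases hc.eq_or_lt with h | h
    · have := hS.foot
      linarith only [hf, h, this]
    · have := hS.K1 h hf
      linarith only [this]
  have K1 := K _ _ _ S1 hR.b1n h1
  have K2 := K _ _ _ S2 hR.b2n h2
  obtain ⟨g, x1, x2, e, a1, a2, a3⟩ := coords hT hL.ft hL.fx hL.xm hL.xp hL.cxt h1 h2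
  obtain ⟨g', x1', x2', e', a1', a2', a3'⟩ := coords hT hL.ft hL.fx' hL.xm' hL.xp' hL.cxt' h1 h2
  have hm : g • t + x1 • d1 + x2 • d2 ∈ Ψ := by
    rw [← e]
    exact hL.xm
  have hm' : g' • t + x1' • d1 + x2' • d2 ∈ Ψ := by
    rw [← e']
    exact hL.xm'
  have r1 := half_lt hR hm a1 a2 (by linarith only [h1]) (by linarith only [h2]) a3 K1 K2 V1 V2
  have r2 := half_lt hR hm' a1' a2' (by linarith only [h1]) (by linarith only [h2]) a3' K1 K2 V1 V2
  have q1 : ρ x = g + x1 * ρ d1 + x2 * ρ d2 := by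
    rw [e]
    simp only [map_add, map_smul, smul_eq_mul]
    rw [hL.rt]
    ring
  have q2 : ρ x' = g' + x1' * ρ d1 + x2' * ρ d2 := by
    rw [e']
    simp only [map_add, map_smul, smul_eq_mul]
    rw [hL.rt]
    ring
  have := hL.sum
  linarith only [r1, r2, q1, q2, this]

end loc

end Pool.Agent.Helper62.DY
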