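import Pool.Agent.Helper32.DY.Gap1
import Pool.Agent.Helper29.DY.GpA
import Pool.Agent.Helper9.DY.G2m4
import Pool.Agent.Helper57.DY.Gap
import Pool.Agent.Helper62.DY.NG0

/-!
# GAP1, `h = d2`, `bO = 1/2`, `b1 ≥ 1/2`, `F` beyond the vertex `t ∩ d2`, `m2 ≥ 4` (MP_d13a5e_al)

`b1 < 1`: (U1) and the gap of the spectrum; `b1 ≥ 1`: the corner of the strip of `d2` and `ult (a)`.
-/

set_option autoImplicit false

namespace Pool.Agent.Helper62.DY

open _root_.DY (Z1 C01 Tri rf sq Str Loc Canon Xs Good Beyond G1g GP1 kq)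
open _root_.DY.St29 (Co co_of kinf_ex e_le)
open Pool.Agent.Helper32.DY (fm)

variable {E : Type*} [AddCommGroup E] [Module ℝ E] {Ψ : Set E} {B : E →ₗ[ℝ] E →ₗ[ℝ] ℝ}
variable {ρ φ : E →ₗ[ℝ] ℝ} {t d1 d2 x x' : E} {g x1 x2 g' x1' x2' : ℝ}

/-- `-e ≤ ρ a`, `e = kinf (c_a)` -/
theorem xs_hea (X : Xs Ψ B ρ φ t d1 d2 x x' g x1 x2 g' x1' x2') {e : ℝ}
    (hc : 1 ≤ -B t d1 + 2 * -B d1 d2 * -B t d2)
    (he : e ^ 2 - 2 * (-B t d1 + 2 * -B d1 d2 * -B t d2) * e + 1 = 0) (he0 : 0 < e) (he1 : e ≤ 1) :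
    -e ≤ ρ d1 + 2 * -B d1 d2 * ρ d2 := by
  have hT := X.L.tri
  have hRT := rt_of_tri hT
  have hn := hRT.r2 _ _ _ hRT.e1
  obtain ⟨n, hne⟩ : ∃ n : E, n = (0 : ℝ) • t + (1 : ℝ) • d1 + (2 * (-B t d2) * 0 + 2 * (-B d1 d2) * 1 - 0) • d2 :=
    ⟨_, rfl⟩
  have hnm : n ∈ Ψ := by
    rw [hne]
    exact hn
  have hn1 : n ≠ t := by
    intro h
    have := (hT.indep (-1) 1 (2 * (-B t d2) * 0 + 2 * (-B d1 d2) * 1 - 0) (by
      have e1 : (-1 : ℝ) • t + (1 : ℝ) • d1 + (2 * (-B t d2) * 0 + 2 * (-B d1 d2) * 1 - 0) • d2 =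
        ((0 : ℝ) • t + (1 : ℝ) • d1 + (2 * (-B t d2) * 0 + 2 * (-B d1 d2) * 1 - 0) • d2) - t := by module
      rw [e1, ← hne, h, sub_self])).2.1
    exact one_ne_zero this
  have hnc : n ∈ C01 t d1 d2 := by
    refine ⟨0, 1, 2 * (-B d1 d2), ?_, Or.inl rfl, Or.inr le_rfl, hRT.bOz⟩
    rw [hne]
    have e1 : 2 * (-B t d2) * 0 + 2 * (-B d1 d2) * 1 - 0 = 2 * (-B d1 d2) := by ring
    rw [e1]
  have hS := X.L.str n hnm hnc hn1
  have e1 : -B t n = -B t d1 + 2 * -B d1 d2 * -B t d2 := by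
    rw [hne]
    simp only [map_add, map_smul, smul_eq_mul]
    ring
  have e3 : ρ n = ρ d1 + 2 * -B d1 d2 * ρ d2 := by
    rw [hne, X.L.val_ρ]
    ring
  rw [e1, e3] at hS
  exact ult_low hS hc he he0 he1

/-- `b1 ≥ 1` -/
theorem g1g_big (X : Xs Ψ B ρ φ t d1 d2 x x' g x1 x2 g' x1' x2') (hO : -B d1 d2 = 1 / 2)
    (hb1 : 1 ≤ -B t d1) (hb2 : 2 ≤ (2 * -B t d2) ^ 2) (h2 : 1 / 2 ≤ -B t d2) (hb : Beyond (-B t d2) (φ d2))
    (ha : 0 ≤ φ d1 + 2 * -B d1 d2 * φ d2) (hz : 2 * -B d1 d2 * x1 < x2) : False := by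
  obtain ⟨k, τ, C⟩ := co_of X ha (by linarith only [hz])
  rw [hO] at C
  obtain ⟨b1, hb1e⟩ : ∃ b1, b1 = -B t d1 := ⟨_, rfl⟩
  obtain ⟨b, hbe⟩ : ∃ b, b = -B t d2 := ⟨_, rfl⟩
  have hb7 : 7 / 10 ≤ b := by
    rw [hbe]
    nlinarith only [hb2, h2]
  have hc : 1 < -B t d1 + 2 * -B d1 d2 * -B t d2 := by
    rw [hO, ← hbe]
    linarith only [hb1, hb7]
  obtain ⟨e, he, he0, he1⟩ := kinf_ex hc
  have hea := xs_hea X hc.le he he0 he1.le
  have he3 : e ≤ 1 / 3 := by
    refine e_le he he0 he1.le (by norm_num) (Or.inr ?_)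
    rw [hO, ← hbe]
    linarith only [hb1, hb7]
  rw [hO] at hea
  rw [← hb1e, ← hbe] at C
  rw [← hb1e] at hb1
  -- `τ = b`
  have hτ : τ = b := by
    rcases C.I.alt with ⟨-, h4, -⟩ | ⟨-, -, h4, -, -⟩
    · exfalso
      have h5 := C.I.hf3
      have h6 := hb (k + 2) (by
        intro i hi
        rw [← hbe]
        rcases Nat.lt_or_ge i (k + 2) with h7 | h7
        · have := C.I.pos (i + 1) (by omega) (by omega)
          linarith only [this]
        · have h8 : i = k + 2 := by omega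
          rw [h8]
          linarith only [h4])
      rw [← hbe] at h6
      have h7 : fm b (-φ d2) (k + 3) = -φ d2 * sq b (k + 3) - sq b (k + 2) := rfl
      rw [h7] at h5
      have h8 : sq b (k + 2 + 1) = sq b (k + 3) := rfl
      rw [h8] at h6
      linarith only [h5, h6]
    · exact h4
  obtain ⟨l, hl | hl⟩ : ∃ l, k = 2 * l ∨ k = 2 * l + 1 := ⟨k / 2, by omega⟩
  · refine C.finG (e := e) (by linarith only [hea]) ?_
    have h4 := C.G_odd hl e
    have h5 := C.s_mono (l := l) (by omega)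
    have h6 := C.sn (n := l) (by omega)
    have h7 := C.sn (n := l + 1) (by omega)
    have h8 := C.sn (n := l + 2) (by omega)
    have h9 : sq b (l + 2) = 2 * b * sq b (l + 1) - sq b l := rfl
    have hb1' : b < 1 := by
      rcases C.I.alt with ⟨-, h10, -⟩ | ⟨-, -, -, h10, -⟩
      · exfalso
        have h5 := C.I.hf3
        have h6 := hb (k + 2) (by
          intro i hi
          rw [← hbe]
          rcases Nat.lt_or_ge i (k + 2) with h7 | h7
          · have := C.I.pos (i + 1) (by omega) (by omega)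
            linarith only [this]
          · have h8 : i = k + 2 := by omega
            rw [h8]
            linarith only [h10])
        rw [← hbe] at h6
        have h7 : fm b (-φ d2) (k + 3) = -φ d2 * sq b (k + 3) - sq b (k + 2) := rfl
        rw [h7] at h5
        have h8 : sq b (k + 2 + 1) = sq b (k + 3) := rfl
        rw [h8] at h6
        linarith only [h5, h6]
      · exact h10
    have h10 : sq b (l + 2) ≤ 2 * sq b (l + 1) := by
      rw [h9]
      have := mul_le_mul_of_nonneg_right hb1'.le h7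
      linarith only [h6, this]
    refine nonneg_of_mul_nonneg_left (b := sq b (l + 2) + sq b (l + 1)) ?_ (by linarith only [h5, h6, h8])
    rw [h4]
    have h11 : sq b (l + 1) - sq b l ≤ b1 * (sq b (l + 1) - sq b l) := by
      have := mul_le_mul_of_nonneg_right hb1 (by linarith only [h5] : 0 ≤ sq b (l + 1) - sq b l)
      linarith only [this]
    have h12 : e * (sq b (l + 2) + sq b (l + 1)) ≤ 1 / 3 * (3 * sq b (l + 1)) :=
      mul_le_mul he3 (by linarith only [h10]) (by linarith only [h7, h8]) (by norm_num)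
    linarith only [h11, h12]
  · refine C.finG (e := e) (by linarith only [hea]) ?_
    rw [C.G_even hl e, hτ]
    linarith only [hb7, he3]

/-- `b1 < 1` -/
theorem g1g_small (X : Xs Ψ B ρ φ t d1 d2 x x' g x1 x2 g' x1' x2') (hO : -B d1 d2 = 1 / 2)
    (hb1 : 1 / 2 ≤ -B t d1) (hb1' : -B t d1 < 1) (hb2 : 2 ≤ (2 * -B t d2) ^ 2) (h2 : 1 / 2 ≤ -B t d2)
    (h2' : -B t d2 < 1) (hb : Beyond (-B t d2) (φ d2)) (ha : 0 ≤ φ d1 + 2 * -B d1 d2 * φ d2)
    (hz : 2 * -B d1 d2 * x1 < x2) : False := by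
  obtain ⟨k, τ, C⟩ := co_of X ha (by linarith only [hz])
  have hT := X.L.tri
  have hRT := rt_of_tri hT
  have hb7 : 707 / 1000 ≤ -B t d2 := by nlinarith
  -- the last root of the pencil
  obtain ⟨s1, s0⟩ : sq (-B t d2) (k + 2) = 1 ∧ sq (-B t d2) (k + 1) = 2 * -B t d2 := by
    rcases C.I.alt with ⟨-, h4, -⟩ | ⟨h4, h5, -, -, -⟩
    · exfalso
      have h5 := C.I.hf3
      have h6 := hb (k + 2) (by
        intro i hi
        rcases Nat.lt_or_ge i (k + 2) with h7 | h7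
        · have := C.I.pos (i + 1) (by omega) (by omega)
          linarith only [this]
        · have h8 : i = k + 2 := by omega
          rw [h8]
          linarith only [h4])
      have h7 : fm (-B t d2) (-φ d2) (k + 3) = -φ d2 * sq (-B t d2) (k + 3) - sq (-B t d2) (k + 2) := rfl
      rw [h7] at h5
      have h8 : sq (-B t d2) (k + 2 + 1) = sq (-B t d2) (k + 3) := rfl
      rw [h8] at h6
      linarith only [h5, h6]
    · refine ⟨h4, ?_⟩
      have h6 : sq (-B t d2) (k + 3) = 2 * -B t d2 * sq (-B t d2) (k + 2) - sq (-B t d2) (k + 1) := rfl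
      rw [h4, h5] at h6
      linarith only [h6]
  have hφ : 2 * -B t d2 + 1 * φ d2 ≤ 0 := by
    have h6 := hb (k + 1) (by
      intro i hi
      have := C.I.pos (i + 1) (by omega) (by omega)
      linarith only [this])
    have h8 : sq (-B t d2) (k + 1 + 1) = sq (-B t d2) (k + 2) := rfl
    rw [h8, s1, s0] at h6
    linarith only [h6]
  have hu : (2 * -B t d2) • t + (1 : ℝ) • d2 ∈ Ψ := by
    have h3 := hRT.r0 _ _ _ hRT.e2
    have e1 : (2 * -B t d2) • t + (1 : ℝ) • d2 =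
        (2 * -B t d1 * 0 + 2 * -B t d2 * 1 - 0) • t + (0 : ℝ) • d1 + (1 : ℝ) • d2 := by module
    rw [e1]
    exact h3
  have hf := X.L.foot.2
  have hu1 := X.u1_use (by linarith only [hb1']) (by linarith only [h2']) (by linarith only [hO]) hu le_rfl hφ (τ := 7 / 10) (by norm_num)
    (by linarith only [hb7, hf])
  obtain ⟨β, hβ⟩ : ∃ β, β = B x ((2 * -B t d2) • t + (1 : ℝ) • d2) := ⟨_, rfl⟩
  obtain ⟨Q, hQ⟩ : ∃ Q, Q = kq B t d1 d2 := ⟨_, rfl⟩
  have hgap := fun h : 1 < |B x ((2 * -B t d2) • t + (1 : ℝ) • d2)| =>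
    Pool.Agent.Helper57.DY.gap hT (by linarith only [hb1']) (by linarith only [h2']) (by linarith only [hO]) X.L.xm hu h
  rw [← hβ, ← hQ] at hu1 hgap
  have hQ1 : 35 / 100 ≤ Q := by
    rw [hQ]
    unfold kq
    have e1 : B t d1 ^ 2 = (-B t d1) ^ 2 := by ring
    have e2 : B t d2 ^ 2 = (-B t d2) ^ 2 := by ring
    have e3 : B d1 d2 ^ 2 = (-B d1 d2) ^ 2 := by ring
    have e4 : 2 * B t d1 * B t d2 * B d1 d2 = -(2 * (-B t d1) * (-B t d2) * (-B d1 d2)) := by ring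
    rw [e1, e2, e3, e4, hO]
    have f1 : (1 / 2) * (707 / 1000) ≤ (-B t d1) * (-B t d2) := mul_le_mul hb1 hb7 (by norm_num) (by linarith only [hb1])
    nlinarith only [hb1, hb7]
  rcases le_or_gt β 1 with h3 | h3
  · have h4 := hu1.1 h3
    have h5 : 1 / 2 ≤ √Q := by
      rw [Real.le_sqrt' (by norm_num)]
      linarith only [hQ1]
    linarith only [h3, h4, h5]
  · have h4 := hu1.2 (by linarith only [hQ1]) h3.le
    have h5 := hgap (h3.trans_le (le_abs_self _))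
    nlinarith only [hQ1, h3, h4, h5]

/-- **G1g** -/
theorem g1g : G1g Ψ B := by
  intro ρ φ t d1 d2 x x' g x1 x2 g' x1' x2' X _ h2 _ _ ha hz _ ⟨hb1, hO, hb2, h2', hb⟩
  rcases lt_or_ge (-B t d1) 1 with h1 | h1
  · exact g1g_small X hO hb1 h1 hb2 h2 h2' hb ha hz
  · exact g1g_big X hO h1 hb2 h2 hb ha hz

end Pool.Agent.Helper62.DY
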