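import Mathlib

/-!
# GAP2, index 3, `φ(w) ≥ 0`: real inequalities (MP_d13a5e_al)

Letters, all divided by `a = 2 b1` where it applies: `V = x1 / a`, `H = g - V`, `w = s g - x2`, `s = 2 b2`,
`A = a ^ 2 - 2`, `τ = 1 / (s + 1)`, `e + 1 / e = A + s ^ 2`.
-/

set_option autoImplicit false

namespace Pool.Agent.Helper62.DY

/-- the final contradiction -/
theorem r3_fin {s τ X A D V : ℝ} (hs : 2 ≤ s ^ 2) (hs0 : 0 < s) (hτ : τ * (s + 1) = 1) (hX : 0 < X)
    (hA0 : 0 ≤ A) (hA : (2 + τ) * X - 1 ≤ A) (hE : 0 ≤ 1 - (s - 1) * X - 2 * τ * X ^ 2) (hD : 0 < D) (hV : 0 < V)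
    (hf : D < X * V) (h1 : V ^ 2 ≤ D * (D + s - 2 * τ))
    (h2 : 0 ≤ V ^ 2 - (A * D + s * (A + 1)) * V + D * (D + s)) : False := by
  have hs1 : 1 < s := by nlinarith only [hs, hs0]
  have hτ0 : 0 < τ := by
    by_contra hcon
    have := mul_nonpos_of_nonpos_of_nonneg (not_lt.1 hcon) (by linarith only [hs1] : 0 ≤ s + 1)
    linarith only [hτ, this]
  have hτ2 : 2 * τ < 1 := by nlinarith only [hs, hs0, hτ]
  have hX1 : X < 1 := by
    by_contra hcon
    have hx := not_lt.1 hcon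
    have k1 : (s - 1) * 1 ≤ (s - 1) * X := mul_le_mul_of_nonneg_left hx (by linarith only [hs1])
    have k2 : 2 * τ * 1 ≤ 2 * τ * X ^ 2 := mul_le_mul_of_nonneg_left (by nlinarith only [hx]) (by linarith only [hτ0])
    have k3 : 0 ≤ 2 - s - 2 * τ := by linarith only [hE, k1, k2]
    have k4 : 0 ≤ (2 - s - 2 * τ) * (s + 1) := mul_nonneg k3 (by linarith only [hs1])
    nlinarith only [hs, hτ, k4]
  have hXX : 0 < 1 - X ^ 2 := by nlinarith
  -- (a)
  have ha : D * (1 - X ^ 2) < X ^ 2 * (s - 2 * τ) := by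
    have k1 : D ^ 2 < (X * V) ^ 2 := by
      have : 0 < X * V := mul_pos hX hV
      nlinarith only [hD, hf]
    have k2 : X ^ 2 * V ^ 2 ≤ X ^ 2 * (D * (D + s - 2 * τ)) := mul_le_mul_of_nonneg_left h1 (by positivity)
    have k3 : D * D < D * (X ^ 2 * (D + s - 2 * τ)) := by nlinarith only [k1, k2]
    have k4 := lt_of_mul_lt_mul_left k3 hD.le
    linarith
  -- (b)
  have hb : s * (A + 1) - 2 * X * (s - τ) < (2 * X - A) * D := by
    have hc : 0 < A * D + s * (A + 1) := by positivity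
    have k1 : (A * D + s * (A + 1)) * V ≤ 2 * D * (D + s - τ) := by linarith only [h1, h2]
    have k2 : (A * D + s * (A + 1)) * D < (A * D + s * (A + 1)) * (X * V) := mul_lt_mul_of_pos_left hf hc
    have k3 : X * ((A * D + s * (A + 1)) * V) ≤ X * (2 * D * (D + s - τ)) := mul_le_mul_of_nonneg_left k1 hX.le
    have k4 : D * (A * D + s * (A + 1)) < D * (2 * X * (D + s - τ)) := by linarith only [k2, k3]
    have k5 := lt_of_mul_lt_mul_left k4 hD.le
    linarith only [k5]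
  rcases le_or_gt (2 * X) A with hAX | hAX
  · have k1 : (2 * X - A) * D ≤ 0 := mul_nonpos_of_nonpos_of_nonneg (by linarith only [hAX]) hD.le
    have k2 : 2 * X * (s - τ) ≤ A * (s - τ) := mul_le_mul_of_nonneg_right hAX (by linarith only [hs1, hτ2])
    have k3 : 0 ≤ A * τ := mul_nonneg hA0 hτ0.le
    nlinarith only [hs1, hb, k1, k2, k3]
  · have k1 : (2 * X - A) * (D * (1 - X ^ 2)) < (2 * X - A) * (X ^ 2 * (s - 2 * τ)) :=
      mul_lt_mul_of_pos_left ha (by linarith only [hAX])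
    have k2 : (s * (A + 1) - 2 * X * (s - τ)) * (1 - X ^ 2) < (2 * X - A) * D * (1 - X ^ 2) :=
      mul_lt_mul_of_pos_right hb hXX
    have key : (1 - X ^ 2) * (s * (A + 1) - 2 * X * (s - τ)) - (2 * X - A) * (X ^ 2 * (s - 2 * τ)) =
        (A - ((2 + τ) * X - 1)) * (s - 2 * τ * X ^ 2) +
          X * ((1 + τ) * (1 - (s - 1) * X - 2 * τ * X ^ 2)) := by
      linear_combination (X ^ 2 + X) * hτ
    have k3 : 0 ≤ s - 2 * τ * X ^ 2 := by nlinarith only [hs1, hτ2, hXX]
    have k4 := mul_nonneg (by linarith only [hA] : 0 ≤ A - ((2 + τ) * X - 1)) k3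
    have k5 := mul_nonneg hX.le (mul_nonneg (by linarith only [hτ0] : 0 ≤ 1 + τ) hE)
    linarith only [k1, k2, key, k4, k5]

/-- `H ≥ 1` -/
theorem r3_H1 {A s H V w : ℝ} (hA : 0 ≤ A) (hs : 2 ≤ s ^ 2) (hs0 : 0 < s) (hw : 1 ≤ w) (hV : 0 < V) (hVH : V ≤ H)
    (hH : s * w + A * V ≤ 2 * H) (hN : H ^ 2 + V ^ 2 + w ^ 2 - A * H * V - s * (H + V) * w = 1) : 1 ≤ H := by
  by_contra hcon
  have h1 := not_le.1 hcon
  have hs1 : 1 < s := by nlinarith only [hs, hs0]
  have hAV : 0 ≤ A * V := mul_nonneg hA hV.le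
  have hws : w < s := by
    by_contra h2
    have h3 := not_lt.1 h2
    nlinarith only [hs, hH, h1, hs1, hAV, h3]
  have h2 : 0 < (1 - H) * (1 + H - (A * V + s * w)) := by
    apply mul_pos (by linarith only [h1])
    linarith only [hH, hcon]
  have h3 : (1 - H) * (1 + H - (A * V + s * w)) = V * (V - A - s * w) + w * (w - s) := by
    linear_combination (-1) * hN
  have h4 : V * (V - A - s * w) ≤ 0 := mul_nonpos_of_nonneg_of_nonpos hV.le (by nlinarith only [hA, hs, hs0, hw, hVH, h1])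
  have h5 : w * (w - s) ≤ 0 := mul_nonpos_of_nonneg_of_nonpos (by linarith only [hw]) (by linarith only [hws])
  linarith only [h2, h3, h4, h5]

/-- (R3) when `(2 s + 3) e ≤ A + 1` -/
theorem r3a {A s e τ H V w : ℝ} (hA : 0 ≤ A) (hs : 2 ≤ s ^ 2) (hs0 : 0 < s) (hτ : τ * (s + 1) = 1) (he : 0 < e)
    (hee : e ^ 2 + 1 = (A + s ^ 2) * e) (hE : (2 * s + 3) * e ≤ A + 1) (hw : 1 ≤ w) (hV : 0 < V) (hVH : V ≤ H)
    (hH : s * w + A * V ≤ 2 * H) (hN : H ^ 2 + V ^ 2 + w ^ 2 - A * H * V - s * (H + V) * w = 1)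
    (hK : V ^ 2 ≤ H ^ 2 - s * H * w + w ^ 2 + 1 - 2 * τ * (H + w)) : (s + 1) * (1 + e * V) ≤ H + w := by
  have hH1 := r3_H1 hA hs hs0 hw hV hVH hH hN
  have hs1 : 1 < s := by nlinarith only [hs, hs0]
  have hτ0 : 0 < τ := by
    by_contra hcon
    have := mul_nonpos_of_nonpos_of_nonneg (not_lt.1 hcon) (by linarith only [hs1] : 0 ≤ s + 1)
    linarith only [hτ, this]
  have hτ2 : 2 * τ < 1 := by nlinarith only [hs, hs0, hτ]
  have hHw : 0 ≤ (H - 1) * (w - 1) := mul_nonneg (by linarith only [hH1]) (by linarith only [hw])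
  by_contra hcon
  have hf0 := not_le.1 hcon
  obtain ⟨X, hX⟩ : ∃ X, X = (s + 1) * e := ⟨_, rfl⟩
  obtain ⟨D, hD⟩ : ∃ D, D = H + w - (s + 1) := ⟨_, rfl⟩
  have hX0 : 0 < X := by
    rw [hX]
    positivity
  have hf : D < X * V := by
    rw [hX, hD]
    nlinarith only [hf0]
  have h1 : V ^ 2 ≤ D * (D + s - 2 * τ) := by
    have h2 : H ^ 2 - s * H * w + w ^ 2 + 1 - 2 * τ * (H + w) =
        D * (D + s - 2 * τ) - (s + 2) * ((H - 1) * (w - 1)) := by
      rw [hD]
      linear_combination (-2) * hτ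
    have h3 := mul_nonneg (by linarith only [hs1] : 0 ≤ s + 2) hHw
    linarith only [hK, h2, h3]
  have hD0 : 0 < D := by
    by_contra h2
    have h3 := not_lt.1 h2
    have h4 : D + s - 2 * τ > 0 := by
      rw [hD]
      linarith only [hw, hH1, hτ2]
    have h5 := mul_nonpos_of_nonpos_of_nonneg h3 h4.le
    have h6 : 0 < V ^ 2 := by positivity
    linarith only [h1, h5, h6]
  have hE1 : 0 ≤ 1 - (s - 1) * X - 2 * τ * X ^ 2 := by
    have h2 : 1 - (s - 1) * X - 2 * τ * X ^ 2 = e * (A + 1 - (2 * s + 3) * e) := by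
      rw [hX]
      linear_combination hee - 2 * (s + 1) * e ^ 2 * hτ
    rw [h2]
    exact mul_nonneg he.le (by linarith only [hE])
  have hXA : (2 + τ) * X - 1 ≤ A := by
    have h2 : (2 + τ) * X = (2 * s + 3) * e := by
      rw [hX]
      linear_combination e * hτ
    linarith only [hE, h2]
  have hx1 : X < 1 := by
    by_contra hcon
    have hx := not_lt.1 hcon
    have k1 : (s - 1) * 1 ≤ (s - 1) * X := mul_le_mul_of_nonneg_left hx (by linarith only [hs1])
    have k2 : 2 * τ * 1 ≤ 2 * τ * X ^ 2 := mul_le_mul_of_nonneg_left (by nlinarith only [hx]) (by linarith only [hτ0])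
    have k3 : 0 ≤ 2 - s - 2 * τ := by linarith only [hE1, k1, k2]
    have k4 : 0 ≤ (2 - s - 2 * τ) * (s + 1) := mul_nonneg k3 (by linarith only [hs1])
    nlinarith only [hs, hτ, k4]
  have hXs : (2 + τ) * X - 1 ≤ s := by
    have k1 : 2 + τ ≤ s + 1 := by
      have k2 : (2 + τ) * (s + 1) ≤ (s + 1) * (s + 1) := by nlinarith only [hs, hτ]
      exact le_of_mul_le_mul_right k2 (by linarith only [hs1])
    have k2 : (2 + τ) * X ≤ (2 + τ) * 1 := mul_le_mul_of_nonneg_left hx1.le (by linarith only [hτ0])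
    linarith only [k1, k2]
  rcases le_total A s with hAs | hAs
  · refine r3_fin hs hs0 hτ hX0 hA hXA hE1 hD0 hV hf h1 ?_
    have h2 : V ^ 2 - (A * D + s * (A + 1)) * V + D * (D + s) =
        (s + 2) * ((H - 1) * (w - 1)) + V * ((s - A) * (w - 1)) := by
      rw [hD]
      linear_combination hN
    rw [h2]
    have h3 := mul_nonneg (by linarith only [hs1] : 0 ≤ s + 2) hHw
    have h4 := mul_nonneg hV.le (mul_nonneg (by linarith only [hAs] : 0 ≤ s - A) (by linarith only [hw] : 0 ≤ w - 1))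
    linarith only [h3, h4]
  · refine r3_fin hs hs0 hτ hX0 hs0.le hXs hE1 hD0 hV hf h1 ?_
    have h2 : V ^ 2 - (s * D + s * (s + 1)) * V + D * (D + s) =
        (s + 2) * ((H - 1) * (w - 1)) + V * ((A - s) * H) := by
      rw [hD]
      linear_combination hN
    rw [h2]
    have h3 := mul_nonneg (by linarith only [hs1] : 0 ≤ s + 2) hHw
    have h4 := mul_nonneg hV.le (mul_nonneg (by linarith only [hAs] : 0 ≤ A - s) (by linarith only [hH1] : 0 ≤ H))
    linarith only [h3, h4]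

/-- the criterion for `(2 s + 3) e ≤ A + 1` -/
theorem r3_e {p r q e : ℝ} (hp : 0 < p) (hr : 0 < r) (he : 0 < e) (he1 : e ≤ 1) (hee : e ^ 2 + 1 = q * e)
    (h : p ^ 2 + r ^ 2 ≤ q * p * r) : r * e ≤ p := by
  by_contra hcon
  have h1 := not_le.1 hcon
  have h2 : e * p < r := by
    have h3 : e * p < e * (r * e) := mul_lt_mul_of_pos_left h1 he
    have h4 : e * (r * e) ≤ r := by nlinarith only [hp, hr, he1, h1]
    linarith only [h3, h4]
  have h3 : 0 < (r * e - p) * (r - e * p) := mul_pos (by linarith only [h1]) (by linarith only [h2])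
  have h4 : (r * e - p) * (r - e * p) = e * (p ^ 2 + r ^ 2 - q * p * r) := by
    linear_combination (-(p * r)) * hee
  have h5 : e * (p ^ 2 + r ^ 2 - q * p * r) ≤ 0 := mul_nonpos_of_nonneg_of_nonpos he.le (by linarith only [h])
  linarith only [h3, h4, h5]

/-- the labels with `(2 s + 3) e ≤ A + 1` -/
theorem r3_lab {A s : ℝ} (h : (1 ≤ A ∧ 8 / 5 ≤ s) ∨ (31 / 25 ≤ A ∧ 7 / 5 ≤ s) ∨ (309 / 500 ≤ A ∧ 2 ≤ s)) :
    (A + 1) ^ 2 + (2 * s + 3) ^ 2 ≤ (A + s ^ 2) * (A + 1) * (2 * s + 3) := by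
  rcases h with ⟨h1, h2⟩ | ⟨h1, h2⟩ | ⟨h1, h2⟩
  · obtain ⟨α, hα⟩ : ∃ α, α = A - 1 := ⟨_, rfl⟩
    obtain ⟨σ, hσ⟩ : ∃ σ, σ = s - 8 / 5 := ⟨_, rfl⟩
    have e1 : A = α + 1 := by linarith only [hα]
    have e2 : s = σ + 8 / 5 := by linarith only [hσ]
    have p1 : 0 ≤ α := by linarith only [h1, hα]
    have p2 : 0 ≤ σ := by linarith only [h2, hσ]
    rw [e1, e2]
    rw [← sub_nonneg]
    ring_nf
    positivity
  · obtain ⟨α, hα⟩ : ∃ α, α = A - 31 / 25 := ⟨_, rfl⟩
    obtain ⟨σ, hσ⟩ : ∃ σ, σ = s - 7 / 5 := ⟨_, rfl⟩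
    have e1 : A = α + 31 / 25 := by linarith only [hα]
    have e2 : s = σ + 7 / 5 := by linarith only [hσ]
    have p1 : 0 ≤ α := by linarith only [h1, hα]
    have p2 : 0 ≤ σ := by linarith only [h2, hσ]
    rw [e1, e2]
    rw [← sub_nonneg]
    ring_nf
    positivity
  · obtain ⟨α, hα⟩ : ∃ α, α = A - 309 / 500 := ⟨_, rfl⟩
    obtain ⟨σ, hσ⟩ : ∃ σ, σ = s - 2 := ⟨_, rfl⟩
    have e1 : A = α + 309 / 500 := by linarith only [hα]
    have e2 : s = σ + 2 := by linarith only [hσ]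
    have p1 : 0 ≤ α := by linarith only [h1, hα]
    have p2 : 0 ≤ σ := by linarith only [h2, hσ]
    rw [e1, e2]
    rw [← sub_nonneg]
    ring_nf
    positivity

/-- (R3) for `(6,4)` -/
theorem r64 {s e τ H V w : ℝ} (hs : s ^ 2 = 2) (hs0 : 0 < s) (hτ : τ * (s + 1) = 1) (he : 0 < e) (he1 : e ≤ 1)
    (hee : e ^ 2 + 1 = 3 * e) (hw : 1 ≤ w) (hV : 0 < V) (hV3 : 1 / 3 ≤ V ^ 2) (hH : s * w + V ≤ 2 * H)
    (hz : V + s * w - H = 0 ∨ (0 < V + s * w - H ∧ 1 / 3 ≤ (V + s * w - H) ^ 2))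
    (hK : V ^ 2 ≤ H ^ 2 - s * H * w + w ^ 2 + 1 - 2 * τ * (H + w)) : (s + 1) * (1 + e * V) ≤ H + w := by
  have hs1 : 7 / 5 < s := by nlinarith only [hs, hs0]
  have hs2 : s < 71 / 50 := by nlinarith only [hs, hs0]
  have hτs : τ = s - 1 := by
    have h1 : τ * (s + 1) = (s - 1) * (s + 1) := by
      rw [hτ]
      linear_combination -hs
    exact mul_right_cancel₀ (by linarith only [hs1] : s + 1 ≠ 0) h1
  have heτ : e < τ := by
    by_contra hcon
    have h1 := not_lt.1 hcon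
    have h2 : (e - τ) * (3 - e - τ) = τ ^ 2 - 3 * τ + 1 := by linear_combination -hee
    have h3 : 0 ≤ (e - τ) * (3 - e - τ) := mul_nonneg (by linarith only [h1]) (by linarith only [he1, h1])
    rw [h2, hτs] at h3
    nlinarith only [h3, hs, hs1]
  obtain ⟨z, hzd⟩ : ∃ z, z = V + s * w - H := ⟨_, rfl⟩
  obtain ⟨y, hy⟩ : ∃ y, y = w - 1 := ⟨_, rfl⟩
  rw [← hzd] at hz
  by_contra hcon
  have hf := not_le.1 hcon
  have hw' : w = 1 + y := by linarith only [hy]
  have hH' : H = V + s * w - z := by linarith only [hzd]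
  have hy0 : 0 ≤ y := by linarith only [hw, hw']
  have hfy : y < τ * z + (e - τ) * V := by
    have h1 : (s + 1) * y < z + ((s + 1) * e - 1) * V := by
      rw [hH', hw'] at hf
      linarith only [hf]
    have h2 : (s + 1) * (τ * z + (e - τ) * V) = z + ((s + 1) * e - 1) * V := by
      linear_combination (z - V) * hτ
    rw [← h2] at h1
    exact lt_of_mul_lt_mul_left h1 (by linarith only [hs1])
  have hfz : y < τ * z := by
    have h1 : (e - τ) * V < 0 := mul_neg_of_neg_of_pos (by linarith only [heτ]) hV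
    linarith only [hfy, h1]
  have hz0 : 0 < z ∧ 1 / 3 ≤ z ^ 2 := by
    rcases hz with h1 | h1
    · rw [h1, mul_zero] at hfz
      linarith only [hy0, hfz]
    · exact h1
  obtain ⟨hz1, hz2⟩ := hz0
  have hK' : V ^ 2 + (z - V) * (H - 2 * τ) ≤ y ^ 2 := by
    have h1 : y ^ 2 - (V ^ 2 + (z - V) * (H - 2 * τ)) =
        H ^ 2 - s * H * w + w ^ 2 + 1 - 2 * τ * (H + w) - V ^ 2 := by
      rw [hy, hzd]
      linear_combination (2 * w) * hτ
    linarith only [hK, h1]
  have hzH : z ≤ H := by linarith only [hH, hH']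
  have hV12 : 57 / 100 < V := by nlinarith only [hV, hV3]
  have hz12 : 57 / 100 < z := by nlinarith only [hz1, hz2]
  have hyz : y ^ 2 < (τ * z) ^ 2 := pow_lt_pow_left₀ hfz hy0 two_ne_zero
  rcases le_or_gt V z with hVz | hVz
  · -- `V ≤ z`
    have h1 : (z - V) * (z - 2 * τ) ≤ (z - V) * (H - 2 * τ) := mul_le_mul_of_nonneg_left (by linarith only [hzH]) (by linarith only [hVz])
    have h3 : V ^ 2 + (z - V) * (z - 2 * τ) < (τ * z) ^ 2 := by linarith only [hK', hyz, h1]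
    have h0 : 0 ≤ (z - V) * (H - 2 * τ) := by
      apply mul_nonneg (by linarith only [hVz])
      have h7 : s * w ≥ s * 1 := mul_le_mul_of_nonneg_left hw hs0.le
      rw [hτs]
      linarith only [hH, hs2, hV12, h7]
    have h4 : V ≤ y := by
      by_contra h5
      have := pow_lt_pow_left₀ (not_le.1 h5) hy0 two_ne_zero
      linarith only [hK', h0, this]
    have h5 : V < τ * z := by linarith only [hfz, h4]
    have h8 : τ < 42 / 100 := by linarith only [hs2, hτs]
    have h8' : 0 < τ := by linarith only [hs1, hτs]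
    have h6 : 27 / 20 < z := by
      have h9 : τ * z < 42 / 100 * z := mul_lt_mul_of_pos_right h8 hz1
      linarith only [hV12, h5, h9]
    have h7 : τ ^ 2 ≤ 9 / 50 := by
      rw [hτs]
      nlinarith only [hs, hs1]
    have h9 := sq_nonneg (V - (z - 2 * τ) / 2)
    have h10 : z ^ 2 * (3 / 4 - τ ^ 2) - τ * z - τ ^ 2 < 0 := by linarith only [h3, h9]
    have h11 : z ^ 2 * (57 / 100) ≤ z ^ 2 * (3 / 4 - τ ^ 2) :=
      mul_le_mul_of_nonneg_left (by linarith only [h7]) (by positivity)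
    have h12 : τ * z ≤ 42 / 100 * z := mul_le_mul_of_nonneg_right h8.le hz1.le
    nlinarith only [h10, h11, h12, h6, h7]
  · -- `z < V`
    have h1 : V ^ 2 - (V - z) * (V - z + s + s * y - 2 * τ) < (τ * z) ^ 2 := by
      have h3 : H = V - z + s + s * y := by
        rw [hH', hw']
        ring
      rw [h3] at hK'
      linarith only [hK', hyz]
    have h2 : (V - z) * (s * y) ≤ (V - z) * (s * (τ * z)) :=
      mul_le_mul_of_nonneg_left (mul_le_mul_of_nonneg_left hfz.le hs0.le) (by linarith only [hVz])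
    have h3 : V * (s * z - (2 - s)) < (2 - s) * (z * (z - 1)) := by
      rw [hτs] at h1 h2
      have k1 : V * (s * z - (2 - s)) - (2 - s) * (z * (z - 1)) =
          V ^ 2 - (V - z) * (V - z + s + s * ((s - 1) * z) - 2 * (s - 1)) - ((s - 1) * z) ^ 2 +
            (V * z) * (s ^ 2 - 2) := by ring
      rw [hs, sub_self, mul_zero, add_zero] at k1
      linarith only [h1, h2, k1]
    have h4 : 0 < s * z - (2 - s) := by
      have : 7 / 5 * z < s * z := mul_lt_mul_of_pos_right hs1 hz1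
      linarith only [hs1, hz12, this]
    have h5 : z * (s * z - (2 - s)) < V * (s * z - (2 - s)) := mul_lt_mul_of_pos_right hVz h4
    have h6 : z * (s * z - (2 - s)) < z * ((2 - s) * (z - 1)) := by linarith only [h3, h5]
    have h7 := lt_of_mul_lt_mul_left h6 hz1.le
    have h8 : 0 < (2 * s - 2) * z := mul_pos (by linarith only [hs1]) hz1
    linarith only [h7, h8]

end Pool.Agent.Helper62.DY
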