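import Pool.Agent.Helper62.DY.G2w1
import Pool.Agent.Helper62.DY.NG0
import Pool.Agent.Helper80.DY.R5

/-!
# GAP2, index 3, `φ(w) ≥ 0`: labels and the numerical part (MP_d13a5e_al)
-/

set_option autoImplicit false

namespace Pool.Agent.Helper62.DY

open _root_.DY (Z1 sq)

section lab

variable {b1 b2 bO : ℝ} {R : ℝ → ℝ → ℝ → Prop}

/-- the labels -/
theorem lab6 (h : RT b1 b2 bO R) {s : ℝ} (hs : s = 2 * b2) :
    s = 0 ∨ s = 1 ∨ (0 < s ∧ s ^ 2 = 2) ∨ (0 < s ∧ s ^ 2 = s + 1) ∨ (0 < s ∧ s ^ 2 = 3) ∨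
      (0 < s ∧ 81 / 25 ≤ s ^ 2) := by
  have q1 : sq b2 1 = 1 := rfl
  have q2 : sq b2 2 = s := by
    rw [sq_rec, q1, sq_zero, hs]
    ring
  have q3 : sq b2 3 = s ^ 2 - 1 := by
    rw [sq_rec, q2, q1, hs]
    ring
  have q4 : sq b2 4 = s * (s ^ 2 - 2) := by
    rw [sq_rec, q3, q2, hs]
    ring
  have q5 : sq b2 5 = (s ^ 2 - s - 1) * (s ^ 2 + s - 1) := by
    rw [sq_rec, q4, q3, hs]
    ring
  have q6 : sq b2 6 = s * (s ^ 2 - 1) * (s ^ 2 - 3) := by
    rw [sq_rec, q5, q4, hs]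
    ring
  have hz := h.b2z
  rw [← hs] at hz
  rcases hz with h0 | h1
  · exact Or.inl h0
  right
  have hs0 : 0 < s := by linarith only [h1]
  have e3 := h.pnn 1 (by rw [q2]; exact hs0)
  rw [q3] at e3
  rcases e3.lt_or_eq with e3 | e3
  swap
  · left
    nlinarith only [hs0, e3]
  right
  have f3 := h.pge 2 (by rw [q3]; exact e3)
  rw [q3] at f3
  have e4 := h.pnn 2 (by rw [q3]; exact e3)
  rw [q4] at e4
  have hs2 : 0 ≤ s ^ 2 - 2 := by linarith only [f3]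
  rcases hs2.lt_or_eq with hs2 | hs2
  swap
  · exact Or.inl ⟨hs0, by linarith only [hs2]⟩
  right
  have f4 := h.pge 3 (by rw [q4]; exact mul_pos hs0 hs2)
  rw [q4] at f4
  have hs3 : 0 ≤ s ^ 2 - s - 1 := by
    have e1 : (s + 1) * (s ^ 2 - s - 1) = s * (s ^ 2 - 2) - 1 := by ring
    have e2 : 0 ≤ (s + 1) * (s ^ 2 - s - 1) := by linarith only [f4]
    exact nonneg_of_mul_nonneg_right e2 (by linarith only [hs0])
  rcases hs3.lt_or_eq with hs3 | hs3
  swap
  · exact Or.inl ⟨hs0, by linarith only [hs3]⟩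
  right
  have f5 := h.pge 4 (by rw [q5]; exact mul_pos hs3 (by nlinarith only [hs2, f4]))
  rw [q5] at f5
  have hs4 : 0 ≤ s ^ 2 - 3 := by
    have e1 : s ^ 2 * (s ^ 2 - 3) = (s ^ 2 - s - 1) * (s ^ 2 + s - 1) - 1 := by ring
    have e2 : 0 ≤ s ^ 2 * (s ^ 2 - 3) := by linarith only [f5]
    exact nonneg_of_mul_nonneg_right e2 (by positivity)
  rcases hs4.lt_or_eq with hs4 | hs4
  swap
  · exact Or.inl ⟨hs0, by linarith only [hs4]⟩
  right
  have f6 := h.pge 5 (by rw [q6]; exact mul_pos (mul_pos hs0 (by linarith only [hs4])) hs4)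
  rw [q6] at f6
  refine ⟨hs0, ?_⟩
  by_contra hcon
  have g1 := not_le.1 hcon
  have g2 : s < 9 / 5 := by nlinarith only [g1]
  have g3 : s * (s ^ 2 - 1) < 9 / 5 * (56 / 25) := by
    have k1 : s * (s ^ 2 - 1) ≤ s * (56 / 25) := mul_le_mul_of_nonneg_left (by linarith only [g1]) hs0.le
    linarith only [g2, k1]
  have g4 : s * (s ^ 2 - 1) * (s ^ 2 - 3) < 9 / 5 * (56 / 25) * (s ^ 2 - 3) := mul_lt_mul_of_pos_right g3 hs4
  linarith only [f6, hcon, g4]

end lab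

/-- the real inequality (R3) for all labels -/
theorem r3_all {a s e τ H V w : ℝ} (ha0 : 0 < a)
    (ha : a ^ 2 = a + 1 ∨ a ^ 2 = 3 ∨ 81 / 25 ≤ a ^ 2) (hs0 : 0 < s) (hs : s ^ 2 = 2 ∨ s + 1 ≤ s ^ 2)
    (hτ : τ * (s + 1) = 1) (he : 0 < e) (he1 : e ≤ 1) (hee : e ^ 2 + 1 = ((a ^ 2 - 2) + s ^ 2) * e) (hw : 1 ≤ w)
    (hV : 1 ≤ a * V) (hVH : V ≤ H) (hH : s * w + (a ^ 2 - 2) * V ≤ 2 * H)
    (hz : (a ^ 2 - 2) * V + s * w - H = 0 ∨ 1 ≤ a * ((a ^ 2 - 2) * V + s * w - H)) (hP : w < s * H)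
    (hN : H ^ 2 + V ^ 2 + w ^ 2 - (a ^ 2 - 2) * H * V - s * (H + V) * w = 1)
    (hK : V ^ 2 ≤ H ^ 2 - s * H * w + w ^ 2 + 1 - 2 * τ * (H + w)) : (s + 1) * (1 + e * V) ≤ H + w := by
  have hV0 : 0 < V := by
    by_contra hcon
    have := mul_nonpos_of_nonneg_of_nonpos ha0.le (not_lt.1 hcon)
    linarith only [hV, this]
  have hs2 : 2 ≤ s ^ 2 := by
    rcases hs with h1 | h1
    · exact h1.ge
    · nlinarith only [hw, hVH, hP, hV0, h1]
  have hs75 : 7 / 5 ≤ s := by nlinarith only [hw, hVH, hP, hV0, hs2]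
  have hr : 0 < 2 * s + 3 := by linarith only [hs75]
  have key : ((1 ≤ a ^ 2 - 2 ∧ 8 / 5 ≤ s) ∨ (31 / 25 ≤ a ^ 2 - 2 ∧ 7 / 5 ≤ s) ∨ (309 / 500 ≤ a ^ 2 - 2 ∧ 2 ≤ s)) →
      (s + 1) * (1 + e * V) ≤ H + w := by
    intro hl
    have hA : 0 < a ^ 2 - 2 := by
      rcases hl with ⟨h1, _⟩ | ⟨h1, _⟩ | ⟨h1, _⟩ <;> linarith only [h1]
    have h1 := r3_lab hl
    have h2 := r3_e (by linarith only [hA] : 0 < a ^ 2 - 2 + 1) hr he he1 hee h1
    exact r3a hA.le hs2 hs0 hτ he hee h2 hw hV0 hVH hH hN hK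
  rcases ha with ha | ha | ha
  · -- `m1 = 5`
    have ha1 : 809 / 500 ≤ a := by nlinarith only [hV, hV0, ha]
    rcases le_or_gt 2 s with h1 | h1
    · exact key (Or.inr (Or.inr ⟨by linarith only [ha, ha1], h1⟩))
    · have hs1 : 0 < s + 1 := by linarith only [hs75]
      have hτ' : τ = 1 / (s + 1) := by
        rw [eq_div_iff hs1.ne']
        exact hτ
      have hz0 : 0 ≤ (a ^ 2 - 2) * V + s * w - H := by
        rcases hz with h2 | h2
        · exact h2.ge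
        · by_contra hcon
          have := mul_nonpos_of_nonneg_of_nonpos ha0.le (not_le.1 hcon).le
          linarith only [h2, this]
      have h5 := Pool.Agent.Helper80.DY.r5 (a := a) (s := s) (e := e) (h := a * H) (v := a * V) (Y := w) ha ha0 hs2 hs0
        h1.le (by
          have : e * (e + 1 / e) = e * ((a ^ 2 - 2) + s ^ 2) := by
            field_simp
            linarith only [hee]
          exact mul_left_cancel₀ he.ne' this) he he1 hV hw (by
          have : (a ^ 2 - 2) * (a * V) + s * (a * w) - a * H = a * ((a ^ 2 - 2) * V + s * w - H) := by ring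
          rw [this]
          exact mul_nonneg ha0.le hz0) (by
          have : a * w < a * (s * H) := mul_lt_mul_of_pos_left hP ha0
          linarith only [this]) (by
          linear_combination a ^ 2 * hN) (by
          have e1 : 2 * a / (s + 1) * (a * H + a * w) = a ^ 2 * (2 * τ * (H + w)) := by
            rw [hτ']
            ring
          rw [e1]
          have e2 := mul_le_mul_of_nonneg_left hK (sq_nonneg a)
          linarith only [e2])
      have e3 : a * ((s + 1) * (1 + e * V)) ≤ a * (H + w) := by linarith only [h5]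
      exact le_of_mul_le_mul_left e3 ha0
  · rcases hs with h1 | h1
    · -- `(6, 4)`
      have hA : a ^ 2 - 2 = 1 := by linarith only [ha]
      rw [hA, one_mul] at hH hz
      have hV3 : 1 / 3 ≤ V ^ 2 := by
        have e1 : (a * V) ^ 2 = 3 * V ^ 2 := by rw [mul_pow, ha]
        have e2 : (1 : ℝ) ≤ (a * V) ^ 2 := by nlinarith only [hV]
        linarith only [e1, e2]
      have hz' : V + s * w - H = 0 ∨ (0 < V + s * w - H ∧ 1 / 3 ≤ (V + s * w - H) ^ 2) := by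
        rcases hz with h2 | h2
        · exact Or.inl h2
        · right
          constructor
          · by_contra hcon
            have := mul_nonpos_of_nonneg_of_nonpos ha0.le (not_lt.1 hcon)
            linarith only [h2, this]
          · have e1 : (a * (V + s * w - H)) ^ 2 = 3 * (V + s * w - H) ^ 2 := by rw [mul_pow, ha]
            have e2 : (1 : ℝ) ≤ (a * (V + s * w - H)) ^ 2 := by nlinarith only [h2]
            linarith only [e1, e2]
      refine r64 h1 hs0 hτ he he1 ?_ hw hV0 hV3 (by linarith only [hH]) hz' hK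
      rw [hA, h1] at hee
      linarith only [hee]
    · refine key (Or.inl ⟨by linarith only [ha], ?_⟩)
      nlinarith only [hs75, h1]
  · exact key (Or.inr (Or.inl ⟨by linarith only [ha], hs75⟩))

/-- the numerical part -/
theorem g2c_num {b1 b2 : ℝ} {R : ℝ → ℝ → ℝ → Prop} (h : RT b1 b2 0 R) {g x1 x2 f1 f2 r1 r2 τ : ℝ}
    (hx : R g x1 x2) (p1 : 1 ≤ x1) (fx : g + x1 * f1 + x2 * f2 = 0) (hf1 : 0 ≤ f1)
    (hB1 : x1 ≤ b1 * g) (hcR : g ≤ b1 * x1 + b2 * x2) (hw0 : 0 < 2 * b2 * g - x2)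
    (hG2 : 0 < 2 * b2) (hG3 : 0 < (2 * b2) ^ 2 - 1) (hm : 2 * b2 * f2 + 1 < 0)
    (hpos : 0 < ((2 * b2) ^ 2 - 1) * f2 + 2 * b2) (hτ : τ * (2 * b2 + 1) = 1)
    (hF : -f2 * (1 + (b1 * x1 + b2 * x2 - g)) - τ < x2 - b2 * g)
    (hw : 0 ≤ 1 + 2 * b1 * f1 + 2 * b2 * f2) (hr : -τ < r2)
    (hrw : ∀ e, 0 < e → e ≤ 1 → e ^ 2 + 1 = (((2 * b1) ^ 2 - 2) + (2 * b2) ^ 2) * e →
      -e ≤ 1 + 2 * b1 * r1 + 2 * b2 * r2)
    (hrx : g + x1 * r1 + x2 * r2 ≤ 1) : False := by
  obtain ⟨a, ha⟩ : ∃ a, a = 2 * b1 := ⟨_, rfl⟩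
  obtain ⟨s, hs⟩ : ∃ s, s = 2 * b2 := ⟨_, rfl⟩
  have hb1 : b1 = a / 2 := by linarith only [ha]
  have hb2 : b2 = s / 2 := by linarith
  -- the fan
  have hx2 := h.r2 _ _ _ hx
  have hw1 := (h.z1 hx2 (by linarith only [p1])).2.2
  have hx0 := h.r0 _ _ _ hx2
  have he3 := (h.z1 hx0 (by linarith only [p1])).1
  have hx1 := h.r1 _ _ _ hx0
  obtain ⟨w, hwd⟩ : ∃ w, w = s * g - x2 := ⟨_, rfl⟩
  have ew : 2 * b2 * g + 2 * 0 * x1 - x2 = w := by rw [hwd, hs]; ring
  rw [ew] at hw1 he3 hx1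
  have hwpos : 0 < w := by rw [hwd, hs]; linarith only [hw0]
  have hw1' : 1 ≤ w := by
    rcases hw1 with h1 | h1 <;> linarith
  obtain ⟨p, hp⟩ : ∃ p, p = a * x1 + s * w - g := ⟨_, rfl⟩
  have ep : 2 * b1 * x1 + 2 * b2 * w - g = p := by rw [hp, ha, hs]
  rw [ep] at he3 hx1
  have hz := (h.z2 hx1 hwpos).2.1
  have ez : 2 * b1 * p + 2 * 0 * w - x1 = a * p - x1 := by rw [ha]; ring
  rw [ez] at hz
  have hg0 : 0 < g := by
    have hb : 0 < b1 ∨ b1 ≤ 0 := lt_or_ge 0 b1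
    rcases hb with hb | hb
    · by_contra hcon
      have := mul_nonpos_of_nonneg_of_nonpos hb.le (not_lt.1 hcon)
      linarith only [p1, hB1, this]
    · have hb' := h.b1n
      have hb'' : b1 = 0 := le_antisymm hb hb'
      rw [hb'', zero_mul] at hB1
      linarith only [p1, hB1]
  have ha0 : 0 < a := by
    by_contra hcon
    have : b1 * g ≤ 0 := mul_nonpos_of_nonpos_of_nonneg (by linarith only [hb1, hcon]) hg0.le
    linarith only [p1, hB1, this]
  rw [← hs] at hG2 hG3 hm hpos hτ hw hrw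
  rw [← ha] at hw hrw
  -- signs
  have hp0 : 0 ≤ p := by rcases he3 with h1 | h1 <;> linarith only [h1]
  have hz0 : 0 ≤ a * p - x1 := by rcases hz with h1 | h1 <;> linarith only [h1]
  have k1 : 0 < w * ((s ^ 2 - 1) * f2 + s) := mul_pos hwpos hpos
  have k2 : 0 ≤ p * -(s * f2 + 1) := mul_nonneg hp0 (by linarith only [hm])
  -- `φ (a_3) < 0`
  have ka : f1 + a * (s * f2 + 1) < 0 := by
    by_contra hcon
    have k3 := mul_nonneg (by linarith only [p1] : 0 ≤ x1) (not_lt.1 hcon)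
    have k4 : p * -(s * f2 + 1) + w * ((s ^ 2 - 1) * f2 + s) + x1 * (f1 + a * (s * f2 + 1)) = 0 := by
      rw [hp, hwd]
      linear_combination fx
    linarith only [k1, k2, k3, k4]
  have k3 : 0 ≤ (a * p - x1) * -(f1 + a * (s * f2 + 1)) := mul_nonneg hz0 (by linarith only [ka])
  -- `φ (w_3) < 0`
  have kw : -(s * f2 + 1) + a * (f1 + a * (s * f2 + 1)) < 0 := by
    by_contra hcon
    have k5 := mul_nonneg hp0 (not_lt.1 hcon)
    have k4 : (a * p - x1) * -(f1 + a * (s * f2 + 1)) + p * (-(s * f2 + 1) + a * (f1 + a * (s * f2 + 1))) +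
        w * ((s ^ 2 - 1) * f2 + s) = 0 := by
      rw [hp, hwd]
      linear_combination fx
    linarith only [k1, k3, k5, k4]
  have hbz : RT b2 b1 0 (fun g x1 x2 => R g x2 x1) := h.swap
  have hla : a ^ 2 = a + 1 ∨ a ^ 2 = 3 ∨ 81 / 25 ≤ a ^ 2 := by
    rcases lab6 hbz ha with h1 | h1 | ⟨_, h1⟩ | ⟨_, h1⟩ | ⟨_, h1⟩ | ⟨_, h1⟩
    · linarith only [ha0, h1]
    · exfalso
      rw [h1] at kw
      linarith only [hf1, kw]
    · exfalso
      have : -(s * f2 + 1) + a * (f1 + a * (s * f2 + 1)) = 1 + a * f1 + s * f2 + (a ^ 2 - 2) * (s * f2 + 1) := by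
        ring
      rw [this, h1] at kw
      linarith only [hw, kw]
    · exact Or.inl h1
    · exact Or.inr (Or.inl h1)
    · exact Or.inr (Or.inr h1)
  have hls : s ^ 2 = 2 ∨ s + 1 ≤ s ^ 2 := by
    rcases lab6 h hs with h1 | h1 | ⟨_, h1⟩ | ⟨_, h1⟩ | ⟨_, h1⟩ | ⟨_, h1⟩
    · linarith only [hG2, h1]
    · rw [h1] at hG3
      norm_num at hG3
    · exact Or.inl h1
    · exact Or.inr h1.ge
    · right
      nlinarith only [h1]
    · right
      nlinarith only [h1]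
  have hs2 : 2 ≤ s ^ 2 := by
    rcases hls with h1 | h1
    · exact h1.ge
    · nlinarith only [hG2, h1]
  have ha2 : 2 < a ^ 2 := by
    rcases hla with h1 | h1 | h1
    · nlinarith only [ha0, h1]
    · linarith only [h1]
    · linarith only [h1]
  have hs1 : 1 < s := by nlinarith only [hG3, hG2]
  have hτ0 : 0 < τ := by
    by_contra hcon
    have := mul_nonpos_of_nonpos_of_nonneg (not_lt.1 hcon) (by linarith only [hs1] : 0 ≤ s + 1)
    linarith
  -- `e`
  obtain ⟨c, hc⟩ : ∃ c, c = (a ^ 2 - 2 + s ^ 2) / 2 := ⟨_, rfl⟩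
  have hc1 : 1 ≤ c := by rw [hc]; linarith only [hs2, ha2]
  obtain ⟨y, hy⟩ : ∃ y, y = Real.sqrt (c ^ 2 - 1) := ⟨_, rfl⟩
  have hy0 : 0 ≤ y := by rw [hy]; exact Real.sqrt_nonneg _
  have hy2 : y ^ 2 = c ^ 2 - 1 := by
    rw [hy]
    exact Real.sq_sqrt (by nlinarith only [hc1])
  obtain ⟨e, he⟩ : ∃ e, e = c - y := ⟨_, rfl⟩
  have w1 : e ^ 2 + 1 = ((a ^ 2 - 2) + s ^ 2) * e := by
    have : (a ^ 2 - 2) + s ^ 2 = 2 * c := by rw [hc]; ring
    rw [this, he]
    linear_combination hy2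
  have w2 : 0 < e := by
    rw [he]
    nlinarith only [hc1, hy2]
  have w3 : e ≤ 1 := by
    rw [he]
    nlinarith only [hy0, hy2]
  have hrw' := hrw e w2 w3 w1
  -- scaled letters
  obtain ⟨V, hV⟩ : ∃ V, V = x1 / a := ⟨_, rfl⟩
  have hx1V : x1 = a * V := by
    rw [hV]
    field_simp
  have hV0 : 0 < V := by
    rw [hV]
    positivity
  obtain ⟨H, hH⟩ : ∃ H, H = g - V := ⟨_, rfl⟩
  have hg : g = H + V := by linarith only [hH]
  have hx2w : x2 = s * (H + V) - w := by rw [hwd, ← hg]; ring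
  have hN : H ^ 2 + V ^ 2 + w ^ 2 - (a ^ 2 - 2) * H * V - s * (H + V) * w = 1 := by
    have hn := h.n _ _ _ hx
    rw [hx1V, hx2w, hg, hb1, hb2] at hn
    linear_combination hn
  have hVH : V ≤ H := by
    rw [hb1, hx1V, hg] at hB1
    have : a * (2 * V) ≤ a * (H + V) := by linarith only [hB1]
    have := le_of_mul_le_mul_left this ha0
    linarith only [this]
  have hH0 : 0 < H := by linarith
  -- `κ`
  obtain ⟨κ, hκ⟩ : ∃ κ, κ = -f2 := ⟨_, rfl⟩
  have hκs : 1 < s * κ := by rw [hκ]; linarith only [hm]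
  have hκP : H ≤ κ * (x2 - s * V) := by
    have e1 : 0 ≤ V * (1 + a * f1 + s * f2) := mul_nonneg hV0.le hw
    have e2 : V * (1 + a * f1 + s * f2) = κ * (x2 - s * V) - H := by
      rw [hκ, hH]
      rw [hx1V] at fx
      linear_combination fx
    linarith only [e1, e2]
  have hκ0 : 0 < κ := by
    by_contra hcon
    have := mul_nonpos_of_nonneg_of_nonpos hG2.le (not_lt.1 hcon)
    linarith only [hκs, this]
  have hP0 : 0 < x2 - s * V := by
    by_contra hcon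
    have := mul_nonpos_of_nonneg_of_nonpos hκ0.le (not_lt.1 hcon)
    linarith only [hH0, hκP, this]
  have hPw : w < s * H := by
    rw [hx2w] at hP0
    linarith only [hP0]
  obtain ⟨cR, hcRd⟩ : ∃ cR, cR = b1 * x1 + b2 * x2 - g := ⟨_, rfl⟩
  have hcR0 : 0 ≤ cR := by linarith only [hcR, hcRd]
  rw [← hcRd, ← hκ] at hF
  have hHs : s * w + (a ^ 2 - 2) * V ≤ 2 * H := by
    have e1 : s * (κ * (1 + cR) - τ) < s * (x2 - b2 * g) := mul_lt_mul_of_pos_left hF hG2
    have e2 : 1 * (1 + cR) ≤ s * κ * (1 + cR) := mul_le_mul_of_nonneg_right hκs.le (by linarith only [hcR0])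
    have e3 : 1 + cR - s * τ < s * (x2 - b2 * g) := by linarith only [e1, e2]
    have e4 : s * (x2 - b2 * g) - cR = H - s * w / 2 - (a ^ 2 - 2) * V / 2 := by
      rw [hcRd, hb1, hb2, hx1V, hx2w, hg]
      ring
    have e5 : 1 - s * τ = τ := by linarith only [hτ]
    linarith only [hτ0, e3, e4, e5]
  have hK : V ^ 2 ≤ H ^ 2 - s * H * w + w ^ 2 + 1 - 2 * τ * (H + w) := by
    have e1 : H * (1 + cR) ≤ κ * (x2 - s * V) * (1 + cR) := mul_le_mul_of_nonneg_right hκP (by linarith only [hcR0])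
    have e2 : (x2 - s * V) * (κ * (1 + cR) - τ) < (x2 - s * V) * (x2 - b2 * g) := mul_lt_mul_of_pos_left hF hP0
    have e3 : H * (1 + cR) < (x2 - s * V) * (x2 - b2 * g + τ) := by linarith only [e1, e2]
    have e4 : H ^ 2 - s * H * w + w ^ 2 + 1 - 2 * τ * (H + w) - V ^ 2 =
        2 * ((x2 - s * V) * (x2 - b2 * g + τ) - H * (1 + cR)) := by
      rw [hcRd, hb1, hb2, hx1V, hx2w, hg]
      linear_combination (-1) * hN - (2 * H) * hτ
    linarith only [e3, e4]
  have hz' : (a ^ 2 - 2) * V + s * w - H = 0 ∨ 1 ≤ a * ((a ^ 2 - 2) * V + s * w - H) := by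
    have e1 : a * p - x1 = a * ((a ^ 2 - 2) * V + s * w - H) := by
      rw [hp, hx1V, hg]
      ring
    rw [e1] at hz
    rcases hz with h1 | h1
    · left
      rcases mul_eq_zero.1 h1 with h2 | h2
      · linarith only [ha0, h2]
      · exact h2
    · exact Or.inr h1
  have hfin := r3_all ha0 hla hG2 hls hτ w2 w3 w1 hw1' (by linarith only [p1, hx1V]) hVH hHs hz' hPw hN hK
  -- the value
  have v1 : 0 ≤ V * (1 + a * r1 + s * r2 + e) := mul_nonneg hV0.le (by linarith only [hrw'])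
  have v2 : 0 < (x2 - s * V) * (r2 + τ) := mul_pos hP0 (by linarith only [hr])
  have v3 : g + x1 * r1 + x2 * r2 = V * (1 + a * r1 + s * r2 + e) + (x2 - s * V) * (r2 + τ) +
      (τ * (H + w) - e * V) := by
    rw [hx1V, hx2w, hg]
    linear_combination (-H) * hτ
  have v4 : τ * ((s + 1) * (1 + e * V)) ≤ τ * (H + w) := mul_le_mul_of_nonneg_left hfin hτ0.le
  have v5 : τ * ((s + 1) * (1 + e * V)) = 1 + e * V := by linear_combination (1 + e * V) * hτ
  linarith only [hrx, v1, v2, v3, v4, v5]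

end Pool.Agent.Helper62.DY
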