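import Pool.Agent.Helper62.DY.G2w2
import Pool.Agent.Helper7.DY.Gap2
import Pool.Agent.Helper23.DY.F1

/-!
# GAP2, index 3, `φ(w) ≥ 0` (MP_d13a5e_al)
-/

set_option autoImplicit false

namespace Pool.Agent.Helper62.DY

open _root_.DY (Z1 C01 Tri rf sq Str Loc Canon Xs Good G2c GP2)

section final

variable {E : Type*} [AddCommGroup E] [Module ℝ E] {Ψ : Set E} {B : E →ₗ[ℝ] E →ₗ[ℝ] ℝ}

/-- no root of the flat of `t` and `d2` vanishes at `F` -/
theorem xs_hz {ρ φ : E →ₗ[ℝ] ℝ} {t d1 d2 x x' : E} {g x1 x2 g' x1' x2' : ℝ}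
    (X : Xs Ψ B ρ φ t d1 d2 x x' g x1 x2 g' x1' x2') (p q : ℝ) (hm : p • t + (0 : ℝ) • d1 + q • d2 ∈ Ψ) :
    p + q * φ d2 ≠ 0 := by
  intro h0
  have hT := X.L.tri
  obtain ⟨u, hue⟩ : ∃ u : E, u = p • t + (0 : ℝ) • d1 + q • d2 := ⟨_, rfl⟩
  have hum : u ∈ Ψ := by
    rw [hue]
    exact hm
  have hfu : φ u = 0 := by
    rw [hue, X.L.val_φ]
    linarith only [h0]
  obtain ⟨α, β, e⟩ := X.L.sp u hum
  rw [hfu, zero_smul, add_zero] at e
  have hd1 : α * x1 + β * x1' = 0 := by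
    have e2 : (α * g + β * g' - p) • t + (α * x1 + β * x1') • d1 + (α * x2 + β * x2' - q) • d2 = 0 := by
      have e3 : (α * g + β * g' - p) • t + (α * x1 + β * x1') • d1 + (α * x2 + β * x2' - q) • d2 =
        (α • (g • t + x1 • d1 + x2 • d2) + β • (g' • t + x1' • d1 + x2' • d2)) -
        (p • t + (0 : ℝ) • d1 + q • d2) := by module
      rw [e3, ← X.e, ← X.e', ← e, ← hue, sub_self]
    exact (hT.indep _ _ _ e2).2.1
  have p1 := X.p1
  have p1' := X.p1'
  rcases X.L.cxx u hum _ _ e with (⟨h6, h7⟩ | ⟨h6, h7⟩ | ⟨h6, h7⟩) | (⟨h6, h7⟩ | ⟨h6, h7⟩ | ⟨h6, h7⟩)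
  · rw [h6, h7] at hd1
    linarith only [hd1, p1']
  · rw [h6, h7] at hd1
    linarith only [hd1, p1]
  · have := mul_pos (by linarith only [h6] : 0 < α) (by linarith only [p1] : 0 < x1)
    have := mul_pos (by linarith only [h7] : 0 < β) (by linarith only [p1'] : 0 < x1')
    linarith
  · have h8 : α = 0 := by linarith only [h6]
    have h9 : β = -1 := by linarith only [h7]
    rw [h8, h9] at hd1
    linarith only [hd1, p1']
  · have h8 : α = -1 := by linarith only [h6]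
    have h9 : β = 0 := by linarith only [h7]
    rw [h8, h9] at hd1
    linarith only [hd1, p1]
  · have := mul_pos (by linarith only [h6] : 0 < -α) (by linarith only [p1] : 0 < x1)
    have := mul_pos (by linarith only [h7] : 0 < -β) (by linarith only [p1'] : 0 < x1')
    linarith

/-- `F` is not on the negative side of `d1` as seen from `x`: `B x d1 ≤ 0` -/
theorem xs_Bd1 {ρ φ : E →ₗ[ℝ] ℝ} {t d1 d2 x x' : E} {g x1 x2 g' x1' x2' : ℝ}
    (X : Xs Ψ B ρ φ t d1 d2 x x' g x1 x2 g' x1' x2') : B x d1 ≤ 0 := by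
  have h1 : (x2 * x1' - x1 * x2') • d1 = x2 • x' - x2' • x + ((x2 * x1' - x1 * x2') * φ d1) • t := by
    have f1 : g + x1 * φ d1 + x2 * φ d2 = 0 := by
      have := X.c.fz
      linarith only [this]
    have f2 : g' + x1' * φ d1 + x2' * φ d2 = 0 := by
      have := X.c'.fz
      linarith only [this]
    have h : (x2 * x1' - x1 * x2') * φ d1 = x2' * g - x2 * g' := by
      linear_combination x2 * f2 - x2' * f1
    rw [h, X.e, X.e']
    module
  have h2 := congrArg (B x) h1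
  simp only [map_add, map_sub, map_smul, smul_eq_mul, X.L.tri.one x X.L.xm] at h2
  have h3 := X.delta
  have h4 := X.cxx
  have h5 := X.cR_nonneg
  have h6 : x2 * B x x' ≤ 0 := mul_nonpos_of_nonneg_of_nonpos (by linarith only [X.p2]) h4
  have h7 : (x2 * x1' - x1 * x2') * φ d1 * B x t ≤ 0 :=
    mul_nonpos_of_nonneg_of_nonpos (mul_nonneg h3.le X.h1) (by linarith only [h5])
  have h8 : (x2 * x1' - x1 * x2') * B x d1 ≤ 0 := by
    have := X.p2'
    linarith only [h2, h6, h7, this]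
  by_contra hcon
  have := mul_pos h3 (not_le.1 hcon)
  linarith only [h8, this]

/-- **(c)** of [GAP2] -/
theorem g2c : G2c Ψ B := by
  intro ρ φ t d1 d2 x x' g x1 x2 g' x1' x2' X h0 hb1 hb2 ⟨_, hw, hG⟩
  have hT := X.L.tri
  have hRT := rt_of_tri hT
  have hx : g • t + x1 • d1 + x2 • d2 ∈ Ψ := by
    rw [← X.e]
    exact X.L.xm
  have q1 : sq (-B t d2) 1 = 1 := rfl
  have q2 : sq (-B t d2) 2 = 2 * -B t d2 := by
    rw [sq_rec, q1, sq_zero]
    ring
  have q3 : sq (-B t d2) 3 = (2 * -B t d2) ^ 2 - 1 := by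
    rw [sq_rec, q2, q1]
    ring
  have g2 := hG.hs 1 (by norm_num)
  have g3 := hG.hs 2 le_rfl
  have g4 := hG.hm 1 (by norm_num)
  have g5 := hG.hpos
  have e2 : (1 : ℕ) + 1 = 2 := rfl
  have e3 : (2 : ℕ) + 1 = 3 := rfl
  rw [e2, q2] at g2
  rw [e3, q3] at g3
  rw [e2, q2, q1] at g4
  rw [e3, q3, q2] at g5
  have fx : g + x1 * φ d1 + x2 * φ d2 = 0 := by
    have := X.c.fz
    linarith only [this]
  have fx' : g' + x1' * φ d1 + x2' * φ d2 = 0 := by
    have := X.c'.fz
    linarith only [this]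
  have hm : 2 * -B t d2 * φ d2 + 1 < 0 := by
    have h1 := (hRT.pencil 1).1
    rw [q1, e2, q2] at h1
    have h2 := xs_hz X _ _ h1
    rcases g4.lt_or_eq with h3 | h3
    · exact h3
    · exfalso
      apply h2
      linarith only [h3]
  have S2 : Str (-B t d2) (φ d2) (ρ d2) := by
    refine X.L.str d2 hT.hc ⟨0, 0, 1, by module, Or.inl rfl, Or.inl rfl, Or.inr le_rfl⟩ ?_
    intro h
    have := (hT.indep 1 0 (-1) (by rw [h]; module)).1
    exact one_ne_zero this
  have hnk := hG.nk S2 X.h2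
  rw [e3, q3, q2] at hnk
  obtain ⟨τ, hτ⟩ : ∃ τ, τ = 1 / (2 * -B t d2 + 1) := ⟨_, rfl⟩
  have hs1 : 0 < 2 * -B t d2 + 1 := by linarith only [g2]
  have hτ1 : τ * (2 * -B t d2 + 1) = 1 := by
    rw [hτ]
    exact one_div_mul_cancel hs1.ne'
  have hr2 : -τ < ρ d2 := by
    have k1 : 0 < (2 * -B t d2 - 1) * ((2 * -B t d2 + 1) * ρ d2 + 1) := by
      linarith only [hnk]
    have k2 : 0 < 2 * -B t d2 - 1 := by
      by_contra hcon
      have := mul_nonpos_of_nonneg_of_nonpos hs1.le (not_lt.1 hcon)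
      linarith only [g3, this]
    have k3 := (mul_pos_iff_of_pos_left k2).1 k1
    have k4 : 0 < (2 * -B t d2 + 1) * (ρ d2 + τ) := by linarith only [hτ1, k3]
    have k5 := (mul_pos_iff_of_pos_left hs1).1 k4
    linarith only [k5]
  have hF := X.F1' hr2
  have hcR := X.cR_nonneg
  have hBd1 := xs_Bd1 X
  rw [X.Bxt] at hF hcR
  rw [X.Bxd2] at hF
  rw [X.Bxd1] at hBd1
  rw [h0] at hF hBd1
  -- `w_2 > 0`
  have hw2 : 0 < 2 * -B t d2 * g - x2 := by
    have hD := X.delta
    have hc2 : 0 ≤ 2 * -B t d2 * g' - x2' := by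
      have hx' : g' • t + x1' • d1 + x2' • d2 ∈ Ψ := by
        rw [← X.e']
        exact X.L.xm'
      have h1 := (hRT.z1 (hRT.r2 _ _ _ hx') (by linarith only [X.p1'])).2.2
      rw [h0] at h1
      rcases h1 with h1 | h1 <;> linarith only [h1]
    have h1 : x1' * (2 * -B t d2 * g - x2) = x1 * (2 * -B t d2 * g' - x2') +
        (x2 * x1' - x1 * x2') * -(2 * -B t d2 * φ d2 + 1) := by
      linear_combination (2 * -B t d2) * (x1' * fx - x1 * fx')
    have h2 := mul_nonneg (by linarith only [X.p1] : 0 ≤ x1) hc2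
    have h3 := mul_pos hD (by linarith only [hm] : 0 < -(2 * -B t d2 * φ d2 + 1))
    have h4 : 0 < x1' * (2 * -B t d2 * g - x2) := by linarith only [h1, h2, h3]
    exact (mul_pos_iff_of_pos_left (by linarith only [X.p1'])).1 h4
  have hR0 : RT (-B t d1) (-B t d2) 0 (fun g x1 x2 => g • t + x1 • d1 + x2 • d2 ∈ Ψ) := by
    have := hRT
    rw [h0, neg_zero] at this
    exact this
  refine g2c_num (r1 := ρ d1) (r2 := ρ d2) hR0 hx X.p1 fx X.h1 (by linarith only [hBd1]) (by linarith only [hcR]) hw2 g2 g3 hm g5 hτ1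
    (by linarith only [hF]) hw hr2 ?_ ?_
  · -- the value of `w`
    intro e he0 he1 hee
    have hwm := hR0.r1 _ _ _ (hR0.r2 _ _ _ hR0.e0)
    obtain ⟨u, hue⟩ : ∃ u : E, u = (1 : ℝ) • t + (2 * -B t d1) • d1 + (2 * -B t d2) • d2 := ⟨_, rfl⟩
    have hum : u ∈ Ψ := by
      have e4 : u = (1 : ℝ) • t + (2 * -B t d1 * 1 + 2 * 0 * (2 * -B t d2 * 1 + 2 * 0 * 0 - 0) - 0) • d1 +
          (2 * -B t d2 * 1 + 2 * 0 * 0 - 0) • d2 := by
        rw [hue]
        module
      rw [e4]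
      exact hwm
    have hut : u ≠ t := by
      intro h
      have := (hT.indep 0 (2 * -B t d1) (2 * -B t d2) (by
        have e1 : (0 : ℝ) • t + (2 * -B t d1) • d1 + (2 * -B t d2) • d2 =
          ((1 : ℝ) • t + (2 * -B t d1) • d1 + (2 * -B t d2) • d2) - t := by module
        rw [e1, ← hue, h, sub_self])).2.1
      linarith only [hb1, this]
    have huc : u ∈ C01 t d1 d2 :=
      ⟨1, 2 * -B t d1, 2 * -B t d2, hue, Or.inr le_rfl, Or.inr (by linarith only [hb1]), Or.inr (by linarith only [hb2])⟩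
    have hS := X.L.str u hum huc hut
    have hBu : -B t u = ((2 * -B t d1) ^ 2 - 2 + (2 * -B t d2) ^ 2) / 2 := by
      rw [hue]
      simp only [map_add, map_smul, smul_eq_mul, hT.one t hT.ha]
      ring
    have hru : ρ u = 1 + 2 * -B t d1 * ρ d1 + 2 * -B t d2 * ρ d2 := by
      rw [hue, X.L.val_ρ]
    have hcu : 1 ≤ -B t u := by
      have e1 : 2 * (-B t u) * e = e ^ 2 + 1 := by
        rw [hBu, hee]
        ring
      by_contra hcon
      have e2 : 2 * (-B t u) * e < 2 * e := by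
        have : -B t u * e < 1 * e := mul_lt_mul_of_pos_right (not_le.1 hcon) he0
        linarith only [this]
      nlinarith only [e1, e2, sq_nonneg (e - 1)]
    have := ult_low hS hcu (ω := e) (by
      have e1 : 2 * (-B t u) * e = e ^ 2 + 1 := by
        rw [hBu, hee]
        ring
      linarith only [e1]) he0 he1
    rw [hru] at this
    exact this
  · have := X.rx_le
    rw [X.rx] at this
    exact this

end final

end Pool.Agent.Helper62.DY
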