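import Mathlib

/-!
# Lemma A for MP_d13a5e_al: the adjacent cell, a pure inequality

`D = (t, d1, d2)` is a chamber, `b1 = -B(t,d1)`, `b2 = -B(t,d2)`, `bO = -B(d1,d2)`, `x = g t + x1 d1 + x2 d2` a root.
`Ch b s a d`: `s = s_(i-1)`, `a = s_i`, `d = s_(i-2)` are three consecutive Chebyshev values at a vertex, `i ≥ 3`.
`lemA33`: if `x` is positive at the point where the lines number `i - 1` of the left vertex and number `i' - 1` of the
right vertex meet, then its value at the incenter of `t` and the lines number `i` and `i'` is at least that of `t`.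
`lemA32`: the same for `i' = 2`; here the coefficient of the reflected root is used.
-/

set_option autoImplicit false

namespace Pool.Agent.Helper62.DY

/-- three consecutive Chebyshev values `d, s, a` -/
structure Ch (b s a d : ℝ) : Prop where
  ad : a * d = s ^ 2 - 1
  sum : a + d = 2 * b * s
  a1 : 1 ≤ a
  d1 : 1 ≤ d
  s0 : 0 < s
  had : d ≤ a + 2

/-- a quadratic polynomial on a triangle -/
theorem tri {p q r l m f0 w1 w2 W X1 X2 u v : ℝ} (hp : 0 ≤ p) (hq : 0 ≤ q) (hr : 0 ≤ r) (hw1 : 0 < w1) (hw2 : 0 < w2)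
    (hX1 : w1 * X1 = W) (hX2 : w2 * X2 = W) (h0 : f0 ≤ 0) (h1 : f0 + l * X1 + p * X1 ^ 2 ≤ 0)
    (h2 : f0 + m * X2 + q * X2 ^ 2 ≤ 0) (hu : 0 ≤ u) (hv : 0 ≤ v) (huv : w1 * u + w2 * v ≤ W) :
    f0 + l * u + m * v + p * u ^ 2 + q * v ^ 2 - r * (u * v) ≤ 0 := by
  have hW : 0 ≤ W := le_trans (by positivity) huv
  rcases hW.eq_or_lt with hW0 | hW0
  · have h3 : w1 * u = 0 := by nlinarith only [huv, hW0, mul_nonneg hw1.le hu, mul_nonneg hw2.le hv]
    have h4 : w2 * v = 0 := by nlinarith only [huv, hW0, mul_nonneg hw1.le hu, mul_nonneg hw2.le hv]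
    have h5 : u = 0 := by
      rcases mul_eq_zero.1 h3 with h | h
      · exact absurd h hw1.ne'
      · exact h
    have h6 : v = 0 := by
      rcases mul_eq_zero.1 h4 with h | h
      · exact absurd h hw2.ne'
      · exact h
    rw [h5, h6]
    linarith only [h0]
  · have hX1p : 0 < X1 := by
      by_contra h
      have := mul_nonpos_of_nonneg_of_nonpos hw1.le (not_lt.1 h)
      linarith only [hX1, hW0, this]
    have hX2p : 0 < X2 := by
      by_contra h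
      have := mul_nonpos_of_nonneg_of_nonpos hw2.le (not_lt.1 h)
      linarith
    -- the barycentric coordinates
    obtain ⟨x, hx⟩ : ∃ x, x = u / X1 := ⟨_, rfl⟩
    obtain ⟨y, hy⟩ : ∃ y, y = v / X2 := ⟨_, rfl⟩
    have hux : u = x * X1 := by rw [hx]; field_simp
    have hvy : v = y * X2 := by rw [hy]; field_simp
    have hx0 : 0 ≤ x := by rw [hx]; positivity
    have hy0 : 0 ≤ y := by rw [hy]; positivity
    have hxy : x + y ≤ 1 := by
      have h3 : (x + y) * W ≤ 1 * W := by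
        have h4 : (x + y) * W = w1 * u + w2 * v := by
          rw [hux, hvy]
          linear_combination (-x) * hX1 + (-y) * hX2
        rw [h4, one_mul]
        exact huv
      exact le_of_mul_le_mul_right h3 hW0
    have e1 : x ^ 2 ≤ x := by nlinarith only [hx0, hy0, hxy]
    have e2 : y ^ 2 ≤ y := by nlinarith only [hy0, hxy, e1]
    have e3 := mul_le_mul_of_nonneg_left e1 (mul_nonneg hp (sq_nonneg X1))
    have e4 := mul_le_mul_of_nonneg_left e2 (mul_nonneg hq (sq_nonneg X2))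
    have e5 : 0 ≤ r * (u * v) := mul_nonneg hr (mul_nonneg hu hv)
    have e6 := mul_le_mul_of_nonneg_left h1 hx0
    have e7 := mul_le_mul_of_nonneg_left h2 hy0
    have e8 := mul_nonpos_of_nonneg_of_nonpos (by linarith only [hxy] : 0 ≤ 1 - x - y) h0
    have e9 : f0 + l * u + m * v + p * u ^ 2 + q * v ^ 2 =
        (1 - x - y) * f0 + x * (f0 + l * X1 + p * X1 ^ 2) + y * (f0 + m * X2 + q * X2 ^ 2) -
          (p * X1 ^ 2 * x - p * X1 ^ 2 * x ^ 2) - (q * X2 ^ 2 * y - q * X2 ^ 2 * y ^ 2) := by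
      rw [hux, hvy]
      ring
    nlinarith only [e3, e4, e5, e6, e7, e8, e9]

section ch

variable {b s a d : ℝ}

theorem Ch.s2 (h : Ch b s a d) : 2 ≤ s ^ 2 := by nlinarith only [h.ad, h.a1, h.d1]

theorem Ch.s1 (h : Ch b s a d) : 1 < s := by nlinarith only [h.s2, h.s0]

theorem Ch.tau_pos (h : Ch b s a d) : 0 < (s - 1) / a := div_pos (by linarith only [h.s1]) (by linarith only [h.a1])

theorem Ch.tau_le (h : Ch b s a d) : (s - 1) / a ≤ 1 := by
  rw [div_le_one (by linarith only [h.a1])]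
  nlinarith only [h.ad, h.had, h.a1, h.s0]

/-- `τ ≤ 2 b - 1` -/
theorem Ch.tau_le' (h : Ch b s a d) : (s - 1) / a ≤ 2 * b - 1 := by
  have ha : 0 < a := by linarith only [h.a1]
  have h1 : 2 * b = (a + d) / s := by rw [h.sum]; field_simp [h.s0.ne']
  have h2 : s - 1 ≤ a := by
    have := h.tau_le
    rwa [div_le_one ha] at this
  rw [h1, le_sub_iff_add_le, div_add_one ha.ne', div_le_div_iff₀ ha h.s0]
  have h3 : (a + d) * a - (s - 1 + a) * s = (a - 1) * (a + 1 - s) := by linear_combination h.ad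
  have h4 : 0 ≤ (a - 1) * (a + 1 - s) := mul_nonneg (by linarith only [h.a1]) (by linarith only [h2])
  linarith only [h3, h4]

/-- `κ - τ` -/
theorem Ch.sub (h : Ch b s a d) : d / s - (s - 1) / a = (s - 1) / (a * s) := by
  have ha : a ≠ 0 := by linarith only [h.a1]
  have hs := h.s0.ne'
  field_simp
  linear_combination h.ad

theorem Ch.w_pos (h : Ch b s a d) : 0 < (s - 1) / (a * s) :=
  div_pos (by linarith only [h.s1]) (mul_pos (by linarith only [h.a1]) h.s0)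

/-- the coefficient on the lower face -/
theorem Ch.pL (h : Ch b s a d) : (d / s) ^ 2 + 1 - 2 * b * (d / s) = 1 / s ^ 2 := by
  have hs := h.s0.ne'
  have h1 : 2 * b = (a + d) / s := by rw [h.sum]; field_simp
  rw [h1]
  field_simp
  linear_combination -h.ad

/-- the coefficient on the upper face -/
theorem Ch.pU (h : Ch b s a d) : ((s - 1) / a) ^ 2 + 1 - 2 * b * ((s - 1) / a) = (1 - ((s - 1) / a) ^ 2) / s := by
  have ha : a ≠ 0 := by linarith only [h.a1]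
  have hs := h.s0.ne'
  have h1 : 2 * b = (a + d) / s := by rw [h.sum]; field_simp
  rw [h1]
  field_simp
  linear_combination -(s - 1) * h.ad

/-- `g' ^ 2 ≤ N` -/
theorem Ch.g2 (h : Ch b s a d) : (s - (s - 1) / a) ^ 2 ≤ s ^ 2 - 1 := by
  have ha : 0 < a := by linarith only [h.a1]
  have h1 := h.tau_le
  have h0 := h.tau_pos
  have h2 : 1 / (s + 1) ≤ (s - 1) / a := by
    rw [div_le_div_iff₀ (by linarith only [h.s0]) ha]
    nlinarith only [h.ad, h.d1, h.a1]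
  have h3 : 1 ≤ (s - 1) / a * (s + 1) := by
    rw [div_le_iff₀ (by linarith only [h.s0])] at h2
    exact h2
  obtain ⟨ρ, hρ⟩ : ∃ ρ, ρ = (s - 1) / a := ⟨_, rfl⟩
  rw [← hρ] at h0 h1 h3 ⊢
  have h4 := h.s2
  have h5 := h.s1
  -- `(1 - ρ) (ρ (s + 1) - 1) ≥ 0`
  have h6 : 0 ≤ (1 - ρ) * (ρ * (s + 1) - 1) := mul_nonneg (by linarith only [h1]) (by linarith only [h3])
  have h7 : 0 ≤ (s - 1) * (ρ * (s + 1) - 1) := mul_nonneg (by linarith only [h5]) (by linarith only [h3])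
  nlinarith only [h0, h4, h5, h6, h7, mul_nonneg h0.le (sub_nonneg.2 h1)]

end ch

/-- the key quadratic inequality -/
theorem quad {Y E M N s : ℝ} (hY : 0 ≤ Y) (hE : 0 ≤ E) (hE2 : 4 * (M * N) ≤ E ^ 2) (hM : M = s ^ 2 - 1)
    (hs : 2 ≤ s ^ 2) (hs0 : 0 < s) (hN : 0 ≤ N) (hYN : Y ^ 2 ≤ (s + 1) ^ 2 * N) : Y ^ 2 - E * Y - N ≤ 0 := by
  by_contra hcon
  have hcon := not_le.1 hcon
  have h1 : E * Y < Y ^ 2 - N := by linarith only [hcon]
  have hEY : 0 ≤ E * Y := mul_nonneg hE hY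
  have h2 : (E * Y) ^ 2 < (Y ^ 2 - N) ^ 2 := pow_lt_pow_left₀ h1 hEY (by norm_num)
  obtain ⟨Z, hZ⟩ : ∃ Z, Z = Y ^ 2 := ⟨_, rfl⟩
  have h3 : (E * Y) ^ 2 = E ^ 2 * Z := by rw [hZ]; ring
  rw [h3, ← hZ] at h2
  rw [← hZ] at hYN h1
  have hZ0 : 0 ≤ Z := by rw [hZ]; positivity
  have h4 : 4 * (M * N) * Z ≤ E ^ 2 * Z := mul_le_mul_of_nonneg_right hE2 hZ0
  have hZN : N < Z := by linarith only [hEY, h1]
  have h5 : 0 ≤ (Z - N) * ((s + 1) ^ 2 * N - Z) := mul_nonneg (by linarith only [hZN]) (by linarith only [hYN])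
  have hK : ((s + 1) ^ 2 - 1) ^ 2 - 4 * M * (s + 1) ^ 2 ≤ 0 := by
    rw [hM]
    have h6 : ((s + 1) ^ 2 - 1) ^ 2 - 4 * (s ^ 2 - 1) * (s + 1) ^ 2 = -((s ^ 2 - 2) * (3 * s ^ 2 + 4 * s + 2)) := by ring
    rw [h6]
    have h7 : 0 ≤ (s ^ 2 - 2) * (3 * s ^ 2 + 4 * s + 2) := mul_nonneg (by linarith only [hs]) (by positivity)
    linarith only [h7]
  have h8 : Z * ((s + 1) ^ 2 - 1 - 4 * M) - N * ((s + 1) ^ 2 - 1) ≤ 0 := by
    rcases le_total ((s + 1) ^ 2 - 1 - 4 * M) 0 with h9 | h9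
    · have e1 := mul_nonpos_of_nonneg_of_nonpos hZ0 h9
      have e2 : 0 ≤ N * ((s + 1) ^ 2 - 1) := mul_nonneg hN (by nlinarith only [hYN, hZN, hK, h9, e1])
      linarith only [e1, e2]
    · have e1 := mul_le_mul_of_nonneg_right hYN h9
      have e2 : (s + 1) ^ 2 * N * ((s + 1) ^ 2 - 1 - 4 * M) - N * ((s + 1) ^ 2 - 1) =
          N * (((s + 1) ^ 2 - 1) ^ 2 - 4 * M * (s + 1) ^ 2) := by ring
      have e3 := mul_nonpos_of_nonneg_of_nonpos hN hK
      linarith only [e1, e3]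
  have h10 := mul_nonpos_of_nonneg_of_nonpos hN h8
  have h11 : (Z - N) ^ 2 - 4 * (M * N) * Z =
      N * (Z * ((s + 1) ^ 2 - 1 - 4 * M) - N * ((s + 1) ^ 2 - 1)) - (Z - N) * ((s + 1) ^ 2 * N - Z) := by ring
  linarith only [h2, h4, h5, h10]

/-- the norm minus one -/
def Phi (b1 b2 bO g x1 x2 : ℝ) : ℝ := g ^ 2 + x1 ^ 2 + x2 ^ 2 - 2 * b1 * g * x1 - 2 * b2 * g * x2 - 2 * bO * x1 * x2 - 1

section two

variable {b1 s a d b2 s' a' d' bO : ℝ}

/-- the cross coefficient on the lower face -/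
theorem cross (h : Ch b1 s a d) (h' : Ch b2 s' a' d') :
    2 * b1 * (d' / s') + 2 * b2 * (d / s) - 2 * (d / s) * (d' / s') = (a * d' + a' * d) / (s * s') := by
  have hs := h.s0.ne'
  have hs' := h'.s0.ne'
  have h1 : 2 * b1 = (a + d) / s := by rw [h.sum]; field_simp
  have h2 : 2 * b2 = (a' + d') / s' := by rw [h'.sum]; field_simp
  rw [h1, h2]
  field_simp
  ring

theorem PhiL (h : Ch b1 s a d) (h' : Ch b2 s' a' d') (x1 x2 : ℝ) :
    Phi b1 b2 bO (d / s * x1 + d' / s' * x2) x1 x2 =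
      x1 ^ 2 / s ^ 2 + x2 ^ 2 / s' ^ 2 - ((a * d' + a' * d) / (s * s') + 2 * bO) * (x1 * x2) - 1 := by
  have e1 := h.pL
  have e2 := h'.pL
  have e3 := cross h h'
  unfold Phi
  have e4 : x1 ^ 2 / s ^ 2 = x1 ^ 2 * (1 / s ^ 2) := by ring
  have e5 : x2 ^ 2 / s' ^ 2 = x2 ^ 2 * (1 / s' ^ 2) := by ring
  rw [e4, e5, ← e1, ← e2, ← e3]
  ring

theorem PhiU (h : Ch b1 s a d) (h' : Ch b2 s' a' d') (x1 x2 : ℝ) :
    Phi b1 b2 bO (1 + (s - 1) / a * x1 + (s' - 1) / a' * x2) x1 x2 =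
      (1 - ((s - 1) / a) ^ 2) / s * x1 ^ 2 + (1 - ((s' - 1) / a') ^ 2) / s' * x2 ^ 2
        - (2 * b1 * ((s' - 1) / a') + 2 * b2 * ((s - 1) / a) + 2 * bO - 2 * ((s - 1) / a) * ((s' - 1) / a')) * (x1 * x2)
        + (2 * ((s - 1) / a) - 2 * b1) * x1 + (2 * ((s' - 1) / a') - 2 * b2) * x2 := by
  rw [← h.pU, ← h'.pU]
  unfold Phi
  ring

/-- the vertex `(x1*, 1)` -/
theorem vertex (h : Ch b1 s a d) (h' : Ch b2 s' a' d') (hbO : 0 ≤ bO) {X : ℝ}
    (hX : (s - 1) / (a * s) * X = 1 - (s' - 1) / (a' * s')) : Phi b1 b2 bO (d / s * X + d' / s' * 1) X 1 ≤ 0 := by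
  have ha : 0 < a := by linarith only [h.a1]
  have ha' : 0 < a' := by linarith only [h'.a1]
  have hs := h.s0
  have hs' := h'.s0
  have hs1 := h.s1
  rw [PhiL h h']
  obtain ⟨Y, hY⟩ : ∃ Y, Y = s' * X / s := ⟨_, rfl⟩
  obtain ⟨G, hG⟩ : ∃ G, G = s' - (s' - 1) / a' := ⟨_, rfl⟩
  have hG0 : 0 < G := by
    have h1 : (s' - 1) / a' ≤ s' - 1 := div_le_self (by linarith only [h'.s1]) h'.a1
    rw [hG]
    linarith only [h1]
  have hYG : Y * (s - 1) = G * a := by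
    have h1 : (s - 1) * X * a' * s' = (a' * s' - (s' - 1)) * (a * s) := by
      field_simp at hX
      linarith only [hX]
    rw [hY, hG]
    field_simp
    linarith only [h1]
  have hY0 : 0 ≤ Y := by
    have h1 : 0 ≤ Y * (s - 1) := by rw [hYG]; positivity
    exact nonneg_of_mul_nonneg_left h1 (by linarith only [hs1])
  have hYle : Y ≤ (s + 1) * G := by
    have h1 : Y * (s - 1) ≤ (s + 1) * G * (s - 1) := by
      rw [hYG]
      have h2 : a ≤ s ^ 2 - 1 := by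
        rw [← h.ad]
        nlinarith only [ha, h.d1]
      nlinarith only [mul_le_mul_of_nonneg_left h2 hG0.le]
    exact le_of_mul_le_mul_right h1 (by linarith only [hs1])
  have hN : 0 ≤ s' ^ 2 - 1 := by linarith only [h'.s2]
  have hY2 : Y ^ 2 ≤ (s + 1) ^ 2 * (s' ^ 2 - 1) := by
    have h1 : Y ^ 2 ≤ ((s + 1) * G) ^ 2 := pow_le_pow_left₀ hY0 hYle 2
    have h2 := h'.g2
    rw [← hG] at h2
    rw [mul_pow] at h1
    exact h1.trans (mul_le_mul_of_nonneg_left h2 (by positivity))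
  have hE : 0 ≤ a * d' + a' * d := by
    have := h.a1
    have := h.d1
    have := h'.a1
    have := h'.d1
    positivity
  have hE2 : 4 * ((s ^ 2 - 1) * (s' ^ 2 - 1)) ≤ (a * d' + a' * d) ^ 2 := by
    rw [← h.ad, ← h'.ad]
    nlinarith only [sq_nonneg (a * d' - a' * d)]
  have hq := quad hY0 hE hE2 rfl h.s2 hs hN hY2
  have hfin : s' ^ 2 * (X ^ 2 / s ^ 2 + 1 ^ 2 / s' ^ 2 - ((a * d' + a' * d) / (s * s') + 2 * bO) * (X * 1) - 1) =
      (Y ^ 2 - (a * d' + a' * d) * Y - (s' ^ 2 - 1)) - 2 * bO * (s * s') * Y := by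
    rw [hY]
    field_simp
    ring
  have h3 : 0 ≤ 2 * bO * (s * s') * Y := by positivity
  have h4 : s' ^ 2 * (X ^ 2 / s ^ 2 + 1 ^ 2 / s' ^ 2 - ((a * d' + a' * d) / (s * s') + 2 * bO) * (X * 1) - 1) ≤ 0 := by
    rw [hfin]
    linarith only [hq, h3]
  exact nonpos_of_mul_nonpos_right h4 (by positivity)

theorem Phi_swap (b1 b2 bO g x1 x2 : ℝ) : Phi b1 b2 bO g x1 x2 = Phi b2 b1 bO g x2 x1 := by
  unfold Phi
  ring

/-- **Lemma A, `i, i' ≥ 3`** -/
theorem lemA33 (h : Ch b1 s a d) (h' : Ch b2 s' a' d') (hbO : 0 ≤ bO) {g x1 x2 : ℝ} (hx1 : 1 ≤ x1) (hx2 : 1 ≤ x2)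
    (hn : Phi b1 b2 bO g x1 x2 = 0) (hu : d / s * x1 + d' / s' * x2 < g) :
    1 + (s - 1) / a * x1 + (s' - 1) / a' * x2 ≤ g := by
  by_contra hcon
  have hF := not_le.1 hcon
  have ha : 0 < a := by linarith only [h.a1]
  have ha' : 0 < a' := by linarith only [h'.a1]
  have hs := h.s0
  have hs' := h'.s0
  have hw1 := h.w_pos
  have hw2 := h'.w_pos
  have hsub := h.sub
  have hsub' := h'.sub
  obtain ⟨w1, hw1d⟩ : ∃ w, w = (s - 1) / (a * s) := ⟨_, rfl⟩
  obtain ⟨w2, hw2d⟩ : ∃ w, w = (s' - 1) / (a' * s') := ⟨_, rfl⟩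
  rw [← hw1d] at hw1 hsub
  rw [← hw2d] at hw2 hsub'
  have hle : w1 * x1 + w2 * x2 < 1 := by
    rw [← hsub, ← hsub']
    nlinarith
  -- the vertices
  obtain ⟨X1, hX1⟩ : ∃ X, X = (1 - w2) / w1 := ⟨_, rfl⟩
  obtain ⟨X2, hX2⟩ : ∃ X, X = (1 - w1) / w2 := ⟨_, rfl⟩
  have hX1' : w1 * X1 = 1 - w2 := by rw [hX1]; field_simp
  have hX2' : w2 * X2 = 1 - w1 := by rw [hX2]; field_simp
  have v1 := vertex h h' hbO (X := X1) (by rw [← hw1d, ← hw2d]; exact hX1')
  have v2 := vertex h' h hbO (X := X2) (by rw [← hw1d, ← hw2d]; exact hX2')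
  rw [Phi_swap] at v2
  have hg1 : d / s * X1 + d' / s' * 1 = 1 + (s - 1) / a * X1 + (s' - 1) / a' * 1 := by
    have e1 : d / s = (s - 1) / a + w1 := by linarith only [hsub]
    have e2 : d' / s' = (s' - 1) / a' + w2 := by linarith only [hsub']
    rw [e1, e2]
    linear_combination hX1'
  have hg2 : d' / s' * X2 + d / s * 1 = 1 + (s - 1) / a * 1 + (s' - 1) / a' * X2 := by
    have e1 : d / s = (s - 1) / a + w1 := by linarith only [hsub]
    have e2 : d' / s' = (s' - 1) / a' + w2 := by linarith only [hsub']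
    rw [e1, e2]
    linear_combination hX2'
  have v1' := v1
  rw [hg1] at v1'
  have v2' := v2
  rw [hg2] at v2'
  have v2l : Phi b1 b2 bO (d / s * 1 + d' / s' * X2) 1 X2 ≤ 0 := by
    have e1 : d / s * 1 + d' / s' * X2 = d' / s' * X2 + d / s * 1 := by ring
    rw [e1]
    exact v2
  -- corner (1,1)
  have c1 : Phi b1 b2 bO (d / s * 1 + d' / s' * 1) 1 1 ≤ 0 := by
    rw [PhiL h h']
    have e1 : 1 / s ^ 2 ≤ 1 / 2 := one_div_le_one_div_of_le (by norm_num) h.s2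
    have e2 : 1 / s' ^ 2 ≤ 1 / 2 := one_div_le_one_div_of_le (by norm_num) h'.s2
    have e3 : 0 ≤ (a * d' + a' * d) / (s * s') + 2 * bO := by
      have := h.d1
      have := h'.d1
      positivity
    have e4 : (1 : ℝ) ^ 2 / s ^ 2 = 1 / s ^ 2 := by rw [one_pow]
    have e5 : (1 : ℝ) ^ 2 / s' ^ 2 = 1 / s' ^ 2 := by rw [one_pow]
    rw [e4, e5]
    nlinarith only [e1, e2, e3]
  have c2 : Phi b1 b2 bO (1 + (s - 1) / a * 1 + (s' - 1) / a' * 1) 1 1 ≤ 0 := by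
    have e1 := h.tau_le'
    have e2 := h'.tau_le'
    have e3 := h.tau_pos
    have e4 := h'.tau_pos
    unfold Phi
    nlinarith
  -- the two faces
  have hx1' : 0 ≤ x1 - 1 := by linarith only [hx1]
  have hx2' : 0 ≤ x2 - 1 := by linarith only [hx2]
  have hWle : w1 * (x1 - 1) + w2 * (x2 - 1) ≤ 1 - w1 - w2 := by linarith only [hle]
  have hL : Phi b1 b2 bO (d / s * x1 + d' / s' * x2) x1 x2 ≤ 0 := by
    rw [PhiL h h'] at c1 v1 v2l ⊢
    obtain ⟨r, hr⟩ : ∃ r, r = (a * d' + a' * d) / (s * s') + 2 * bO := ⟨_, rfl⟩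
    have hr0 : 0 ≤ r := by
      have := h.d1
      have := h'.d1
      rw [hr]
      positivity
    rw [← hr] at c1 v1 v2l ⊢
    have key := tri (p := 1 / s ^ 2) (q := 1 / s' ^ 2) (r := r) (l := 2 / s ^ 2 - r) (m := 2 / s' ^ 2 - r)
      (f0 := 1 / s ^ 2 + 1 / s' ^ 2 - r - 1) (w1 := w1) (w2 := w2) (W := 1 - w1 - w2) (X1 := X1 - 1) (X2 := X2 - 1)
      (u := x1 - 1) (v := x2 - 1) (by positivity) (by positivity) hr0 hw1 hw2 (by linarith only [hX1']) (by linarith only [hX2'])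
      (by refine le_trans (le_of_eq ?_) c1; ring)
      (by refine le_trans (le_of_eq ?_) v1; ring)
      (by refine le_trans (le_of_eq ?_) v2l; ring) hx1' hx2' hWle
    refine le_trans (le_of_eq ?_) key
    ring
  have hU : Phi b1 b2 bO (1 + (s - 1) / a * x1 + (s' - 1) / a' * x2) x1 x2 ≤ 0 := by
    rw [PhiU h h'] at c2 v1' v2' ⊢
    have t1 := h.tau_le
    have t2 := h'.tau_le
    have t3 := h.tau_pos
    have t4 := h'.tau_pos
    have t5 := h.tau_le'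
    have t6 := h'.tau_le'
    have e1 : 0 ≤ (1 - ((s - 1) / a) ^ 2) / s := div_nonneg (by nlinarith only [t1, t3]) hs.le
    have e2 : 0 ≤ (1 - ((s' - 1) / a') ^ 2) / s' := div_nonneg (by nlinarith only [t2, t4]) hs'.le
    have e3 : 0 ≤ 2 * b1 * ((s' - 1) / a') + 2 * b2 * ((s - 1) / a) + 2 * bO - 2 * ((s - 1) / a) * ((s' - 1) / a') := by
      nlinarith only [hbO, t4, mul_nonneg t3.le t4.le, mul_nonneg t4.le (by linarith only [t5] : 0 ≤ 2 * b1 - 1 - (s - 1) / a),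
        mul_nonneg t3.le (by linarith only [t6] : 0 ≤ 2 * b2 - 1 - (s' - 1) / a')]
    obtain ⟨p, hp⟩ : ∃ p, p = (1 - ((s - 1) / a) ^ 2) / s := ⟨_, rfl⟩
    obtain ⟨q, hq⟩ : ∃ q, q = (1 - ((s' - 1) / a') ^ 2) / s' := ⟨_, rfl⟩
    obtain ⟨r, hr⟩ : ∃ r, r = 2 * b1 * ((s' - 1) / a') + 2 * b2 * ((s - 1) / a) + 2 * bO -
      2 * ((s - 1) / a) * ((s' - 1) / a') := ⟨_, rfl⟩
    obtain ⟨l, hl⟩ : ∃ l, l = 2 * ((s - 1) / a) - 2 * b1 := ⟨_, rfl⟩
    obtain ⟨m, hm⟩ : ∃ m, m = 2 * ((s' - 1) / a') - 2 * b2 := ⟨_, rfl⟩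
    rw [← hp, ← hq, ← hr, ← hl, ← hm] at c2 v1' v2' ⊢
    rw [← hp] at e1
    rw [← hq] at e2
    rw [← hr] at e3
    have key := tri (p := p) (q := q) (r := r) (l := 2 * p - r + l) (m := 2 * q - r + m)
      (f0 := p + q - r + l + m) (w1 := w1) (w2 := w2) (W := 1 - w1 - w2) (X1 := X1 - 1) (X2 := X2 - 1)
      (u := x1 - 1) (v := x2 - 1) e1 e2 e3 hw1 hw2 (by linarith only [hX1']) (by linarith only [hX2'])
      (by refine le_trans (le_of_eq ?_) c2; ring)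
      (by refine le_trans (le_of_eq ?_) v1'; ring)
      (by refine le_trans (le_of_eq ?_) v2'; ring) hx1' hx2' hWle
    refine le_trans (le_of_eq ?_) key
    ring
  -- convexity in `g`
  obtain ⟨gL, hgL⟩ : ∃ y, y = d / s * x1 + d' / s' * x2 := ⟨_, rfl⟩
  obtain ⟨gU, hgU⟩ : ∃ y, y = 1 + (s - 1) / a * x1 + (s' - 1) / a' * x2 := ⟨_, rfl⟩
  rw [← hgL] at hL hu
  rw [← hgU] at hU hF
  have e1 : (gU - gL) * Phi b1 b2 bO g x1 x2 = (gU - g) * Phi b1 b2 bO gL x1 x2 + (g - gL) * Phi b1 b2 bO gU x1 x2 -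
      (gU - gL) * ((g - gL) * (gU - g)) := by
    unfold Phi
    ring
  rw [hn, mul_zero] at e1
  have e2 := mul_nonpos_of_nonneg_of_nonpos (by linarith only [hF] : 0 ≤ gU - g) hL
  have e3 := mul_nonpos_of_nonneg_of_nonpos (by linarith only [hu] : 0 ≤ g - gL) hU
  have e4 : 0 < (gU - gL) * ((g - gL) * (gU - g)) :=
    mul_pos (by linarith only [hu, hF]) (mul_pos (by linarith only [hu]) (by linarith only [hF]))
  linarith only [e1, e2, e3, e4]

end two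

end Pool.Agent.Helper62.DY
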