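import Pool.Agent.Helper62.DY.LemA

/-!
# Lemma A for MP_d13a5e_al, one vertex

`x = g t + x1 d1 + x2 d2` is a root of the triangle system with simple roots `t, d1, d2`; `V = t ∩ d2` is a vertex with
Chebyshev values `d = s_(i-2)`, `s = s_(i-1)`, `a = s_i`, `i ≥ 3`. If `x` is positive at the point where the line number
`i - 1` of `V` meets `d1`, that is `κ x2 < g`, then `1 + τ x2 ≤ g`.
The coefficient facts are `1 ≤ x1`, `1 ≤ S - x1` with `S = 2 b1 g + 2 bO x2`; for right angles some more are needed.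
-/

set_option autoImplicit false

namespace Pool.Agent.Helper62.DY

section

variable {b s a d β1 β2 g x2 : ℝ}

/-- convexity on `[1, X]` -/
theorem conv1 {α β γ X x : ℝ} (hα : 0 ≤ α) (h1 : α + β + γ ≤ 0) (h2 : α * X ^ 2 + β * X + γ ≤ 0) (hx1 : 1 ≤ x)
    (hx2 : x ≤ X) : α * x ^ 2 + β * x + γ ≤ 0 := by
  rcases (hx1.trans hx2).eq_or_lt with h | h
  · have : x = 1 := le_antisymm (by rw [h]; exact hx2) hx1
    rw [this]
    linarith only [h1]
  · have e1 : (X - 1) * (α * x ^ 2 + β * x + γ) = (X - x) * (α + β + γ) + (x - 1) * (α * X ^ 2 + β * X + γ) -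
        α * ((X - 1) * ((x - 1) * (X - x))) := by ring
    have e2 := mul_nonpos_of_nonneg_of_nonpos (by linarith only [hx2] : 0 ≤ X - x) h1
    have e3 := mul_nonpos_of_nonneg_of_nonpos (by linarith only [hx1] : 0 ≤ x - 1) h2
    have e4 : 0 ≤ α * ((X - 1) * ((x - 1) * (X - x))) :=
      mul_nonneg hα (mul_nonneg (by linarith only [h]) (mul_nonneg (by linarith only [hx1]) (by linarith only [hx2])))
    exact nonpos_of_mul_nonpos_right (by rw [e1]; linarith only [e2, e3, e4]) (by linarith only [h])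

/-- the general strip lemma -/
theorem stripA (h : Ch b s a d) (h1 : 0 ≤ β1) (h2 : 0 ≤ β2) (h12 : 1 ≤ 2 * β1 ∨ 1 ≤ 2 * β2)
    (hC : a ≤ (s - 1) * (2 * β1 * d + 2 * β2 * s)) (hx : 1 ≤ x2) (hu : d / s * x2 < g)
    (hq : 2 * β1 * g + 2 * β2 * x2 ≤ g ^ 2 + x2 ^ 2 - 2 * b * g * x2) : 1 + (s - 1) / a * x2 ≤ g := by
  by_contra hcon
  have hF := not_le.1 hcon
  have ha : 0 < a := by linarith only [h.a1]
  have hs := h.s0
  have hs1 := h.s1
  have hw := h.w_pos
  have hsub := h.sub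
  have hpL := h.pL
  have hpU := h.pU
  have ht0 := h.tau_pos
  have ht1 := h.tau_le
  have ht2 := h.tau_le'
  obtain ⟨κ, hκ⟩ : ∃ κ, κ = d / s := ⟨_, rfl⟩
  obtain ⟨τ, hτ⟩ : ∃ τ, τ = (s - 1) / a := ⟨_, rfl⟩
  obtain ⟨w, hwd⟩ : ∃ w, w = (s - 1) / (a * s) := ⟨_, rfl⟩
  rw [← hκ] at hu hpL hsub
  rw [← hτ] at hF hpU ht0 ht1 ht2 hsub
  rw [← hwd] at hw hsub
  -- the end point
  obtain ⟨X, hX⟩ : ∃ X, X = 1 / w := ⟨_, rfl⟩
  have hwX : w * X = 1 := by rw [hX]; field_simp
  have hxX : x2 ≤ X := by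
    have h3 : w * x2 ≤ w * X := by
      rw [hwX, ← hsub]
      linarith only [hu, hF]
    exact le_of_mul_le_mul_left h3 hw
  have hX1 : 1 ≤ X := hx.trans hxX
  -- the value at the end point
  have hXv : X = a * s / (s - 1) := by
    rw [hX, hwd]
    field_simp
  have hlow : X / s ^ 2 ≤ 2 * β1 * κ + 2 * β2 := by
    rw [hXv, hκ, div_div, div_le_iff₀ (mul_pos (by linarith only [hs1]) (by positivity))]
    have e1 : (2 * β1 * (d / s) + 2 * β2) * ((s - 1) * s ^ 2) = s * ((s - 1) * (2 * β1 * d + 2 * β2 * s)) := by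
      field_simp
    rw [e1, mul_comm a s]
    exact mul_le_mul_of_nonneg_left hC hs.le
  -- lower face
  have fL : ∀ y, 0 ≤ y → y ≤ X → (κ * y) ^ 2 + y ^ 2 - 2 * b * (κ * y) * y - 2 * β1 * (κ * y) - 2 * β2 * y ≤ 0 := by
    intro y hy hyX
    have e1 : (κ * y) ^ 2 + y ^ 2 - 2 * b * (κ * y) * y - 2 * β1 * (κ * y) - 2 * β2 * y =
        y * (y * (κ ^ 2 + 1 - 2 * b * κ) - (2 * β1 * κ + 2 * β2)) := by ring
    rw [e1, hpL]
    apply mul_nonpos_of_nonneg_of_nonpos hy
    have e2 : y * (1 / s ^ 2) ≤ X / s ^ 2 := by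
      rw [mul_one_div]
      exact div_le_div_of_nonneg_right hyX (by positivity)
    linarith
  -- upper face
  have fU : (1 + τ * x2) ^ 2 + x2 ^ 2 - 2 * b * (1 + τ * x2) * x2 - 2 * β1 * (1 + τ * x2) - 2 * β2 * x2 ≤ 0 := by
    have e0 : 0 ≤ τ ^ 2 + 1 - 2 * b * τ := by
      rw [hpU]
      exact div_nonneg (by nlinarith only [ht1, ht0]) hs.le
    have e1 := conv1 (α := τ ^ 2 + 1 - 2 * b * τ) (β := 2 * τ - 2 * b - 2 * β1 * τ - 2 * β2) (γ := 1 - 2 * β1)
      (X := X) (x := x2) e0 ?_ ?_ hx hxX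
    · refine le_trans (le_of_eq ?_) e1
      ring
    · have e2 : τ ^ 2 + 1 - 2 * b * τ + (2 * τ - 2 * b - 2 * β1 * τ - 2 * β2) + (1 - 2 * β1) =
          (1 + τ) * (1 + τ - 2 * b) + 1 - 2 * β1 * (1 + τ) - 2 * β2 := by ring
      rw [e2]
      have e3 := mul_nonpos_of_nonneg_of_nonpos (by linarith only [ht0] : 0 ≤ 1 + τ) (by linarith only [ht2] : 1 + τ - 2 * b ≤ 0)
      have e4 : 0 ≤ 2 * β1 * τ := by positivity
      rcases h12 with h12 | h12 <;> nlinarith
    · have e2 : 1 + τ * X = κ * X := by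
        have : κ = τ + w := by linarith only [hsub]
        rw [this]
        linear_combination -hwX
      have e3 := fL X (by linarith only [hX1]) le_rfl
      rw [← e2] at e3
      refine le_trans (le_of_eq ?_) e3
      ring
  have fLx := fL x2 (by linarith only [hx]) hxX
  -- convexity in `g`
  obtain ⟨gU, hgU⟩ : ∃ y, y = 1 + τ * x2 := ⟨_, rfl⟩
  obtain ⟨gL, hgL⟩ : ∃ y, y = κ * x2 := ⟨_, rfl⟩
  rw [← hgU] at fU hF
  rw [← hgL] at fLx hu
  have e1 : (gU - gL) * (g ^ 2 + x2 ^ 2 - 2 * b * g * x2 - 2 * β1 * g - 2 * β2 * x2) =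
      (gU - g) * (gL ^ 2 + x2 ^ 2 - 2 * b * gL * x2 - 2 * β1 * gL - 2 * β2 * x2) +
      (g - gL) * (gU ^ 2 + x2 ^ 2 - 2 * b * gU * x2 - 2 * β1 * gU - 2 * β2 * x2) -
      (gU - gL) * ((g - gL) * (gU - g)) := by ring
  have e2 := mul_nonpos_of_nonneg_of_nonpos (by linarith only [hF] : 0 ≤ gU - g) fLx
  have e3 := mul_nonpos_of_nonneg_of_nonpos (by linarith only [hu] : 0 ≤ g - gL) fU
  have e4 : 0 < (gU - gL) * ((g - gL) * (gU - g)) :=
    mul_pos (by linarith only [hF, hu]) (mul_pos (by linarith only [hu]) (by linarith only [hF]))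
  have e5 : 0 ≤ (gU - gL) * (g ^ 2 + x2 ^ 2 - 2 * b * g * x2 - 2 * β1 * g - 2 * β2 * x2) :=
    mul_nonneg (by linarith only [hF, hu]) (by linarith only [hq])
  linarith only [e2, e3, e4, e5]

/-- `d = 1` means `i = 3` -/
theorem Ch.eq3 (h : Ch b s a 1) : s = 2 * b ∧ a = s ^ 2 - 1 := by
  have h1 := h.ad
  have h2 := h.sum
  have hs := h.s0
  have h3 : a = s ^ 2 - 1 := by linarith only [h1]
  refine ⟨?_, h3⟩
  have h4 : s * s = 2 * b * s := by nlinarith only [h1, h2]
  exact mul_right_cancel₀ hs.ne' h4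

/-- a linear interpolation argument: `f` is convex in `g` and nonpositive at both ends -/
theorem convg {A gL gU g p q : ℝ} (hA : 0 < A) (hL : A * gL ^ 2 + p * gL + q ≤ 0) (hU : A * gU ^ 2 + p * gU + q ≤ 0)
    (h1 : gL ≤ g) (h2 : g < gU) (h3 : gL < g ∨ A * gL ^ 2 + p * gL + q < 0) : A * g ^ 2 + p * g + q < 0 := by
  have e1 : (gU - gL) * (A * g ^ 2 + p * g + q) = (gU - g) * (A * gL ^ 2 + p * gL + q) +
      (g - gL) * (A * gU ^ 2 + p * gU + q) - A * ((gU - gL) * ((g - gL) * (gU - g))) := by ring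
  have e2 := mul_nonpos_of_nonneg_of_nonpos (by linarith only [h2] : 0 ≤ gU - g) hL
  have e3 := mul_nonpos_of_nonneg_of_nonpos (by linarith only [h1] : 0 ≤ g - gL) hU
  have hlt : (gU - gL) * (A * g ^ 2 + p * g + q) < 0 := by
    rw [e1]
    rcases h3 with h3 | h3
    · have e4 : 0 < A * ((gU - gL) * ((g - gL) * (gU - g))) :=
        mul_pos hA (mul_pos (by linarith only [h1, h2]) (mul_pos (by linarith only [h3]) (by linarith only [h2])))
      linarith only [e2, e3, e4]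
    · have e4 : 0 ≤ A * ((gU - gL) * ((g - gL) * (gU - g))) :=
        mul_nonneg hA.le (mul_nonneg (by linarith only [h1, h2]) (mul_nonneg (by linarith only [h1]) (by linarith only [h2])))
      have e5 : (gU - g) * (A * gL ^ 2 + p * gL + q) < 0 := mul_neg_of_pos_of_neg (by linarith only [h2]) h3
      linarith only [e3, e4, e5]
  by_contra hcon
  have := mul_nonneg (by linarith only [h1, h2] : 0 ≤ gU - gL) (not_lt.1 hcon)
  linarith only [hlt, this]

/-- `i = 3` with the additional fact `x2 + 1 ≤ s g` -/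
theorem strip3 (h : Ch b s a 1) (h1 : 0 ≤ β1) (h2 : 0 ≤ β2) (h12 : 1 ≤ 2 * β1 ∨ 1 ≤ 2 * β2) (hx : 1 ≤ x2)
    (hu : 1 ≤ 2 * b * g - x2) (hq : 2 * β1 * g + 2 * β2 * x2 ≤ g ^ 2 + x2 ^ 2 - 2 * b * g * x2) :
    1 + (s - 1) / a * x2 ≤ g := by
  obtain ⟨hb, haa⟩ := h.eq3
  have hs := h.s0
  have hs1 := h.s1
  have hs2 := h.s2
  have hτ : (s - 1) / a = 1 / (s + 1) := by
    rw [haa, div_eq_div_iff (by nlinarith only [hs2]) (by linarith only [hs1])]
    ring
  rw [hτ]
  rw [← hb] at hu hq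
  by_contra hcon
  have hF := not_le.1 hcon
  have hsx : 1 / (s + 1) * x2 = x2 / (s + 1) := by ring
  rw [hsx] at hF
  -- bound for `x2`
  have hX : x2 ≤ s ^ 2 - 1 := by
    have e1 : s * g < s * (1 + x2 / (s + 1)) := mul_lt_mul_of_pos_left hF hs
    have e2 : (s + 1) * (s * (1 + x2 / (s + 1))) = s * (s + 1) + s * x2 := by field_simp
    have e3 : (s + 1) * (s * g) < (s + 1) * (s * (1 + x2 / (s + 1))) := mul_lt_mul_of_pos_left e1 (by linarith only [hs1])
    rw [e2] at e3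
    have e4 : (s + 1) * (x2 + 1) ≤ (s + 1) * (s * g) := mul_le_mul_of_nonneg_left (by linarith only [hu]) (by linarith only [hs1])
    nlinarith
  -- lower face
  have fL : ((x2 + 1) / s) ^ 2 + x2 ^ 2 - s * ((x2 + 1) / s) * x2 - 2 * β1 * ((x2 + 1) / s) - 2 * β2 * x2 ≤ 0 := by
    have e0 : (0 : ℝ) ≤ 1 / s ^ 2 := by positivity
    have e1 := conv1 (α := 1 / s ^ 2) (β := 2 / s ^ 2 - 1 - 2 * β1 / s - 2 * β2) (γ := 1 / s ^ 2 - 2 * β1 / s)
      (X := s ^ 2 - 1) (x := x2) e0 ?_ ?_ hx hX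
    · refine le_trans (le_of_eq ?_) e1
      field_simp
      ring
    · have e2 : 1 / s ^ 2 + (2 / s ^ 2 - 1 - 2 * β1 / s - 2 * β2) + (1 / s ^ 2 - 2 * β1 / s) =
          (4 - s ^ 2 - 4 * β1 * s - 2 * β2 * s ^ 2) / s ^ 2 := by
        field_simp
        ring
      rw [e2]
      apply div_nonpos_of_nonpos_of_nonneg _ (by positivity)
      rcases h12 with h12 | h12
      · nlinarith only [hs1, hs2, h12, mul_nonneg h2 (sq_nonneg s)]
      · nlinarith only [hs2, h12, mul_nonneg h1 hs.le]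
    · have e2 : 1 / s ^ 2 * (s ^ 2 - 1) ^ 2 + (2 / s ^ 2 - 1 - 2 * β1 / s - 2 * β2) * (s ^ 2 - 1) +
          (1 / s ^ 2 - 2 * β1 / s) = 1 - 2 * β1 * s - 2 * β2 * (s ^ 2 - 1) := by
        field_simp
        ring
      rw [e2]
      rcases h12 with h12 | h12
      · nlinarith only [hs1, h12, mul_nonneg h2 (by linarith only [hs2] : 0 ≤ s ^ 2 - 1)]
      · nlinarith only [hs2, h12, mul_nonneg h1 hs.le]
  -- upper face
  have fU : (1 + x2 / (s + 1)) ^ 2 + x2 ^ 2 - s * (1 + x2 / (s + 1)) * x2 - 2 * β1 * (1 + x2 / (s + 1)) - 2 * β2 * x2 ≤ 0 := by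
    have e0 : 0 ≤ (s + 2) / (s + 1) ^ 2 := by positivity
    have e1 := conv1 (α := (s + 2) / (s + 1) ^ 2) (β := 2 / (s + 1) - s - 2 * β1 / (s + 1) - 2 * β2) (γ := 1 - 2 * β1)
      (X := s ^ 2 - 1) (x := x2) e0 ?_ ?_ hx hX
    · refine le_trans (le_of_eq ?_) e1
      field_simp
      ring
    · have e2 : (s + 2) / (s + 1) ^ 2 + (2 / (s + 1) - s - 2 * β1 / (s + 1) - 2 * β2) + (1 - 2 * β1) =
          ((s + 2) ^ 2 + (s + 1) ^ 2 - s * (s + 2) * (s + 1) - 2 * β1 * (s + 2) * (s + 1) - 2 * β2 * (s + 1) ^ 2)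
            / (s + 1) ^ 2 := by
        field_simp
        ring
      rw [e2]
      apply div_nonpos_of_nonpos_of_nonneg _ (by positivity)
      have e3 : (s + 2) ^ 2 ≤ s * (s + 2) * (s + 1) := by nlinarith only [hs1, hs2]
      rcases h12 with h12 | h12
      · have e4 : (s + 1) ^ 2 ≤ 2 * β1 * ((s + 2) * (s + 1)) := by nlinarith only [hs1, h12]
        have e5 : 0 ≤ 2 * β2 * (s + 1) ^ 2 := by positivity
        nlinarith only [e3, e4, e5]
      · have e4 : (s + 1) ^ 2 ≤ 2 * β2 * (s + 1) ^ 2 := by nlinarith only [h12, sq_nonneg (s + 1)]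
        have e5 : 0 ≤ 2 * β1 * ((s + 2) * (s + 1)) := by positivity
        nlinarith only [e3, e4, e5]
    · have e2 : (s + 2) / (s + 1) ^ 2 * (s ^ 2 - 1) ^ 2 + (2 / (s + 1) - s - 2 * β1 / (s + 1) - 2 * β2) * (s ^ 2 - 1) +
          (1 - 2 * β1) = 1 - 2 * β1 * s - 2 * β2 * (s ^ 2 - 1) := by
        field_simp
        ring
      rw [e2]
      rcases h12 with h12 | h12
      · nlinarith only [hs1, h12, mul_nonneg h2 (by linarith only [hs2] : 0 ≤ s ^ 2 - 1)]
      · nlinarith only [hs2, h12, mul_nonneg h1 hs.le]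
  have hlow : (x2 + 1) / s ≤ g := by
    rw [div_le_iff₀ hs]
    linarith only [hu]
  rcases hlow.eq_or_lt with he | hlt
  · -- `g` is the lower end: `f ≤ 0` there; strictness from the upper end is not needed
    rcases fL.eq_or_lt with h0 | h0
    · -- equality: impossible unless `g` is also the upper end
      exfalso
      have e0 : (0 : ℝ) < 1 := one_pos
      -- use strict inequality of the interior: compare with the convex function at slightly larger `g`
      have e1 : x2 < s ^ 2 - 1 := by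
        rw [← he] at hF
        have e2 : (s + 1) * (x2 + 1) < s * (s + 1 + x2) := by
          rw [div_lt_iff₀ hs] at hF
          have e3 : (s + 1) * ((1 + x2 / (s + 1)) * s) = s * (s + 1 + x2) := by field_simp
          have e4 := mul_lt_mul_of_pos_left hF (by linarith only [hs1] : (0 : ℝ) < s + 1)
          rw [e3] at e4
          exact e4
        nlinarith
      -- strict convexity in `x2`
      have e5 : (s ^ 2 - 2) * 0 = 0 := by ring
      have key : s ^ 2 * (((x2 + 1) / s) ^ 2 + x2 ^ 2 - s * ((x2 + 1) / s) * x2 - 2 * β1 * ((x2 + 1) / s) - 2 * β2 * x2) =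
          (x2 + 1) ^ 2 - s ^ 2 * x2 - 2 * β1 * s * (x2 + 1) - 2 * β2 * s ^ 2 * x2 := by
        field_simp
        ring
      rw [h0, mul_zero] at key
      rcases h12 with h12 | h12
      · have t1 : s * (x2 + 1) ≤ 2 * β1 * s * (x2 + 1) := by
          nlinarith only [mul_nonneg (by linarith only [h12] : 0 ≤ 2 * β1 - 1) (by positivity : 0 ≤ s * (x2 + 1))]
        have t2 : 0 ≤ 2 * β2 * s ^ 2 * x2 := by positivity
        nlinarith only [hs1, key, t1, t2, mul_pos (by linarith only [e1] : 0 < s ^ 2 - 1 - x2) (by linarith only [hx] : 0 < x2)]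
      · have t1 : s ^ 2 * x2 ≤ 2 * β2 * s ^ 2 * x2 := by
          nlinarith only [mul_nonneg (by linarith only [h12] : 0 ≤ 2 * β2 - 1) (by positivity : 0 ≤ s ^ 2 * x2)]
        have t2 : 0 ≤ 2 * β1 * s * (x2 + 1) := by positivity
        nlinarith only [e1, key, t1, t2, mul_nonneg (by linarith only [e1] : 0 ≤ s ^ 2 - 1 - x2) (by linarith only [hx] : 0 ≤ x2 - 1)]
    · rw [← he] at hq
      linarith only [hq, h0]
  · have e1 := convg (A := 1) (gL := (x2 + 1) / s) (gU := 1 + x2 / (s + 1)) (g := g) (p := -(s * x2) - 2 * β1)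
      (q := x2 ^ 2 - 2 * β2 * x2) one_pos (by refine le_trans (le_of_eq ?_) fL; ring)
      (by refine le_trans (le_of_eq ?_) fU; ring) hlow hF (Or.inl hlt)
    have e2 : 1 * g ^ 2 + (-(s * x2) - 2 * β1) * g + (x2 ^ 2 - 2 * β2 * x2) =
      g ^ 2 + x2 ^ 2 - s * g * x2 - 2 * β1 * g - 2 * β2 * x2 := by ring
    rw [e2] at e1
    linarith only [hq, e1]

/-- `b1 = 0`, `i = 3`, `p = 2 bO` with `p ^ 2 ≥ 2` -/
theorem strip3p (h : Ch b s a 1) {p x1 : ℝ} (hp0 : 0 < p) (hp : 2 ≤ p ^ 2) (hx : 1 ≤ x2) (hu : x2 < s * g)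
    (hx1 : 1 ≤ x1) (hx1' : 1 ≤ p * x2 - x1) (hn : x1 * (p * x2 - x1) = g ^ 2 + x2 ^ 2 - s * g * x2 - 1)
    (h3 : 1 ≤ (s ^ 2 - 1) * g - s * x2 + s * p * x1)
    (h3' : 1 ≤ (s ^ 2 - 1) * g - s * x2 + s * p * (p * x2 - x1)) : 1 + (s - 1) / a * x2 ≤ g := by
  obtain ⟨hb, haa⟩ := h.eq3
  have hs := h.s0
  have hs1 := h.s1
  have hs2 := h.s2
  have hs14 : 7 / 5 ≤ s := by nlinarith only [hs1, hs2]
  have hp14 : 7 / 5 ≤ p := by nlinarith only [hp0, hp]
  have hq : p * x2 ≤ g ^ 2 + x2 ^ 2 - s * g * x2 := by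
    nlinarith only [hn, mul_nonneg (by linarith only [hx1] : 0 ≤ x1 - 1) (by linarith only [hx1'] : 0 ≤ p * x2 - x1 - 1)]
  rcases le_or_gt (s + 1) (p * s) with hc | hc
  · -- the general lemma
    refine stripA h (β1 := 0) (β2 := p / 2) le_rfl (by positivity) (Or.inr (by linarith only [hp14])) ?_ hx ?_ ?_
    · rw [haa]
      have e1 : (s - 1) * (2 * 0 * 1 + 2 * (p / 2) * s) = (s - 1) * (p * s) := by ring
      rw [e1]
      nlinarith only [mul_le_mul_of_nonneg_left hc (by linarith only [hs14] : 0 ≤ s - 1)]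
    · rw [div_mul_eq_mul_div, one_mul, div_lt_iff₀ hs]
      linarith only [hu]
    · rw [← hb]
      linarith only [hq]
  · have hτ : (s - 1) / a = 1 / (s + 1) := by
      rw [haa, div_eq_div_iff (by nlinarith only [hs14]) (by linarith only [hs14])]
      ring
    rw [hτ]
    by_contra hcon
    have hF := not_le.1 hcon
    have hsx : 1 / (s + 1) * x2 = x2 / (s + 1) := by ring
    rw [hsx] at hF
    have hglo : x2 / s < g := by
      rw [div_lt_iff₀ hs]
      linarith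
    -- bound for `x2`
    have hX : x2 ≤ s * (s + 1) := by
      have e1 : s * g < s * (1 + x2 / (s + 1)) := mul_lt_mul_of_pos_left hF hs
      have e2 : (s + 1) * (s * (1 + x2 / (s + 1))) = s * (s + 1) + s * x2 := by field_simp
      have e3 : (s + 1) * (s * g) < (s + 1) * (s * (1 + x2 / (s + 1))) := mul_lt_mul_of_pos_left e1 (by linarith only [hs14])
      rw [e2] at e3
      nlinarith only [hu, e1, e2, e3]
    rcases le_total x2 (s ^ 2) with hxs | hxs
    · -- small `x2`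
      have fL : (x2 / s) ^ 2 + x2 ^ 2 - s * (x2 / s) * x2 - p * x2 ≤ 0 := by
        have e1 : (x2 / s) ^ 2 + x2 ^ 2 - s * (x2 / s) * x2 - p * x2 = x2 * (x2 - p * s ^ 2) / s ^ 2 := by
          field_simp
          ring
        rw [e1]
        apply div_nonpos_of_nonpos_of_nonneg _ (by positivity)
        apply mul_nonpos_of_nonneg_of_nonpos (by linarith only [hx])
        nlinarith only [hp14, hxs]
      have fU : (1 + x2 / (s + 1)) ^ 2 + x2 ^ 2 - s * (1 + x2 / (s + 1)) * x2 - p * x2 ≤ 0 := by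
        have e0 : 0 ≤ (s + 2) / (s + 1) ^ 2 := by positivity
        have e1 := conv1 (α := (s + 2) / (s + 1) ^ 2) (β := 2 / (s + 1) - s - p) (γ := 1)
          (X := s ^ 2) (x := x2) e0 ?_ ?_ hx hxs
        · refine le_trans (le_of_eq ?_) e1
          field_simp
          ring
        · have e2 : (s + 2) / (s + 1) ^ 2 + (2 / (s + 1) - s - p) + 1 =
              ((s + 2) + 2 * (s + 1) - (s + p) * (s + 1) ^ 2 + (s + 1) ^ 2) / (s + 1) ^ 2 := by
            field_simp
            ring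
          rw [e2]
          apply div_nonpos_of_nonpos_of_nonneg _ (by positivity)
          have e3 : 9 / 5 * (s + 1) ^ 2 ≤ (s + p - 1) * (s + 1) ^ 2 :=
            mul_le_mul_of_nonneg_right (by linarith only [hs14, hp14]) (sq_nonneg _)
          nlinarith only [hs14, hp14]
        · have e2 : (s + 2) / (s + 1) ^ 2 * (s ^ 2) ^ 2 + (2 / (s + 1) - s - p) * s ^ 2 + 1 =
              ((s + 2) * s ^ 2 + (s + 1) ^ 2 - p * s ^ 2 * (s + 1) ^ 2) / (s + 1) ^ 2 := by
            field_simp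
            ring
          rw [e2]
          apply div_nonpos_of_nonpos_of_nonneg _ (by positivity)
          have e3 : 7 / 5 * (s ^ 2 * (s + 1) ^ 2) ≤ p * (s ^ 2 * (s + 1) ^ 2) :=
            mul_le_mul_of_nonneg_right hp14 (by positivity)
          have e4 : (s + 2) * s ^ 2 + (s + 1) ^ 2 ≤ 7 / 5 * (s ^ 2 * (s + 1) ^ 2) := by
            have e5 : 2 * (s + 1) ^ 2 ≤ s ^ 2 * (s + 1) ^ 2 := mul_le_mul_of_nonneg_right hs2 (sq_nonneg _)
            nlinarith only [e5, mul_nonneg hs.le (sq_nonneg s)]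
          linarith only [e3, e4]
      have e1 := convg (A := 1) (gL := x2 / s) (gU := 1 + x2 / (s + 1)) (g := g) (p := -(s * x2))
        (q := x2 ^ 2 - p * x2) one_pos (by refine le_trans (le_of_eq ?_) fL; ring)
        (by refine le_trans (le_of_eq ?_) fU; ring) hglo.le hF (Or.inl hglo)
      have e2 : 1 * g ^ 2 + -(s * x2) * g + (x2 ^ 2 - p * x2) = g ^ 2 + x2 ^ 2 - s * g * x2 - p * x2 := by ring
      rw [e2] at e1
      linarith only [hq, e1]
    · -- large `x2`
      obtain ⟨Y, hY⟩ : ∃ Y, Y = 1 + s * x2 - (s ^ 2 - 1) * g := ⟨_, rfl⟩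
      have hmul : (s * p * x1 - Y) * (s * p * (p * x2 - x1) - Y) =
          (s * p) ^ 2 * (x1 * (p * x2 - x1)) - Y * (s * p) * (p * x2) + Y ^ 2 := by ring
      have hnn : 0 ≤ (s * p * x1 - Y) * (s * p * (p * x2 - x1) - Y) :=
        mul_nonneg (by linarith only [h3, hY]) (by linarith only [h3', hY])
      rw [hmul, hn] at hnn
      -- `(g + 1) (g - 1 - x2 / s) + Y ^ 2 / (s p) ^ 2 ≥ 0`
      have hK : 0 ≤ p ^ 2 * (s * (g + 1) * (s * (g - 1) - x2)) + Y ^ 2 := by
        refine le_trans hnn (le_of_eq ?_)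
        rw [hY]
        ring
      have hK2 : 0 ≤ 2 * (s * (g + 1) * (s * (g - 1) - x2)) + Y ^ 2 := by
        rcases le_total 0 (s * (g + 1) * (s * (g - 1) - x2)) with h0 | h0
        · have := sq_nonneg Y
          linarith only [h0, this]
        · have := mul_nonneg_of_nonpos_of_nonpos (by linarith only [hp] : 2 - p ^ 2 ≤ 0) h0
          linarith
      -- the function is `A g ^ 2 + B g + C`
      have fL : 2 * (s * (x2 / s + 1) * (s * (x2 / s - 1) - x2)) + (1 + s * x2 - (s ^ 2 - 1) * (x2 / s)) ^ 2 ≤ 0 := by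
        have e1 : 2 * (s * (x2 / s + 1) * (s * (x2 / s - 1) - x2)) + (1 + s * x2 - (s ^ 2 - 1) * (x2 / s)) ^ 2 =
            (x2 + s) * (x2 + s - 2 * s ^ 3) / s ^ 2 := by
          field_simp
          ring
        rw [e1]
        apply div_nonpos_of_nonpos_of_nonneg _ (by positivity)
        apply mul_nonpos_of_nonneg_of_nonpos (by linarith only [hx, hs14])
        nlinarith only [hX, hxs, mul_nonneg hs.le (by linarith only [hs2] : 0 ≤ s ^ 2 - 2)]
      have fU : 2 * (s * (1 + x2 / (s + 1) + 1) * (s * (1 + x2 / (s + 1) - 1) - x2)) +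
          (1 + s * x2 - (s ^ 2 - 1) * (1 + x2 / (s + 1))) ^ 2 ≤ 0 := by
        have e1 : 2 * (s * (1 + x2 / (s + 1) + 1) * (s * (1 + x2 / (s + 1) - 1) - x2)) +
            (1 + s * x2 - (s ^ 2 - 1) * (1 + x2 / (s + 1))) ^ 2 =
            (x2 + 2 - s ^ 2) ^ 2 - 2 * s * x2 * (2 * (s + 1) + x2) / (s + 1) ^ 2 := by
          field_simp
          ring
        rw [e1]
        have e2 : (x2 + 2 - s ^ 2) ^ 2 * (s + 1) ^ 2 ≤ 2 * s * x2 * (2 * (s + 1) + x2) := by
          -- convex in `x2` on `[s ^ 2, s (s + 1)]`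
          have c0 : 0 ≤ (s + 1) ^ 2 - 2 * s := by nlinarith only []
          have c1 : (s ^ 2 + 2 - s ^ 2) ^ 2 * (s + 1) ^ 2 - 2 * s * s ^ 2 * (2 * (s + 1) + s ^ 2) ≤ 0 := by
            nlinarith only [hs14, mul_nonneg hs.le (by linarith only [hs2] : 0 ≤ s ^ 2 - 2), mul_nonneg (sq_nonneg s) (by linarith only [hs2] : 0 ≤ s ^ 2 - 2)]
          have c2 : (s * (s + 1) + 2 - s ^ 2) ^ 2 * (s + 1) ^ 2 - 2 * s * (s * (s + 1)) * (2 * (s + 1) + s * (s + 1)) ≤ 0 := by
            have c3 : (s * (s + 1) + 2 - s ^ 2) ^ 2 * (s + 1) ^ 2 - 2 * s * (s * (s + 1)) * (2 * (s + 1) + s * (s + 1)) =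
                (s + 1) ^ 2 * ((s + 2) * (s + 2 - 2 * s ^ 2)) := by ring
            rw [c3]
            apply mul_nonpos_of_nonneg_of_nonpos (sq_nonneg _)
            apply mul_nonpos_of_nonneg_of_nonpos (by linarith only [hX, hxs])
            nlinarith only [hs14]
          have c4 : (s * (s + 1) - s ^ 2) * ((x2 + 2 - s ^ 2) ^ 2 * (s + 1) ^ 2 - 2 * s * x2 * (2 * (s + 1) + x2)) =
              (s * (s + 1) - x2) * ((s ^ 2 + 2 - s ^ 2) ^ 2 * (s + 1) ^ 2 - 2 * s * s ^ 2 * (2 * (s + 1) + s ^ 2)) +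
              (x2 - s ^ 2) * ((s * (s + 1) + 2 - s ^ 2) ^ 2 * (s + 1) ^ 2 -
                2 * s * (s * (s + 1)) * (2 * (s + 1) + s * (s + 1))) -
              ((s + 1) ^ 2 - 2 * s) * ((s * (s + 1) - s ^ 2) * ((x2 - s ^ 2) * (s * (s + 1) - x2))) := by ring
          have c5 := mul_nonpos_of_nonneg_of_nonpos (by linarith only [hX] : 0 ≤ s * (s + 1) - x2) c1
          have c6 := mul_nonpos_of_nonneg_of_nonpos (by linarith only [hxs] : 0 ≤ x2 - s ^ 2) c2
          have c7 : 0 ≤ ((s + 1) ^ 2 - 2 * s) * ((s * (s + 1) - s ^ 2) * ((x2 - s ^ 2) * (s * (s + 1) - x2))) :=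
            mul_nonneg c0 (mul_nonneg (by nlinarith only [hX, hxs]) (mul_nonneg (by linarith only [hxs]) (by linarith only [hX])))
          have c8 : (s * (s + 1) - s ^ 2) * ((x2 + 2 - s ^ 2) ^ 2 * (s + 1) ^ 2 - 2 * s * x2 * (2 * (s + 1) + x2)) ≤ 0 := by
            rw [c4]
            linarith only [c5, c6, c7]
          have c9 := nonpos_of_mul_nonpos_right c8 (by nlinarith only [hX, hxs, hnn, e1, c1, c2] : 0 < s * (s + 1) - s ^ 2)
          linarith only [c9]
        rw [sub_nonpos, le_div_iff₀ (by positivity)]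
        exact e2
      have hA : 0 < 2 * s ^ 2 + (s ^ 2 - 1) ^ 2 := by positivity
      have e1 := convg (A := 2 * s ^ 2 + (s ^ 2 - 1) ^ 2) (gL := x2 / s) (gU := 1 + x2 / (s + 1)) (g := g)
        (p := -(2 * s * x2) - 2 * (1 + s * x2) * (s ^ 2 - 1))
        (q := -(2 * s ^ 2) - 2 * s * x2 + (1 + s * x2) ^ 2) hA
        (by refine le_trans (le_of_eq ?_) fL; ring)
        (by refine le_trans (le_of_eq ?_) fU; ring) hglo.le hF (Or.inl hglo)
      have e2 : (2 * s ^ 2 + (s ^ 2 - 1) ^ 2) * g ^ 2 + (-(2 * s * x2) - 2 * (1 + s * x2) * (s ^ 2 - 1)) * g +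
          (-(2 * s ^ 2) - 2 * s * x2 + (1 + s * x2) ^ 2) = 2 * (s * (g + 1) * (s * (g - 1) - x2)) + Y ^ 2 := by
        rw [hY]
        ring
      rw [e2] at e1
      linarith only [hK2, e1]

/-- a root of the dihedral flat of the vertex -/
theorem flatA (h : Ch b s a d) (hx : 0 ≤ x2) (hn : g ^ 2 + x2 ^ 2 - 2 * b * g * x2 = 1) (hv : 1 ≤ s * g - d * x2) :
    1 + (s - 1) / a * x2 ≤ g := by
  have ha : 0 < a := by linarith only [h.a1]
  have hs := h.s0
  have ht0 := h.tau_pos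
  have ht1 := h.tau_le
  obtain ⟨w, hw⟩ : ∃ w, w = a * g - s * x2 := ⟨_, rfl⟩
  obtain ⟨v, hv'⟩ : ∃ v, v = s * g - d * x2 := ⟨_, rfl⟩
  rw [← hv'] at hv
  have hg : g = s * v - d * w := by
    rw [hv', hw]
    linear_combination g * h.ad
  have hx2 : x2 = a * v - s * w := by
    rw [hv', hw]
    linear_combination x2 * h.ad
  have hvw : v ^ 2 + w ^ 2 - 2 * b * v * w = 1 := by
    have e1 : g ^ 2 + x2 ^ 2 - 2 * b * g * x2 = v ^ 2 + w ^ 2 - 2 * b * v * w := by
      have hb : 2 * b = (a + d) / s := by rw [h.sum]; field_simp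
      rw [hb, hg, hx2]
      have had : d = (s ^ 2 - 1) / a := by
        rw [eq_div_iff ha.ne']
        linarith only [h.ad]
      rw [had]
      field_simp
      ring
    rw [← e1]
    exact hn
  have hw0 : 0 ≤ w := by
    by_contra hcon
    have hcon := not_le.1 hcon
    have hb0 : 0 < b := by
      have e1 : 0 < 2 * b * s := by
        rw [← h.sum]
        linarith only [ha, h.d1]
      nlinarith only [hs, e1]
    have e2 : 0 ≤ 2 * b * v * (-w) := by
      have : 0 ≤ v := by linarith only [hv]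
      have : 0 ≤ -w := by linarith only [hcon]
      positivity
    nlinarith only [hv, hvw, e2, sq_nonneg (v - 1), mul_pos_of_neg_of_neg hcon hcon]
  -- `g ≥ κ_i x2`
  obtain ⟨τ, hτ⟩ : ∃ τ, τ = (s - 1) / a := ⟨_, rfl⟩
  rw [← hτ] at ht0 ht1 ⊢
  have hτa : τ * a = s - 1 := by rw [hτ]; field_simp
  have hF0 : 0 ≤ g - τ * x2 := by
    have e1 : a * (g - τ * x2) = w + x2 := by
      rw [hw]
      linear_combination (-x2) * hτa
    have e2 : 0 ≤ a * (g - τ * x2) := by rw [e1]; linarith only [hx, hw0]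
    exact nonneg_of_mul_nonneg_right e2 ha
  have hF2 : 1 ≤ (g - τ * x2) ^ 2 := by
    rw [← hn]
    have hb : 2 * b = (a + d) / s := by rw [h.sum]; field_simp
    have e1 : (g - τ * x2) ^ 2 - (g ^ 2 + x2 ^ 2 - 2 * b * g * x2) = x2 * ((2 * b - 2 * τ) * g - (1 - τ ^ 2) * x2) := by
      ring
    have e2 : (2 * b - 2 * τ) * s = (1 - τ ^ 2) * a := by
      have had : d * a = s ^ 2 - 1 := by linarith only [h.ad]
      have e3 : (2 * b - 2 * τ) * s = a + d - 2 * τ * s := by linear_combination -h.sum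
      have e4 : a * ((2 * b - 2 * τ) * s - (1 - τ ^ 2) * a) = 0 := by
        rw [e3]
        have e5 : (τ * a) ^ 2 = (s - 1) ^ 2 := by rw [hτa]
        linear_combination had - (2 * s) * hτa + e5
      rcases mul_eq_zero.1 e4 with e6 | e6
      · exact absurd e6 ha.ne'
      · linarith only [e6]
    have e3 : s * ((2 * b - 2 * τ) * g - (1 - τ ^ 2) * x2) = (1 - τ ^ 2) * w := by
      rw [hw]
      linear_combination g * e2
    have e4 : 0 ≤ s * ((2 * b - 2 * τ) * g - (1 - τ ^ 2) * x2) := by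
      rw [e3]
      exact mul_nonneg (by nlinarith only [ht1, ht0]) hw0
    have e5 := nonneg_of_mul_nonneg_right e4 hs
    have e6 : 0 ≤ x2 * ((2 * b - 2 * τ) * g - (1 - τ ^ 2) * x2) := mul_nonneg hx e5
    linarith only [e6]
  have : 1 ≤ g - τ * x2 := by nlinarith only [hF0, hF2]
  linarith only [this]

end

end Pool.Agent.Helper62.DY
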