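import Pool.Agent.Helper62.DY.LemA3
import Pool.Agent.Helper7.DY.Loc

/-!
# Lemma A for MP_d13a5e_al, closed form (`κ ≤ φ` allowed) and the limit for infinite order
-/

set_option autoImplicit false

namespace Pool.Agent.Helper62.DY

open _root_.DY (Z1 C01 Tri rf sq)

/-- a quadratic polynomial on a triangle, strict form -/
theorem triS {p q r l m f0 w1 w2 W X1 X2 u v : ℝ} (hp : 0 ≤ p) (hq : 0 ≤ q) (hr : 0 ≤ r) (hw1 : 0 < w1) (hw2 : 0 < w2)
    (hX1 : w1 * X1 = W) (hX2 : w2 * X2 = W) (h0 : f0 < 0) (h1 : f0 + l * X1 + p * X1 ^ 2 ≤ 0)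
    (h2 : f0 + m * X2 + q * X2 ^ 2 ≤ 0) (hu : 0 ≤ u) (hv : 0 ≤ v) (huv : w1 * u + w2 * v < W) :
    f0 + l * u + m * v + p * u ^ 2 + q * v ^ 2 - r * (u * v) < 0 := by
  have hW0 : 0 < W := lt_of_le_of_lt (by positivity) huv
  have hX1p : 0 < X1 := by
    by_contra h
    have := mul_nonpos_of_nonneg_of_nonpos hw1.le (not_lt.1 h)
    linarith
  have hX2p : 0 < X2 := by
    by_contra h
    have := mul_nonpos_of_nonneg_of_nonpos hw2.le (not_lt.1 h)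
    linarith
  obtain ⟨x, hx⟩ : ∃ x, x = u / X1 := ⟨_, rfl⟩
  obtain ⟨y, hy⟩ : ∃ y, y = v / X2 := ⟨_, rfl⟩
  have hux : u = x * X1 := by rw [hx]; field_simp
  have hvy : v = y * X2 := by rw [hy]; field_simp
  have hx0 : 0 ≤ x := by rw [hx]; positivity
  have hy0 : 0 ≤ y := by rw [hy]; positivity
  have hxy : x + y < 1 := by
    have h3 : (x + y) * W < 1 * W := by
      have h4 : (x + y) * W = w1 * u + w2 * v := by
        rw [hux, hvy]
        linear_combination (-x) * hX1 + (-y) * hX2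
      rw [h4, one_mul]
      exact huv
    exact lt_of_mul_lt_mul_right h3 hW0.le
  have e1 : x ^ 2 ≤ x := by nlinarith
  have e2 : y ^ 2 ≤ y := by nlinarith
  have e3 := mul_le_mul_of_nonneg_left e1 (mul_nonneg hp (sq_nonneg X1))
  have e4 := mul_le_mul_of_nonneg_left e2 (mul_nonneg hq (sq_nonneg X2))
  have e5 : 0 ≤ r * (u * v) := mul_nonneg hr (mul_nonneg hu hv)
  have e6 := mul_nonpos_of_nonneg_of_nonpos hx0 h1
  have e7 := mul_nonpos_of_nonneg_of_nonpos hy0 h2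
  have e8 := mul_neg_of_pos_of_neg (by linarith : 0 < 1 - x - y) h0
  have e9 : f0 + l * u + m * v + p * u ^ 2 + q * v ^ 2 =
      (1 - x - y) * f0 + x * (f0 + l * X1 + p * X1 ^ 2) + y * (f0 + m * X2 + q * X2 ^ 2) -
        (p * X1 ^ 2 * x - p * X1 ^ 2 * x ^ 2) - (q * X2 ^ 2 * y - q * X2 ^ 2 * y ^ 2) := by
    rw [hux, hvy]
    ring
  linarith

section two

variable {b1 s a d b2 s' a' d' bO : ℝ}

/-- **Lemma A, `i, i' ≥ 3`**, closed form -/
theorem lemA33' (h : Ch b1 s a d) (h' : Ch b2 s' a' d') (hbO : 0 ≤ bO) {g x1 x2 : ℝ} (hx1 : 1 ≤ x1) (hx2 : 1 ≤ x2)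
    (hn : Phi b1 b2 bO g x1 x2 = 0) (hu : d / s * x1 + d' / s' * x2 ≤ g) :
    1 + (s - 1) / a * x1 + (s' - 1) / a' * x2 ≤ g := by
  rcases hu.lt_or_eq with hu | hu
  · exact lemA33 h h' hbO hx1 hx2 hn hu
  by_contra hcon
  have hF := not_le.1 hcon
  have ha : 0 < a := by linarith [h.a1]
  have ha' : 0 < a' := by linarith [h'.a1]
  have hs := h.s0
  have hs' := h'.s0
  have hw1 := h.w_pos
  have hw2 := h'.w_pos
  have hsub := h.sub
  have hsub' := h'.sub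
  obtain ⟨w1, hw1d⟩ : ∃ w, w = (s - 1) / (a * s) := ⟨_, rfl⟩
  obtain ⟨w2, hw2d⟩ : ∃ w, w = (s' - 1) / (a' * s') := ⟨_, rfl⟩
  rw [← hw1d] at hw1 hsub
  rw [← hw2d] at hw2 hsub'
  have hle : w1 * x1 + w2 * x2 < 1 := by
    rw [← hsub, ← hsub']
    nlinarith
  obtain ⟨X1, hX1⟩ : ∃ X, X = (1 - w2) / w1 := ⟨_, rfl⟩
  obtain ⟨X2, hX2⟩ : ∃ X, X = (1 - w1) / w2 := ⟨_, rfl⟩
  have hX1' : w1 * X1 = 1 - w2 := by rw [hX1]; field_simp
  have hX2' : w2 * X2 = 1 - w1 := by rw [hX2]; field_simp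
  have v1 := vertex h h' hbO (X := X1) (by rw [← hw1d, ← hw2d]; exact hX1')
  have v2 := vertex h' h hbO (X := X2) (by rw [← hw1d, ← hw2d]; exact hX2')
  rw [Phi_swap] at v2
  have v2l : Phi b1 b2 bO (d / s * 1 + d' / s' * X2) 1 X2 ≤ 0 := by
    have e1 : d / s * 1 + d' / s' * X2 = d' / s' * X2 + d / s * 1 := by ring
    rw [e1]
    exact v2
  have c1 : Phi b1 b2 bO (d / s * 1 + d' / s' * 1) 1 1 < 0 := by
    rw [PhiL h h']
    have e1 : 1 / s ^ 2 ≤ 1 / 2 := one_div_le_one_div_of_le (by norm_num) h.s2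
    have e2 : 1 / s' ^ 2 ≤ 1 / 2 := one_div_le_one_div_of_le (by norm_num) h'.s2
    have e3 : 0 < (a * d' + a' * d) / (s * s') + 2 * bO := by
      have := h.d1
      have := h'.d1
      positivity
    have e4 : (1 : ℝ) ^ 2 / s ^ 2 = 1 / s ^ 2 := by rw [one_pow]
    have e5 : (1 : ℝ) ^ 2 / s' ^ 2 = 1 / s' ^ 2 := by rw [one_pow]
    rw [e4, e5]
    nlinarith
  have hx1' : 0 ≤ x1 - 1 := by linarith
  have hx2' : 0 ≤ x2 - 1 := by linarith
  have hWle : w1 * (x1 - 1) + w2 * (x2 - 1) < 1 - w1 - w2 := by linarith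
  have hL : Phi b1 b2 bO (d / s * x1 + d' / s' * x2) x1 x2 < 0 := by
    rw [PhiL h h'] at c1 v1 v2l ⊢
    obtain ⟨r, hr⟩ : ∃ r, r = (a * d' + a' * d) / (s * s') + 2 * bO := ⟨_, rfl⟩
    have hr0 : 0 ≤ r := by
      have := h.d1
      have := h'.d1
      rw [hr]
      positivity
    rw [← hr] at c1 v1 v2l ⊢
    have key := triS (p := 1 / s ^ 2) (q := 1 / s' ^ 2) (r := r) (l := 2 / s ^ 2 - r) (m := 2 / s' ^ 2 - r)
      (f0 := 1 / s ^ 2 + 1 / s' ^ 2 - r - 1) (w1 := w1) (w2 := w2) (W := 1 - w1 - w2) (X1 := X1 - 1) (X2 := X2 - 1)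
      (u := x1 - 1) (v := x2 - 1) (by positivity) (by positivity) hr0 hw1 hw2 (by linarith) (by linarith)
      (by refine lt_of_le_of_lt (le_of_eq ?_) c1; ring)
      (by refine le_trans (le_of_eq ?_) v1; ring)
      (by refine le_trans (le_of_eq ?_) v2l; ring) hx1' hx2' hWle
    refine lt_of_le_of_lt (le_of_eq ?_) key
    ring
  rw [hu, hn] at hL
  exact lt_irrefl _ hL

end two

section main

variable {b1 b2 bO : ℝ} {R : ℝ → ℝ → ℝ → Prop} {s s' : ℕ → ℝ}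

/-- Lemma A, closed form: `x = g t + x1 d1 + x2 d2` lies on `F`, `φ d1 = -p1 < 0`, `φ d2 = -p2 < 0` -/
theorem LA' (h : RT b1 b2 bO R) (h0 : s 0 = 0) (h1 : s 1 = 1) (hr : ∀ k, s (k + 2) = 2 * b1 * s (k + 1) - s k)
    (h0' : s' 0 = 0) (h1' : s' 1 = 1) (hr' : ∀ k, s' (k + 2) = 2 * b2 * s' (k + 1) - s' k)
    {k l : ℕ} (hs : ∀ n, 1 ≤ n → n ≤ k + 2 → 1 ≤ s n) (hs' : ∀ n, 1 ≤ n → n ≤ l + 2 → 1 ≤ s' n) {g x1 x2 p1 p2 : ℝ}
    (hx : R g x1 x2) (hx1 : 1 ≤ x1) (hx2 : 1 ≤ x2) (hp1 : 0 < p1) (hp2 : 0 < p2) (hf : p1 * x1 + p2 * x2 ≤ g)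
    (hk1 : s k / s (k + 1) ≤ p1) (hk2 : s' l / s' (l + 1) ≤ p2) :
    1 + (s (k + 1) - 1) / s (k + 2) * x1 + (s' (l + 1) - 1) / s' (l + 2) * x2 ≤ g := by
  have e1 := mul_le_mul_of_nonneg_right hk1 (by linarith : 0 ≤ x1)
  have e2 := mul_le_mul_of_nonneg_right hk2 (by linarith : 0 ≤ x2)
  rcases Nat.eq_zero_or_pos k with hk | hk
  · refine LA h h0 h1 hr h0' h1' hr' hs hs' hx (by linarith) (by linarith) ?_
    have e3 : s k / s (k + 1) * x1 = 0 := by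
      rw [hk, h0]
      ring
    rw [e3]
    have := mul_pos hp1 (by linarith : 0 < x1)
    linarith
  · rcases Nat.eq_zero_or_pos l with hl | hl
    · refine LA h h0 h1 hr h0' h1' hr' hs hs' hx (by linarith) (by linarith) ?_
      have e3 : s' l / s' (l + 1) * x2 = 0 := by
        rw [hl, h0']
        ring
      rw [e3]
      have := mul_pos hp2 (by linarith : 0 < x2)
      linarith
    · refine lemA33' (ch_of h0 h1 hr hk hs) (ch_of h0' h1' hr' hl hs') h.bOn hx1 hx2 ?_ (by linarith)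
      have := h.n _ _ _ hx
      simp only [Phi]
      linarith

end main

end Pool.Agent.Helper62.DY
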