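import Pool.Agent.Helper62.DY.NG0
import Pool.Agent.Helper9.DY.NG

/-!
# NG, index `1` at `h` (MP_d13a5e_al)
-/

set_option autoImplicit false

namespace Pool.Agent.Helper62.DY

open _root_.DY (Z1 C01 Tri rf sq Str Loc Canon)

variable {E : Type*} [AddCommGroup E] [Module ℝ E] {Ψ : Set E} {B : E →ₗ[ℝ] E →ₗ[ℝ] ℝ}

/-- **NG1**: index `1` at `h` -/
theorem ng1 : _root_.DY.NG1 Ψ B := by
  intro ρ φ t d1 d2 x x' g x1 x2 g' x1' x2' be1 be2 X rh hbe fh alt hu hg hP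
  obtain ⟨⟨k2, hk2⟩, hh⟩ := hP
  have hT := X.L.tri
  have h := rt_of_tri hT
  have hρh := hh.nk_one (X.L.str_h rh) fh
  have hbe2 : 1 ≤ be2 := by
    rcases rh.z2 with h1 | h1
    · exfalso
      rw [h1] at fh
      have := mul_nonneg (by linarith only [hbe] : 0 ≤ be1) X.h1
      linarith only [fh, this]
    · exact h1
  have hR : (0 : ℝ) • t + be1 • d1 + be2 • d2 ∈ Ψ := by
    have e : (0 : ℝ) • t + be1 • d1 + be2 • d2 = be1 • d1 + be2 • d2 := by module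
    rw [e]
    exact rh.mem
  have hx : g • t + x1 • d1 + x2 • d2 ∈ Ψ := by
    rw [← X.e]
    exact X.L.xm
  have hx' := refl_O hT rh.mem hx
  obtain ⟨b1, hb1⟩ : ∃ b1, b1 = -B t d1 := ⟨_, rfl⟩
  obtain ⟨b2, hb2⟩ : ∃ b2, b2 = -B t d2 := ⟨_, rfl⟩
  obtain ⟨bO, hbO⟩ : ∃ bO, bO = -B d1 d2 := ⟨_, rfl⟩
  have hS2 := X.L.str_2
  rw [← hb1, ← hb2, ← hbO] at h hx'
  rw [← hb2] at hk2 hS2
  obtain ⟨η, hη⟩ : ∃ η, η = x1 / be1 := ⟨_, rfl⟩
  obtain ⟨ζ, hζd⟩ : ∃ ζ, ζ = x2 - be2 * η := ⟨_, rfl⟩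
  have p1 := X.p1
  have hx1 : x1 = be1 * η := by
    rw [hη]
    field_simp
  have hx2 : x2 = ζ + be2 * η := by linarith only [hζd]
  have hη0 : 0 < η := by
    rw [hη]
    positivity
  have hζ : 0 ≤ ζ := by
    have e1 : be1 * ζ = x2 * be1 - x1 * be2 := by
      rw [hζd]
      rw [hη]
      field_simp
    have e2 : 0 ≤ be1 * ζ := by linarith only [hu, e1]
    by_contra hcon
    have := mul_neg_of_pos_of_neg (by linarith only [hbe] : 0 < be1) (not_le.1 hcon)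
    linarith only [e2, this]
  have hnO := h.n _ _ _ hR
  have hfz := X.c.fz
  have hgφ : g = η * -(be1 * φ d1 + be2 * φ d2) + -φ d2 * ζ := by
    rw [hfz, hx1, hx2]
    ring
  have hκ := X.h2
  have hg2 : -φ d2 * ζ < g := by
    have := mul_pos hη0 (by linarith only [fh] : 0 < -(be1 * φ d1 + be2 * φ d2))
    linarith only [hgφ, this]
  have hg0 : 0 < g := by
    have := mul_nonneg (by linarith only [hκ] : 0 ≤ -φ d2) hζ
    linarith only [hg2, this]
  have hg1 := (h.z0 hx hg0).1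
  have hρ := X.le_one.1
  have hρx : g + x1 * ρ d1 + x2 * ρ d2 = g + η * (be1 * ρ d1 + be2 * ρ d2) + ζ * ρ d2 := by
    rw [hx1, hx2]
    ring
  rw [hρx] at hρ
  have hηρ := mul_pos hη0 hρh
  obtain ⟨o'', hoo⟩ : ∃ o'', o'' = 2 * bO * be1 - be2 := ⟨_, rfl⟩
  have ho'' : 0 ≤ o'' := by
    have h1 := h.r2 _ _ _ hR
    have e1 : 2 * b2 * 0 + 2 * bO * be1 - be2 = o'' := by rw [hoo]; ring
    rw [e1] at h1
    rcases (h.z1 h1 (by linarith only [hbe])).2.2 with h2 | h2 <;> linarith only [h2]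
  obtain ⟨η', hη'⟩ : ∃ η', η' = 2 * b1 * be1 * g + be2 * (2 * b2 * g - ζ) + o'' * ζ - η := ⟨_, rfl⟩
  have hS : η + η' = 2 * b1 * be1 * g + be2 * (2 * b2 * g - ζ) + o'' * ζ := by linarith only [hη']
  have hTT : 2 * (b1 * be1 + b2 * be2) * g - 2 * (be1 - bO * be2) * x1 - 2 * (be2 - bO * be1) * x2 = η' - η := by
    rw [hη', hx1, hx2, hoo]
    linear_combination (-2 * η) * hnO
  rw [hTT, hx1, hx2] at hx'
  have q1 : be1 * η + (η' - η) * be1 = be1 * η' := by ring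
  have q2 : ζ + be2 * η + (η' - η) * be2 = ζ + be2 * η' := by ring
  rw [q1, q2] at hx'
  have hxx := hx
  rw [hx1, hx2] at hxx
  have hk1 := hk2.pos hκ
  rcases hk1.eq_or_lt with h3 | h3
  · subst h3
    have h4 := hk2.nk_one hS2 hκ
    have := mul_nonneg hζ h4.le
    linarith only [hg1, hρ, hηρ, this]
  · obtain ⟨m, rfl⟩ : ∃ m, k2 = m + 2 := ⟨k2 - 2, by omega⟩
    have hs : ∀ n, 1 ≤ n → n ≤ m + 3 → 1 ≤ sq b2 n := by
      intro n h1 h2
      obtain ⟨l, rfl⟩ : ∃ l, n = l + 1 := ⟨n - 1, by omega⟩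
      exact h.pge l (hk2.hs l (by omega))
    have hv : sq b2 (m + 1) * ζ < sq b2 (m + 2) * g := by
      have e1 := hk2.hm (m + 1) (by omega)
      have e2 : sq b2 (m + 1 + 1) = sq b2 (m + 2) := rfl
      rw [e2] at e1
      have e3 := mul_le_mul_of_nonneg_right (by linarith only [e1] : sq b2 (m + 1) ≤ sq b2 (m + 2) * -φ d2) hζ
      have e4 := mul_lt_mul_of_pos_left hg2 (by linarith only [hs (m + 2) (by omega) (by omega)] : 0 < sq b2 (m + 2))
      linarith only [e3, e4]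
    have key := Sa_pair h hs hR hbe hbe2 hoo ho'' hxx hx' hS hζ hv
    rw [tau_eq hs] at key
    have e1 := hk2.nk hS2 hκ
    have e2 : sq b2 (m + 2 + 1) = sq b2 (m + 3) := rfl
    rw [e2] at e1
    have e3 := hs (m + 3) (by omega) le_rfl
    have e4 : -((sq b2 (m + 2) - 1) / sq b2 (m + 3)) < ρ d2 := by
      rw [neg_lt, lt_div_iff₀ (by linarith only [e3])]
      linarith only [e1]
    have e5 := mul_le_mul_of_nonneg_left e4.le hζ
    linarith only [hρ, hηρ, key, e5]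

end Pool.Agent.Helper62.DY
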