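import Pool.Agent.Helper62.DY.CaseI

/-!
# The one-vertex inequality for all lines through `O` (MP_d13a5e_al)

`a = o d1 + o' d2` is a root of the flat of `O`, `x = g t + η a + ζ d2`. If `x` is positive at the point of `a` and the line
number `j - 1` of the vertex `t ∩ d2`, then `x ≥ t` at the point of `a` and the bisector number `j`.
-/

set_option autoImplicit false

namespace Pool.Agent.Helper62.DY

open _root_.DY (Z1 C01 Tri rf sq Str Loc)

/-- three consecutive values of the Chebyshev sequence of `O` -/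
structure Ot (bO o' o o'' : ℝ) : Prop where
  sum : o' + o'' = 2 * bO * o
  prod : o' * o'' = o ^ 2 - 1
  h1 : 1 ≤ o'
  h2 : 1 ≤ o
  h3 : o'' = 0 ∨ 1 ≤ o''

/-- consecutive values `e, d, s` of the Chebyshev sequence of `t ∩ d2` (`s = s_(j-1)`); `s = 1` is the case of `F` beyond
all lines of a vertex of finite order -/
structure Cg (b s d e : ℝ) : Prop where
  s1 : 1 ≤ s
  d1 : 1 ≤ d
  es : e + s = 2 * b * d
  ed : d ^ 2 = s * e + 1
  eh : e ≤ s + 2
  ec : (e = 0 ∧ d = 1) ∨ (e = 1 ∧ d = 2 * b) ∨ (1 ≤ e ∧ 2 * b ≤ e)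
  sc : s = 1 ∨ d + 1 ≤ s ^ 2

section core

variable {b1 b2 bO s d e o' o o'' g η η' ζ : ℝ}

theorem Cg.e0 (h : Cg b2 s d e) : 0 ≤ e := by
  rcases h.ec with ⟨h1, _⟩ | ⟨h1, _⟩ | ⟨h1, _⟩ <;> linarith only [h1]

/-- failing gives a bound for `g` -/
theorem Sa_bound (h : Cg b2 s d e) (hf : g < 1 + d / (s + 1) * ζ) : g < s + 1 - (s * g - d * ζ) := by
  have hs1 := h.s1
  have e1 := mul_lt_mul_of_pos_left hf (by linarith only [hs1] : 0 < s + 1)
  have e2 : (s + 1) * (1 + d / (s + 1) * ζ) = s + 1 + d * ζ := by field_simp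
  linarith only [e1, e2]

/-- the norm in terms of `v = s g - d ζ` -/
theorem Sa_norm (h : Cg b2 s d e) (hN : η * η' = g ^ 2 - 1 - ζ * (2 * b2 * g - ζ)) {v : ℝ} (hv : v = s * g - d * ζ) :
    d ^ 2 * (η * η') = g ^ 2 + v ^ 2 - (s - e) * g * v - d ^ 2 := by
  rw [hN, hv]
  have h1 := h.es
  have h2 := h.ed
  linear_combination (g ^ 2) * h2 + (g * d * ζ) * h1

theorem Sa_sum (h : Cg b2 s d e) (hS : η + η' = 2 * b1 * o * g + o' * (2 * b2 * g - ζ) + o'' * ζ) {v : ℝ}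
    (hv : v = s * g - d * ζ) : d * (η + η') = 2 * b1 * o * d * g + o' * (e * g + v) + o'' * (s * g - v) := by
  rw [hS, hv]
  have h1 := h.es
  linear_combination (-(o' * g)) * h1

/-- `v ≥ 1` is impossible -/
theorem Sa_v1 (h : Cg b2 s d e) (hN : η * η' = g ^ 2 - 1 - ζ * (2 * b2 * g - ζ)) (hg : 1 ≤ g) (hη : 0 ≤ η) (hη' : 0 ≤ η')
    (hf : g < s + 1 - (s * g - d * ζ)) (hv : 1 ≤ s * g - d * ζ) : False := by
  obtain ⟨v, hv0⟩ : ∃ v, v = s * g - d * ζ := ⟨_, rfl⟩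
  have hn := Sa_norm h hN hv0
  rw [← hv0] at hf hv
  have hpos : 0 ≤ d ^ 2 * (η * η') := by
    have := h.d1
    positivity
  rw [hn] at hpos
  have he := h.e0
  have h2 := h.eh
  have h3 := h.ed
  -- convexity in `v`
  have e1 : (s - g) * (g ^ 2 + v ^ 2 - (s - e) * g * v - d ^ 2) = (s + 1 - g - v) * ((g - s) * (g + e)) -
      (v - 1) * ((2 + s - e) * ((g - 1) * (s - g))) - (s - g) * ((v - 1) * (s + 1 - g - v)) := by
    rw [h3]
    ring
  have hsg : 0 < s - g := by linarith only [hv, hf]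
  have e2 : (s + 1 - g - v) * ((g - s) * (g + e)) < 0 :=
    mul_neg_of_pos_of_neg (by linarith only [hf]) (mul_neg_of_neg_of_pos (by linarith only [hsg]) (by linarith only [hg, he]))
  have e3 : 0 ≤ (v - 1) * ((2 + s - e) * ((g - 1) * (s - g))) :=
    mul_nonneg (by linarith only [hv]) (mul_nonneg (by linarith only [h2]) (mul_nonneg (by linarith only [hg]) hsg.le))
  have e4 : 0 ≤ (s - g) * ((v - 1) * (s + 1 - g - v)) :=
    mul_nonneg hsg.le (mul_nonneg (by linarith only [hv]) (by linarith only [hf]))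
  have e5 := mul_nonneg hsg.le hpos
  rw [e1] at e5
  linarith only [e2, e3, e4, e5]

/-- the use of `x1 ≥ 1` -/
theorem Sa_a (h : Cg b2 s d e) (hO : Ot bO o' o o'') (hη : 1 ≤ o * η) (hη' : 1 ≤ o * η') (hg : 1 ≤ g)
    (hS : η + η' = 2 * b1 * o * g + o' * (2 * b2 * g - ζ) + o'' * ζ)
    (hN : η * η' = g ^ 2 - 1 - ζ * (2 * b2 * g - ζ)) (hf : g ≤ s + 1 - (s * g - d * ζ)) {v : ℝ} (hv : v = s * g - d * ζ)
    (H : 0 < o ^ 2 * ((2 * b1 * d ^ 2 - (s + 1)) * g + v * (s * g - v) - (e - 1) * g * v) + (o ^ 2 - 1) * d ^ 2 +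
      o * d * (o' * (e * g + v) + o'' * (s * g - v))) : False := by
  have hn := Sa_norm h hN hv
  have hs := Sa_sum h hS hv
  have ho := hO.h2
  have h1 : 0 ≤ (o * η - 1) * (o * η' - 1) := mul_nonneg (by linarith only [hη]) (by linarith only [hη'])
  have h2 : 0 ≤ d ^ 2 * ((o * η - 1) * (o * η' - 1)) := mul_nonneg (sq_nonneg _) h1
  have h3 : d ^ 2 * ((o * η - 1) * (o * η' - 1)) = o ^ 2 * (d ^ 2 * (η * η')) - o * d * (d * (η + η')) + d ^ 2 := by ring
  rw [h3, hn, hs] at h2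
  rw [← hv] at hf
  have h4 : g * g ≤ g * (s + 1 - v) := mul_le_mul_of_nonneg_left hf (by linarith only [hg])
  have h5 : o ^ 2 * (g * g) ≤ o ^ 2 * (g * (s + 1 - v)) := mul_le_mul_of_nonneg_left h4 (by positivity)
  nlinarith only [H, h2, h4]

/-- `e ≥ 1`, `2 b1 ≥ 1` -/
theorem Sa_4 (h : Cg b2 s d e) (hO : Ot bO o' o o'') (hη : 1 ≤ o * η) (hη' : 1 ≤ o * η') (hg : 1 ≤ g) (hζ : 0 ≤ ζ)
    (hS : η + η' = 2 * b1 * o * g + o' * (2 * b2 * g - ζ) + o'' * ζ)
    (hN : η * η' = g ^ 2 - 1 - ζ * (2 * b2 * g - ζ)) (hf : g ≤ s + 1 - (s * g - d * ζ)) (hv0 : 0 < s * g - d * ζ)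
    (he : 1 ≤ e) (hb : 1 ≤ 2 * b1) : False := by
  obtain ⟨v, hv⟩ : ∃ v, v = s * g - d * ζ := ⟨_, rfl⟩
  refine Sa_a h hO hη hη' hg hS hN hf hv ?_
  rw [← hv] at hv0 hf
  have hd := h.d1
  have ho'' : 0 ≤ o'' := by rcases hO.h3 with h1 | h1 <;> linarith only [h1]
  have ho := hO.h2
  have ho' := hO.h1
  have hdz : s * g - v = d * ζ := by rw [hv]; ring
  have hdz0 : 0 ≤ s * g - v := by
    rw [hdz]
    exact mul_nonneg (by linarith only [hd]) hζ
  have hs : 0 < s := by linarith only [h.s1]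
  have t1 : 0 ≤ (2 * b1 * d ^ 2 - (s + 1)) * g + v * (s * g - v) - (e - 1) * g * v := by
    have e1 : d ^ 2 ≤ 2 * b1 * d ^ 2 := by nlinarith only [hb, sq_nonneg d]
    rw [h.ed] at e1 ⊢
    have e2 : s * (e - 1) ≤ 2 * b1 * (s * e + 1) - (s + 1) := by linarith only [e1]
    have e3 := mul_le_mul_of_nonneg_right e2 (by linarith only [hg] : 0 ≤ g)
    have e4 : 0 ≤ (e - 1) * g * (s - v) := mul_nonneg (mul_nonneg (by linarith only [he]) (by linarith only [hg])) (by linarith only [hg, hf])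
    have e5 : 0 ≤ v * (s * g - v) := mul_nonneg hv0.le hdz0
    nlinarith only [e3, e4, e5]
  have t2 : 0 ≤ (o ^ 2 - 1) * d ^ 2 := mul_nonneg (by nlinarith only [ho]) (sq_nonneg _)
  have t3 : 0 < o * d * (o' * (e * g + v) + o'' * (s * g - v)) := by
    have : 0 < e * g + v := by nlinarith only [he, hv0, hdz0, hs]
    have := mul_pos (by linarith only [ho'] : 0 < o') this
    have := mul_nonneg ho'' hdz0
    positivity
  have t4 := mul_nonneg (sq_nonneg o) t1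
  linarith only [t2, t3, t4]

/-- `e ≥ 1`, `b1 = 0` -/
theorem Sa_40 (h : Cg b2 s d e) (hO : Ot bO o' o o'') (hη : 1 ≤ o * η) (hη' : 1 ≤ o * η') (hg : 1 ≤ g) (hζ : 0 ≤ ζ)
    (hS : η + η' = 2 * b1 * o * g + o' * (2 * b2 * g - ζ) + o'' * ζ)
    (hN : η * η' = g ^ 2 - 1 - ζ * (2 * b2 * g - ζ)) (hf : g ≤ s + 1 - (s * g - d * ζ)) (hv0 : 0 < s * g - d * ζ)
    (he : 1 ≤ e) (hb : b1 = 0) (hv1 : s * g - d * ζ < 1)
    (hΩ : o ^ 2 * s + 1 ≤ o * (d * (o' * e + o'' * s))) (hcoef : o * e ≤ d * (o' * e + o'' * s)) : False := by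
  obtain ⟨v, hv⟩ : ∃ v, v = s * g - d * ζ := ⟨_, rfl⟩
  refine Sa_a h hO hη hη' hg hS hN hf hv ?_
  rw [← hv] at hv0 hf hv1
  have hd := h.d1
  have ho'' : 0 ≤ o'' := by rcases hO.h3 with h1 | h1 <;> linarith only [h1]
  have ho := hO.h2
  have ho' := hO.h1
  have hs : 0 < s := by linarith only [h.s1]
  have hs1 := h.s1
  have hgd : g ≤ d ^ 2 := by
    rw [h.ed]
    nlinarith only [he, hf, hv0, hs1]
  rw [hb]
  have ho2 : 0 ≤ o ^ 2 - 1 := by nlinarith
  -- value at `v = 0`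
  have H0 : 0 ≤ o ^ 2 * (-(s + 1) * g) + (o ^ 2 - 1) * d ^ 2 + g * (o * (d * (o' * e + o'' * s))) := by
    have e1 := mul_le_mul_of_nonneg_left hΩ (by linarith only [hg] : 0 ≤ g)
    have e2 : 0 ≤ (o ^ 2 - 1) * (d ^ 2 - g) := mul_nonneg ho2 (by linarith only [hgd])
    nlinarith
  -- value at `v = 1`
  have H1g : 0 ≤ (e + 1) * o * (d * o' - o) + (o ^ 2 - 1) * d ^ 2 + o * d * o'' * (s - 1) := by
    rcases le_total o (d * o') with h1 | h1
    · have := mul_nonneg (mul_nonneg (by linarith only [he] : 0 ≤ e + 1) (by linarith only [ho] : 0 ≤ o)) (by linarith only [h1] : 0 ≤ d * o' - o)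
      have := mul_nonneg ho2 (sq_nonneg d)
      have := mul_nonneg (mul_nonneg (mul_nonneg (by linarith only [ho] : 0 ≤ o) (by linarith only [hd] : 0 ≤ d)) ho'')
        (by linarith only [hs1] : 0 ≤ s - 1)
      linarith
    · -- `o'' ≥ (o ^ 2 - 1) d / o`
      have e1 : (o ^ 2 - 1) * d ≤ o * o'' := by
        rw [← hO.prod]
        nlinarith only [mul_le_mul_of_nonneg_right h1 ho'']
      have e2 : (o ^ 2 - 1) * d * (d * (s - 1)) ≤ o * o'' * (d * (s - 1)) :=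
        mul_le_mul_of_nonneg_right e1 (mul_nonneg (by linarith only [hd]) (by linarith only [hs1]))
      have e3 : e + 1 ≤ d ^ 2 * s := by
        rw [h.ed]
        nlinarith only [hs1, mul_nonneg (by linarith only [he] : 0 ≤ e) (by nlinarith only [hs1] : 0 ≤ s ^ 2 - 1)]
      have e4 : (e + 1) * (o ^ 2 - 1) ≤ d ^ 2 * s * (o ^ 2 - 1) := mul_le_mul_of_nonneg_right e3 ho2
      have e5 : 1 ≤ o * (d * o') := by
        have : 1 ≤ d * o' := by nlinarith only [hd, ho']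
        nlinarith only [h1, this]
      nlinarith only [he, e2, e4, e5]
  have H1 : 0 ≤ o ^ 2 * (-e * g - 1) + (o ^ 2 - 1) * d ^ 2 + o * d * (g * (o' * e + o'' * s) + o' - o'') := by
    have e1 : 0 ≤ (g - 1) * (o * (d * (o' * e + o'' * s) - o * e)) :=
      mul_nonneg (by linarith only [hg]) (mul_nonneg (by linarith only [ho]) (by linarith only [hcoef]))
    nlinarith only [H1g, e1]
  have e1 : o ^ 2 * ((2 * 0 * d ^ 2 - (s + 1)) * g + v * (s * g - v) - (e - 1) * g * v) + (o ^ 2 - 1) * d ^ 2 +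
      o * d * (o' * (e * g + v) + o'' * (s * g - v)) =
      (1 - v) * (o ^ 2 * (-(s + 1) * g) + (o ^ 2 - 1) * d ^ 2 + g * (o * (d * (o' * e + o'' * s)))) +
      v * (o ^ 2 * (-e * g - 1) + (o ^ 2 - 1) * d ^ 2 + o * d * (g * (o' * e + o'' * s) + o' - o'')) +
      o ^ 2 * (v * (1 - v)) := by ring
  rw [e1]
  have e2 := mul_nonneg (by linarith only [hv1] : 0 ≤ 1 - v) H0
  have e3 := mul_nonneg hv0.le H1
  have e4 : 0 < o ^ 2 * (v * (1 - v)) := mul_pos (by positivity) (mul_pos hv0 (by linarith only [hv1]))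
  linarith only [e2, e3, e4]

/-- the coefficient inequalities for `j ≥ 5` and for `j = 4`, `o'' ≥ 1` -/
theorem Sa_om (h : Cg b2 s d e) (hO : Ot bO o' o o'') (he : 1 ≤ e) (hbO : 1 ≤ 2 * bO) (hs2 : d + 1 ≤ s ^ 2)
    (hc : (e = 1 ∧ d = 2 * b2 ∧ 1 ≤ o'') ∨ 2 * b2 ≤ e) : o ^ 2 * s + 1 ≤ o * (d * (o' * e + o'' * s)) := by
  have hd := h.d1
  have ho'' : 0 ≤ o'' := by rcases hO.h3 with h1 | h1 <;> linarith only [h1]
  have ho := hO.h2
  have ho' := hO.h1
  have hs : 0 < s := by linarith only [h.s1]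
  rcases hc with ⟨h1, h2, h3⟩ | h1
  · have hs2 : s + 1 = d ^ 2 := by
      rw [h.ed, h1]
      ring
    have ho2 : 2 ≤ o ^ 2 := by
      have := hO.prod
      nlinarith only [ho', h3, this]
    rw [h1, mul_one]
    have e0 : 0 ≤ o' + o'' * s := by positivity
    have e1 : 4 * s * (o ^ 2 - 1) ≤ (o' + o'' * s) ^ 2 := by
      rw [← hO.prod]
      nlinarith only [sq_nonneg (o' - o'' * s)]
    have e2 : (o ^ 2 * s + 1) ^ 2 ≤ (o * (d * (o' + o'' * s))) ^ 2 := by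
      have e3 : (o * (d * (o' + o'' * s))) ^ 2 = o ^ 2 * ((s + 1) * (o' + o'' * s) ^ 2) := by
        rw [hs2]
        ring
      rw [e3]
      have e4 : o ^ 2 * ((s + 1) * (4 * s * (o ^ 2 - 1))) ≤ o ^ 2 * ((s + 1) * (o' + o'' * s) ^ 2) :=
        mul_le_mul_of_nonneg_left (mul_le_mul_of_nonneg_left e1 (by linarith only [hs])) (sq_nonneg _)
      refine le_trans ?_ e4
      have hs1 := h.s1
      obtain ⟨q, hq⟩ : ∃ q, q = o ^ 2 := ⟨_, rfl⟩
      rw [← hq] at ho2 ⊢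
      nlinarith only [hs1, mul_nonneg (by linarith only [ho2] : 0 ≤ q - 2) (by positivity : 0 ≤ s ^ 2 * q),
        mul_nonneg (by linarith only [ho2] : 0 ≤ q - 2) (by nlinarith only [hs1, ho2] : 0 ≤ s * q), mul_nonneg (by linarith only [ho2] : 0 ≤ q - 2) hs.le]
    exact abs_le_of_sq_le_sq' e2 (by positivity) |>.2
  · have e1 : s + 1 ≤ d * e := by
      have : s = 2 * b2 * d - e := by linarith only [h.es]
      rw [this]
      nlinarith only [he, mul_nonneg (by linarith only [hd] : 0 ≤ d) (by linarith only [h1] : 0 ≤ e - 2 * b2)]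
    have e2 : s + 1 ≤ d * s := by
      have f1 : s + 1 ≤ d ^ 2 := by
        rw [h.ed]
        nlinarith only [he, hs]
      rcases le_total d s with f3 | f3
      · nlinarith only [hd, f1, f3]
      · nlinarith only [hs2, hs, f3]
    have e3 : (o' + o'') * (s + 1) ≤ d * (o' * e + o'' * s) := by
      nlinarith only [mul_le_mul_of_nonneg_left e1 (by linarith only [ho'] : 0 ≤ o'), mul_le_mul_of_nonneg_left e2 ho'']
    have e4 : o * (s + 1) ≤ (o' + o'') * (s + 1) := by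
      rw [hO.sum]
      nlinarith only [mul_nonneg (mul_nonneg (by linarith only [hbO] : 0 ≤ 2 * bO - 1) (by linarith only [ho] : 0 ≤ o)) (by linarith only [hs] : 0 ≤ s + 1)]
    have e5 := mul_le_mul_of_nonneg_left (e4.trans e3) (by linarith only [ho] : 0 ≤ o)
    nlinarith only [ho, e5]

theorem Sa_co (h : Cg b2 s d e) (hO : Ot bO o' o o'') (he : 0 ≤ e) (hbO : 1 ≤ 2 * bO) (hs2 : d + 1 ≤ s ^ 2) :
    o * e ≤ d * (o' * e + o'' * s) := by
  have hd := h.d1
  have ho'' : 0 ≤ o'' := by rcases hO.h3 with h1 | h1 <;> linarith only [h1]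
  have ho := hO.h2
  have ho' := hO.h1
  have hs : 0 < s := by linarith only [h.s1]
  have hds : e ≤ d * s := by
    have e2 : e * s ≤ d * s * s := by
      have e3 : e * s = d ^ 2 - 1 := by linarith only [h.ed]
      rw [e3]
      have e4 : d * s * s = d * s ^ 2 := by ring
      rw [e4]
      nlinarith only [mul_le_mul_of_nonneg_left hs2 (by linarith only [hd] : 0 ≤ d)]
    exact le_of_mul_le_mul_right e2 hs
  have e1 : o' * e ≤ d * (o' * e) := by
    nlinarith only [mul_nonneg (by linarith only [hd] : 0 ≤ d - 1) (mul_nonneg (by linarith only [ho'] : 0 ≤ o') he)]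
  have e2 : o'' * e ≤ o'' * (d * s) := mul_le_mul_of_nonneg_left hds ho''
  have e3 : o * e ≤ (o' + o'') * e := by
    rw [hO.sum]
    nlinarith only [mul_nonneg (mul_nonneg (by linarith only [hbO] : 0 ≤ 2 * bO - 1) (by linarith only [ho] : 0 ≤ o)) he]
  nlinarith only [e1, e2, e3]

/-- the coefficient inequalities for `s = 1`, `o'' ≥ 1` -/
theorem Sa_om1 (h : Cg b2 1 d e) (hO : Ot bO o' o o'') (he : 1 ≤ e) (ho1 : 1 ≤ o'') :
    o ^ 2 * 1 + 1 ≤ o * (d * (o' * e + o'' * 1)) ∧ o * e ≤ d * (o' * e + o'' * 1) := by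
  have hd := h.d1
  have ho := hO.h2
  have ho' := hO.h1
  have hd2 : d ^ 2 = e + 1 := by
    rw [h.ed]
    ring
  have ho2 : 2 ≤ o ^ 2 := by
    have := hO.prod
    nlinarith only [ho1, ho', this]
  have e0 : 0 ≤ o' * e + o'' * 1 := by positivity
  have e1 : 4 * e * (o ^ 2 - 1) ≤ (o' * e + o'' * 1) ^ 2 := by
    rw [← hO.prod]
    nlinarith only [sq_nonneg (o' * e - o'' * 1)]
  have e2 : (e + 1) * (4 * e * (o ^ 2 - 1)) ≤ (d * (o' * e + o'' * 1)) ^ 2 := by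
    rw [mul_pow, hd2]
    exact mul_le_mul_of_nonneg_left e1 (by linarith only [he])
  constructor
  · have e3 : (o ^ 2 * 1 + 1) ^ 2 ≤ (o * (d * (o' * e + o'' * 1))) ^ 2 := by
      rw [mul_pow]
      have e4 := mul_le_mul_of_nonneg_left e2 (sq_nonneg o)
      refine le_trans ?_ e4
      obtain ⟨q, hq⟩ : ∃ q, q = o ^ 2 := ⟨_, rfl⟩
      rw [← hq] at ho2 ⊢
      have e5 : 8 * (q - 1) ≤ (e + 1) * (4 * e * (q - 1)) := by
        have : 8 ≤ (e + 1) * (4 * e) := by nlinarith only [he]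
        nlinarith only [mul_le_mul_of_nonneg_right this (by linarith only [ho2] : 0 ≤ q - 1)]
      have e6 := mul_le_mul_of_nonneg_left e5 (by linarith only [ho2] : 0 ≤ q)
      nlinarith only [ho2, e6]
    exact abs_le_of_sq_le_sq' e3 (by positivity) |>.2
  · have e3 : (o * e) ^ 2 ≤ (d * (o' * e + o'' * 1)) ^ 2 := by
      refine le_trans ?_ e2
      obtain ⟨q, hq⟩ : ∃ q, q = o ^ 2 := ⟨_, rfl⟩
      rw [mul_pow, ← hq]
      rw [← hq] at ho2
      have e5 : q * e ≤ (e + 1) * (4 * (q - 1)) := by nlinarith only [hd2, ho2]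
      have e6 := mul_le_mul_of_nonneg_left e5 (by linarith only [he] : 0 ≤ e)
      nlinarith only [e6]
    exact abs_le_of_sq_le_sq' e3 (by positivity) |>.2

/-- `j = 3`, `2 b1 ≥ 1` -/
theorem Sa_3 (h : Cg b2 s 1 0) (hO : Ot bO o' o o'') (hη : 1 ≤ o * η) (hη' : 1 ≤ o * η') (hg : 1 ≤ g) (hζ : 0 ≤ ζ)
    (hS : η + η' = 2 * b1 * o * g + o' * (2 * b2 * g - ζ) + o'' * ζ)
    (hN : η * η' = g ^ 2 - 1 - ζ * (2 * b2 * g - ζ)) (hf : g ≤ s + 1 - (s * g - 1 * ζ)) (hv0 : 0 < s * g - 1 * ζ)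
    (hb : 1 ≤ 2 * b1) (hv1 : s * g - 1 * ζ < 1)
    (he2 : 1 ≤ (s * g - 1 * ζ) + o'' * η) (he2' : 1 ≤ (s * g - 1 * ζ) + o'' * η') : False := by
  obtain ⟨v, hv⟩ : ∃ v, v = s * g - 1 * ζ := ⟨_, rfl⟩
  have ho'' : 0 ≤ o'' := by rcases hO.h3 with h1 | h1 <;> linarith only [h1]
  have ho := hO.h2
  have ho' := hO.h1
  have hs : 0 < s := by linarith only [h.s1]
  have hs1 := h.s1
  have hdz : s * g - v = ζ := by rw [hv]; ring
  rcases le_total o o'' with h1 | h1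
  · refine Sa_a h hO hη hη' hg hS hN hf hv ?_
    rw [← hv] at hv0 hf hv1
    have e1 : o ^ 2 * (s * g - v) ≤ o * (o'' * (s * g - v)) := by
      rw [hdz]
      nlinarith only [mul_nonneg (mul_nonneg (by linarith only [ho] : 0 ≤ o) (by linarith only [h1] : 0 ≤ o'' - o)) hζ]
    have e2 : 0 ≤ o ^ 2 * ((2 * b1 - 1) * g + v * (s * g - v) + v * (g - 1)) := by
      rw [hdz]
      have := mul_nonneg (by linarith only [hb] : 0 ≤ 2 * b1 - 1) (by linarith only [hg] : 0 ≤ g)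
      have := mul_nonneg hv0.le hζ
      have := mul_nonneg hv0.le (by linarith only [hg] : 0 ≤ g - 1)
      exact mul_nonneg (sq_nonneg _) (by linarith)
    have e3 : 0 ≤ o ^ 2 - 1 := by nlinarith only [ho]
    have e4 : 0 < o * (o' * v) := mul_pos (by linarith only [ho]) (mul_pos (by linarith only [ho']) hv0)
    nlinarith only [e1, e2, e3, e4]
  · rw [← hv] at hv0 hf hv1 he2 he2'
    have hn := Sa_norm h hN hv
    have hs' := Sa_sum h hS hv
    rcases hO.h3 with h2 | h2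
    · rw [h2] at he2
      linarith only [he2, hv1]
    · have h3 : 0 ≤ (o'' * η - (1 - v)) * (o'' * η' - (1 - v)) := mul_nonneg (by linarith only [he2]) (by linarith only [he2'])
      have h4 : (o'' * η - (1 - v)) * (o'' * η' - (1 - v)) =
        o'' ^ 2 * (1 ^ 2 * (η * η')) - (1 - v) * (o'' * (1 * (η + η'))) + (1 - v) ^ 2 := by ring
      rw [h4, hn, hs'] at h3
      have h5 : g * g ≤ g * (s + 1 - v) := mul_le_mul_of_nonneg_left hf (by linarith only [hg])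
      have h6 : o'' ^ 2 * (g * g) ≤ o'' ^ 2 * (g * (s + 1 - v)) := mul_le_mul_of_nonneg_left h5 (by positivity)
      -- divide by `1 - v`
      have h7 : 0 ≤ (1 - v) * (o'' ^ 2 * (s * g + g - 1 - v) - o'' * (2 * b1 * o * g + o' * v + o'' * (s * g - v)) +
          (1 - v)) := by
        have e1 : (1 - v) * (o'' ^ 2 * (s * g + g - 1 - v) - o'' * (2 * b1 * o * g + o' * v + o'' * (s * g - v)) +
          (1 - v)) = o'' ^ 2 * (g * (s + 1 - v) + v ^ 2 - s * g * v - 1) -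
          (1 - v) * (o'' * (2 * b1 * o * g + o' * v + o'' * (s * g - v))) + (1 - v) ^ 2 := by ring
        rw [e1]
        nlinarith only [h3, h5]
      have h8 : 0 ≤ o'' ^ 2 * (s * g + g - 1 - v) - o'' * (2 * b1 * o * g + o' * v + o'' * (s * g - v)) +
          (1 - v) := by
        by_contra hcon
        have := mul_neg_of_pos_of_neg (by linarith only [hv1] : 0 < 1 - v) (not_le.1 hcon)
        linarith only [h7, this]
      have h9 : o'' ^ 2 * g ≤ o'' * (2 * b1 * o * g) := by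
        have e1 : o'' * o'' ≤ o'' * o := mul_le_mul_of_nonneg_left h1 ho''
        have e2 : o'' * o * g * 1 ≤ o'' * o * g * (2 * b1) :=
          mul_le_mul_of_nonneg_left hb (mul_nonneg (mul_nonneg ho'' (by linarith only [ho])) (by linarith only [hg]))
        nlinarith only [e2, mul_le_mul_of_nonneg_right e1 (by linarith only [hg] : 0 ≤ g)]
      have h10 : 0 < o'' * (o' * v) := mul_pos (by linarith only [h2]) (mul_pos (by linarith only [ho']) hv0)
      have h11 : 1 ≤ o'' ^ 2 := by nlinarith only [h2]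
      nlinarith only [hv0, h8, h9, h10, h11]

/-- `j = 3`, `b1 = 0`: what `e_3 ≥ 0` gives -/
theorem Sa_30c (h : Cg b2 s 1 0) (hg : 1 ≤ g) (hη : 0 < η) (hη' : 0 < η')
    (hS : η + η' = 2 * b1 * o * g + o' * (2 * b2 * g - ζ) + o'' * ζ)
    (hN : η * η' = g ^ 2 - 1 - ζ * (2 * b2 * g - ζ)) {v : ℝ} (hv : v = s * g - 1 * ζ)
    (hb : b1 = 0) (hv0 : 0 < v) (hv1 : v < 1)
    (he3 : g ≤ s * (v + o'' * η)) (he3' : g ≤ s * (v + o'' * η')) :
    0 < g - s * v ∧ s ^ 2 * o'' ^ 2 + s * o' * o'' * (g - s * v) * v ≤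
      (g - s * v) ^ 2 + s * o'' ^ 2 * (g - s * v) * v + s ^ 2 * o'' ^ 2 * v ^ 2 := by
  have hn := Sa_norm h hN hv
  have hs' := Sa_sum h hS hv
  have hD : 0 < g - s * v := by
    by_contra hcon
    have hcon := not_lt.1 hcon
    have e1 : 0 < 1 ^ 2 * (η * η') := by positivity
    rw [hn] at e1
    have e2 : g * (g - s * v) ≤ 0 := mul_nonpos_of_nonneg_of_nonpos (by linarith only [hg]) hcon
    nlinarith only [hv0, hv1, e1, e2]
  refine ⟨hD, ?_⟩
  have h3 : 0 ≤ (s * o'' * η - (g - s * v)) * (s * o'' * η' - (g - s * v)) :=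
    mul_nonneg (by linarith only [he3]) (by linarith only [he3'])
  have h4 : (s * o'' * η - (g - s * v)) * (s * o'' * η' - (g - s * v)) =
    s ^ 2 * o'' ^ 2 * (1 ^ 2 * (η * η')) - (g - s * v) * (s * o'' * (1 * (η + η'))) + (g - s * v) ^ 2 := by ring
  rw [h4, hn, hs', hb] at h3
  nlinarith only [h3]

/-- `j = 3`, `b1 = 0`, `o'' ≥ √3` -/
theorem Sa_30r (hs2 : 2 ≤ s ^ 2) (hs0 : 0 < s) {v D : ℝ} (ho' : 1 ≤ o') (ho'' : 3 ≤ o'' ^ 2) (ho0 : 0 < o'') (hv0 : 0 < v)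
    (hv1 : v < 1) (hD0 : 0 < D) (hD : D ≤ (s + 1) * (1 - v)) :
    D ^ 2 + s * o'' ^ 2 * D * v + s ^ 2 * o'' ^ 2 * v ^ 2 < s ^ 2 * o'' ^ 2 + s * o' * o'' * D * v := by
  have hs14 : 7 / 5 ≤ s := by nlinarith only [hs2, hs0]
  have hs1 : s + 1 ≤ s * o'' := by
    have e1 : (s + 1) ^ 2 ≤ (s * o'') ^ 2 := by
      rw [mul_pow]
      have e2 : s ^ 2 * 3 ≤ s ^ 2 * o'' ^ 2 := mul_le_mul_of_nonneg_left ho'' (sq_nonneg _)
      nlinarith only [hs14, e2]
    exact (abs_le_of_sq_le_sq' e1 (by positivity)).2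
  have e1 : D ≤ s * o'' * (1 - v) := by
    have := mul_le_mul_of_nonneg_right hs1 (by linarith only [hv1] : 0 ≤ 1 - v)
    linarith only [hD, this]
  have e2 : D ^ 2 ≤ (s * o'' * (1 - v)) ^ 2 := by
    apply pow_le_pow_left₀ hD0.le e1
  have e3 : s * o'' ^ 2 * D * v ≤ s * o'' ^ 2 * (2 * s * (1 - v)) * v := by
    apply mul_le_mul_of_nonneg_right _ hv0.le
    apply mul_le_mul_of_nonneg_left _ (by positivity)
    nlinarith only [hD0, hD, hs14]
  have e4 : 0 < s * o' * o'' * D * v := by positivity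
  nlinarith only [e2, e3, e4]

/-- `j = 3`, `b1 = 0`, `o'' = 1`, `o v ≥ 1` -/
theorem Sa_301 (hs1 : 1 ≤ s) {v D : ℝ} (ho : o' = o ^ 2 - 1) (hov : 1 ≤ o ^ 2 * v ^ 2) (hv0 : 0 < v)
    (hv1 : v < 1) (hD0 : 0 < D) (hD : D ≤ (s + 1) * (1 - v)) :
    D ^ 2 + s * 1 ^ 2 * D * v + s ^ 2 * 1 ^ 2 * v ^ 2 < s ^ 2 * 1 ^ 2 + s * o' * 1 * D * v := by
  -- `o' v ^ 2 ≥ 1 - v ^ 2`
  have e1 : 1 - v ^ 2 ≤ o' * v ^ 2 := by
    rw [ho]
    linarith only [hov]
  have e2 : s * D * (1 - v ^ 2) ≤ s * D * (o' * v ^ 2) := mul_le_mul_of_nonneg_left e1 (by positivity)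
  -- multiply by `v`
  have key : v * (D ^ 2 + s * D * v + s ^ 2 * v ^ 2 - s ^ 2) - s * D * (1 - v ^ 2) < 0 := by
    have e3 : (s + 1) * ((s + 1) * v * (1 - v) + s * (2 * v ^ 2 - 1)) < s ^ 2 * v * (1 + v) := by
      have e4 : (s + 1) * ((s + 1) * v * (1 - v) + s * (2 * v ^ 2 - 1)) - s ^ 2 * v * (1 + v) =
        -(1 - v) * (2 * s - v) + s * (1 - s) := by ring
      have e5 : 0 < (1 - v) * (2 * s - v) := mul_pos (by linarith only [hv1]) (by linarith only [hs1, hv1])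
      have e6 : s * (1 - s) ≤ 0 := mul_nonpos_of_nonneg_of_nonpos (by linarith only [hs1]) (by linarith only [hs1])
      linarith
    -- `D (D v + s (2 v ^ 2 - 1)) < s ^ 2 v (1 - v) (1 + v)`
    have e7 : v * (D ^ 2 + s * D * v + s ^ 2 * v ^ 2 - s ^ 2) - s * D * (1 - v ^ 2) =
      D * (D * v + s * (2 * v ^ 2 - 1)) - s ^ 2 * v * (1 - v) * (1 + v) := by ring
    rw [e7]
    rcases le_total (D * v + s * (2 * v ^ 2 - 1)) 0 with h1 | h1
    · have := mul_nonpos_of_nonneg_of_nonpos hD0.le h1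
      have : 0 < s ^ 2 * v * (1 - v) * (1 + v) :=
        mul_pos (mul_pos (by positivity) (by linarith only [hv1])) (by linarith only [hv0])
      linarith
    · have e8 : D * v + s * (2 * v ^ 2 - 1) ≤ (s + 1) * (1 - v) * v + s * (2 * v ^ 2 - 1) := by
        have := mul_le_mul_of_nonneg_right hD hv0.le
        linarith only [this]
      have e9 : D * (D * v + s * (2 * v ^ 2 - 1)) ≤
          (s + 1) * (1 - v) * ((s + 1) * (1 - v) * v + s * (2 * v ^ 2 - 1)) :=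
        mul_le_mul hD e8 h1 (mul_nonneg (by linarith only [hs1]) (by linarith only [hv1]))
      have e10 := mul_lt_mul_of_pos_left e3 (by linarith only [hv1] : 0 < 1 - v)
      nlinarith only [e9, e10]
  have e11 : v * (D ^ 2 + s * D * v + s ^ 2 * v ^ 2 - s ^ 2 - s * o' * D * v) < 0 := by nlinarith only [e2, key]
  have e12 : D ^ 2 + s * D * v + s ^ 2 * v ^ 2 - s ^ 2 - s * o' * D * v < 0 := by
    by_contra hcon
    have := mul_nonneg hv0.le (not_lt.1 hcon)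
    linarith only [e11, this]
  linarith only [e12]

/-- `j = 3`, `b1 = 0`, golden case, `v ≥ 1 / o` -/
theorem Sa_30g (hs2 : 2 ≤ s ^ 2) (hs0 : 0 < s) {v D : ℝ} (ho : o ^ 2 = o + 1) (ho0 : 0 < o) (hov : 1 ≤ o * v)
    (hv1 : v < 1) (hD0 : 0 < D) (hD : D ≤ (s + 1) * (1 - v)) :
    D ^ 2 + s * o ^ 2 * D * v + s ^ 2 * o ^ 2 * v ^ 2 < s ^ 2 * o ^ 2 + s * 1 * o * D * v := by
  have hs14 : 7 / 5 ≤ s := by nlinarith only [hs2, hs0]
  have ho1 : 8 / 5 ≤ o := by nlinarith only [ho, ho0]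
  have ho2 : o ≤ 13 / 8 := by nlinarith only [ho]
  have hv0 : 3 / 5 ≤ v := by nlinarith only [ho, ho0, hov]
  rw [ho]
  -- `D ^ 2 + s D v < s ^ 2 (o + 1) (1 - v ^ 2)`
  have e1 : D ^ 2 + s * D * v ≤ (s + 1) * (1 - v) * ((s + 1) * (1 - v) + s * v) := by
    have e2 : D ^ 2 + s * D * v = D * (D + s * v) := by ring
    rw [e2]
    exact mul_le_mul hD (by linarith only [hD]) (by positivity) (mul_nonneg (by linarith only [hs14]) (by linarith only [hv1]))
  have e3 : (s + 1) * ((s + 1) * (1 - v) + s * v) < s ^ 2 * (o + 1) * (1 + v) := by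
    have e4 : (s + 1) * ((s + 1) * (1 - v) + s * v) = (s + 1) * (s + 1 - v) := by ring
    rw [e4]
    have e5 : (s + 1) * (s + 1 - v) ≤ (s + 1) * (s + 2 / 5) := mul_le_mul_of_nonneg_left (by linarith only [hv0]) (by linarith only [hs14])
    have e6 : s ^ 2 * (13 / 5) * (8 / 5) ≤ s ^ 2 * (o + 1) * (1 + v) := by
      apply mul_le_mul _ (by linarith only [hv0]) (by norm_num) (by positivity)
      exact mul_le_mul_of_nonneg_left (by linarith only [ho1]) (sq_nonneg _)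
    nlinarith only [hs14, e5, e6]
  have e7 := mul_lt_mul_of_pos_left e3 (by linarith only [hv1] : 0 < 1 - v)
  nlinarith only [e1, e7]

/-- `j = 3`, `b1 = 0`, golden case, `e_3 ≥ 1` -/
theorem Sa_30g1 (h : Cg b2 s 1 0) (hg : 1 ≤ g)
    (hS : η + η' = 2 * b1 * o * g + 1 * (2 * b2 * g - ζ) + o * ζ)
    (hN : η * η' = g ^ 2 - 1 - ζ * (2 * b2 * g - ζ)) {v : ℝ} (hv : v = s * g - 1 * ζ)
    (hb : b1 = 0) (hs2 : 2 ≤ s ^ 2) (hv0 : 0 < v) (hv1 : v < 1) (ho : o ^ 2 = o + 1) (ho0 : 0 < o)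
    (hf : g ≤ s + 1 - v) (hD0 : 0 < g - s * v)
    (he3 : g + 1 ≤ s * (v + o * η)) (he3' : g + 1 ≤ s * (v + o * η')) : False := by
  have hn := Sa_norm h hN hv
  have hs' := Sa_sum h hS hv
  have hs0 : 0 < s := by linarith only [h.s1]
  have hs14 : 7 / 5 ≤ s := by nlinarith only [hs2, hs0]
  have ho1 : 8 / 5 ≤ o := by nlinarith only [ho, ho0]
  have h3 : 0 ≤ (s * o * η - (g + 1 - s * v)) * (s * o * η' - (g + 1 - s * v)) :=
    mul_nonneg (by linarith only [he3]) (by linarith only [he3'])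
  have h4 : (s * o * η - (g + 1 - s * v)) * (s * o * η' - (g + 1 - s * v)) =
    s ^ 2 * o ^ 2 * (1 ^ 2 * (η * η')) - (g + 1 - s * v) * (s * o * (1 * (η + η'))) + (g + 1 - s * v) ^ 2 := by ring
  rw [h4, hn, hs', hb] at h3
  have h5 : s ^ 2 * o ^ 2 * (g ^ 2 + v ^ 2 - (s - 0) * g * v - 1 ^ 2) - (g + 1 - s * v) *
      (s * o * (2 * 0 * o * 1 * g + 1 * (0 * g + v) + o * (s * g - v))) + (g + 1 - s * v) ^ 2 =
      (g + 1 - s * v) ^ 2 - s * o ^ 2 * ((g + 1) * (s - v)) - (g + 1 - s * v) * (s * o * v) := by ring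
  rw [h5] at h3
  have h6 : g + 1 - s * v < s * o ^ 2 * (s - v) := by
    rw [ho]
    have e1 : s * (13 / 5) * (s - v) ≤ s * (o + 1) * (s - v) :=
      mul_le_mul_of_nonneg_right (mul_le_mul_of_nonneg_left (by linarith only [ho1]) hs0.le) (by linarith only [hg, hf])
    nlinarith only [hv1, hf, hs14, e1]
  have h7 : (g + 1 - s * v) * (g + 1 - s * v) ≤ (g + 1) * (g + 1 - s * v) :=
    mul_le_mul_of_nonneg_right (by nlinarith only [hg, hv0, hf]) (by linarith only [hD0])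
  have h8 := mul_lt_mul_of_pos_left h6 (by linarith only [hg] : 0 < g + 1)
  have h9 : 0 ≤ (g + 1 - s * v) * (s * o * v) := by
    have : 0 ≤ g + 1 - s * v := by linarith only [hD0]
    positivity
  nlinarith only [h3, h7, h8, h9]

/-- `s = 1`, `b1 = 0`, `e = 0`, `o'' ≥ 2` -/
theorem Sa_31r {v D : ℝ} (ho' : 1 ≤ o') (ho'' : 2 ≤ o'') (hv0 : 0 < v) (hv1 : v < 1) (hD0 : 0 < D)
    (hD : D ≤ (1 + 1) * (1 - v)) :
    D ^ 2 + 1 * o'' ^ 2 * D * v + 1 ^ 2 * o'' ^ 2 * v ^ 2 < 1 ^ 2 * o'' ^ 2 + 1 * o' * o'' * D * v := by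
  have e1 : D ≤ o'' * (1 - v) := by
    have := mul_le_mul_of_nonneg_right ho'' (by linarith only [hD0, hD] : 0 ≤ 1 - v)
    linarith only [hD, this]
  have e2 : D ^ 2 ≤ (o'' * (1 - v)) ^ 2 := pow_le_pow_left₀ hD0.le e1 2
  have e3 : o'' ^ 2 * D * v ≤ o'' ^ 2 * (2 * (1 - v)) * v := by
    apply mul_le_mul_of_nonneg_right _ hv0.le
    apply mul_le_mul_of_nonneg_left _ (by positivity)
    linarith only [hD]
  have e4 : 0 < o' * o'' * D * v := by positivity
  nlinarith only [e2, e3, e4]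

/-- `s = 1`, `b1 = 0`, `e = 0`, `o'' = 2 bO`, `o v ≥ 1` -/
theorem Sa_31p {v D p : ℝ} (ho : o = p ^ 2 - 1) (ho' : o' = p ^ 3 - 2 * p) (hp : p ^ 2 = p + 1 ∨ 3 ≤ p ^ 2) (hp0 : 0 < p)
    (hov : 1 ≤ o * v) (hv1 : v < 1) (hD0 : 0 < D) (hD : D ≤ (1 + 1) * (1 - v)) :
    D ^ 2 + 1 * p ^ 2 * D * v + 1 ^ 2 * p ^ 2 * v ^ 2 < 1 ^ 2 * p ^ 2 + 1 * o' * p * D * v := by
  rw [ho] at hov
  rw [ho']
  have hp2 : 0 < p ^ 2 - 1 := by
    rcases hp with h1 | h1
    · nlinarith only [hp0, h1]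
    · linarith only [h1]
  have hv0 : 0 < v := by
    by_contra hcon
    have := mul_nonpos_of_nonneg_of_nonpos hp2.le (not_lt.1 hcon)
    linarith only [hov, this]
  rcases hp with h1 | h1
  · have ho1 : 8 / 5 ≤ p := by nlinarith only [hp2, h1]
    have ho2 : p ≤ 13 / 8 := by nlinarith only [h1]
    have hv3 : 3 / 5 ≤ v := by
      rw [h1] at hov
      nlinarith only [hov, ho1, ho2]
    have h3 : p ^ 3 = 2 * p + 1 := by
      have : p ^ 3 = p * p ^ 2 := by ring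
      rw [this, h1]
      linarith only [h1, (by ring : p * (p + 1) = p ^ 2 + p)]
    have h4 : (p ^ 3 - 2 * p) * p = p := by
      rw [h3]
      ring
    have e5 : 1 ^ 2 * p ^ 2 + 1 * (p ^ 3 - 2 * p) * p * D * v = p ^ 2 + p * (D * v) := by
      have : 1 * (p ^ 3 - 2 * p) * p * D * v = ((p ^ 3 - 2 * p) * p) * (D * v) := by ring
      rw [this, h4]
      ring
    rw [e5, h1]
    -- `D ^ 2 + D v < (p + 1) (1 - v ^ 2)`
    have e1 : D ^ 2 + D * v ≤ 2 * (1 - v) * (2 * (1 - v) + v) := by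
      have e2 : D ^ 2 + D * v = D * (D + v) := by ring
      rw [e2]
      exact mul_le_mul (by linarith only [hD]) (by linarith only [hD]) (by positivity) (by linarith only [hv1])
    have e3 : 2 * (2 * (1 - v) + v) < (p + 1) * (1 + v) := by
      have : 13 / 5 * (1 + v) ≤ (p + 1) * (1 + v) := mul_le_mul_of_nonneg_right (by linarith only [ho1]) (by linarith only [hv3])
      linarith only [hv3, this]
    have e4 := mul_lt_mul_of_pos_left e3 (by linarith only [hv1] : 0 < 1 - v)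
    nlinarith only [e1, e4]
  · have e1 : D ^ 2 ≤ (2 * (1 - v)) ^ 2 := pow_le_pow_left₀ hD0.le (by linarith only [hD]) 2
    have e2 : 0 ≤ p ^ 2 * (p ^ 2 - 3) * (D * v) :=
      mul_nonneg (mul_nonneg (by positivity) (by linarith only [h1])) (by positivity)
    -- `4 (1 - v) < p ^ 2 (1 + v)`
    have e3 : 4 * (1 - v) < p ^ 2 * (1 + v) := by nlinarith only [hov, h1]
    have e4 := mul_lt_mul_of_pos_left e3 (by linarith only [hv1] : 0 < 1 - v)
    nlinarith only [e1, e2, e4]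

end core

end Pool.Agent.Helper62.DY
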