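import Pool.Agent.Helper62.DY.Sa

/-!
# The one-vertex inequality for roots (MP_d13a5e_al)
-/

set_option autoImplicit false

namespace Pool.Agent.Helper62.DY

open _root_.DY (Z1 C01 Tri rf sq Str Loc)

theorem sq_id2 (c : ℝ) (n : ℕ) : sq c (n + 2) ^ 2 - (2 * c) ^ 2 = sq c n * sq c (n + 4) := by
  have h1 := sq_quad c n
  have h2 := sq_rec c n
  have h3 := sq_rec c (n + 1)
  have h4 := sq_rec c (n + 2)
  have e3 : sq c (n + 1 + 2) = sq c (n + 3) := rfl
  have e4 : sq c (n + 1 + 1) = sq c (n + 2) := rfl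
  have e5 : sq c (n + 2 + 2) = sq c (n + 4) := rfl
  have e6 : sq c (n + 2 + 1) = sq c (n + 3) := rfl
  rw [e3, e4] at h3
  rw [e5, e6] at h4
  rw [h4, h3, h2]
  linear_combination (4 * c ^ 2) * h1

/-- three consecutive values of the Chebyshev sequence -/
theorem cg_of {c : ℝ} {m : ℕ} (hs : ∀ n, 1 ≤ n → n ≤ m + 2 → 1 ≤ sq c n)
    (ha : 1 ≤ sq c (m + 3) ∨ sq c (m + 2) = 1) : Cg c (sq c (m + 2)) (sq c (m + 1)) (sq c m) where
  s1 := hs _ (by omega) le_rfl
  d1 := hs _ (by omega) (by omega)
  es := by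
    rw [sq_rec]
    ring
  ed := by
    have := cheb_id (b := c) (sq_zero c) (sq_one c) (sq_rec c) m
    linarith only [this]
  eh := by
    rcases Nat.eq_zero_or_pos m with h0 | h0
    · subst h0
      have := hs 2 (by omega) (by omega)
      have e1 : sq c (0 + 2) = sq c 2 := rfl
      rw [e1, sq_zero]
      linarith only [this]
    · have := (ch_of (sq_zero c) (sq_one c) (sq_rec c) h0 (fun n h1 h2 => hs n h1 h2)).had
      linarith only [this]
  ec := by
    rcases Nat.eq_zero_or_pos m with h0 | h0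
    · subst h0
      exact Or.inl ⟨rfl, rfl⟩
    · right
      obtain ⟨k, rfl⟩ : ∃ k, m = k + 1 := ⟨m - 1, by omega⟩
      rcases Nat.eq_zero_or_pos k with h1 | h1
      · subst h1
        left
        refine ⟨rfl, ?_⟩
        have : sq c (0 + 1 + 1) = 2 * c * 1 - 0 := rfl
        rw [this]
        ring
      · obtain ⟨l, rfl⟩ : ∃ l, k = l + 1 := ⟨k - 1, by omega⟩
        right
        have h2 := sq_id2 c l
        have h3 : 0 ≤ sq c l := by
          rcases Nat.eq_zero_or_pos l with h4 | h4
          · rw [h4, sq_zero]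
          · linarith only [hs l h4 (by omega)]
        have h4 := hs (l + 4) (by omega) (by omega)
        have h5 := hs (l + 2) (by omega) (by omega)
        have e1 : sq c (l + 1 + 1) = sq c (l + 2) := rfl
        rw [e1]
        refine ⟨h5, ?_⟩
        have h6 : (2 * c) ^ 2 ≤ sq c (l + 2) ^ 2 := by
          have := mul_nonneg h3 (by linarith only [h4] : 0 ≤ sq c (l + 4))
          linarith only [h2, this]
        exact (abs_le_of_sq_le_sq' h6 (by linarith only [h5])).2
  sc := by
    rcases ha with h1 | h1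
    · right
      have h2 := cheb_id (b := c) (sq_zero c) (sq_one c) (sq_rec c) (m + 1)
      have h3 := hs (m + 1) (by omega) (by omega)
      have e1 : sq c (m + 1 + 2) = sq c (m + 3) := rfl
      have e2 : sq c (m + 1 + 1) = sq c (m + 2) := rfl
      rw [e1, e2] at h2
      have := mul_le_mul_of_nonneg_right h1 (by linarith only [h3] : 0 ≤ sq c (m + 1))
      linarith only [h2, this]
    · exact Or.inl h1

section rt

variable {b1 b2 bO : ℝ} {R : ℝ → ℝ → ℝ → Prop} {s d e o o' o'' g η η' ζ : ℝ}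

theorem ot_of (h : RT b1 b2 bO R) (hR : R 0 o o') (ho : 1 ≤ o) (ho' : 1 ≤ o') (hoo : o'' = 2 * bO * o - o') :
    Ot bO o' o o'' where
  sum := by rw [hoo]; ring
  prod := by
    have := h.n _ _ _ hR
    rw [hoo]
    linear_combination -this
  h1 := ho'
  h2 := ho
  h3 := by
    have h1 := h.r2 _ _ _ hR
    have e1 : 2 * b2 * 0 + 2 * bO * o - o' = o'' := by rw [hoo]; ring
    rw [e1] at h1
    exact (h.z1 h1 (by linarith only [ho])).2.2

/-- the roots of `O` -/
theorem o_class (h : RT b1 b2 bO R) (hR : R 0 o o') (ho : 1 ≤ o) (ho' : 1 ≤ o') (hoo : o'' = 2 * bO * o - o')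
    (ho'' : 1 ≤ o'') :
    (o'' = 1 ∧ o = 2 * bO ∧ o' = o ^ 2 - 1) ∨
    (o = (2 * bO) ^ 2 - 1 ∧ o' = (2 * bO) ^ 3 - 2 * (2 * bO) ∧ o'' = 2 * bO ∧
      ((2 * bO) ^ 2 = 2 * bO + 1 ∨ 3 ≤ (2 * bO) ^ 2)) ∨ (3 ≤ o'' ^ 2 ∧ 2 ≤ o'') := by
  have hbO := h.bOn
  obtain ⟨p, hp⟩ : ∃ p, p = 2 * bO := ⟨_, rfl⟩
  have hn := h.n _ _ _ hR
  have h2 := h.r2 _ _ _ hR
  have e2 : 2 * b2 * 0 + 2 * bO * o - o' = o'' := by rw [hoo]; ring
  rw [e2] at h2
  have h3 := h.r1 _ _ _ h2
  have e3 : 2 * b1 * 0 + 2 * bO * o'' - o = p * o'' - o := by rw [hp]; ring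
  rw [e3] at h3
  have hm := h.r1 _ _ _ hR
  have em : 2 * b1 * 0 + 2 * bO * o' - o = p * o' - o := by rw [hp]; ring
  rw [em] at hm
  have zm := (h.z2 hm (by linarith only [ho'])).2.1
  have z3 := (h.z2 h3 (by linarith only [ho''])).2.1
  rw [← hp] at hoo ⊢
  rcases z3 with z3 | z3
  · left
    rw [z3] at h3
    have hn3 := h.n _ _ _ h3
    have h4 : o'' = 1 := by nlinarith only [ho'', hn3]
    rw [h4] at z3 hoo
    refine ⟨h4, by linarith only [z3], ?_⟩
    have : p = o := by linarith only [z3]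
    rw [this] at hoo
    linarith only [hoo]
  · right
    have h4 := h.r2 _ _ _ h3
    have e4 : 2 * b2 * 0 + 2 * bO * (p * o'' - o) - o'' = p * (p * o'' - o) - o'' := by rw [hp]; ring
    rw [e4] at h4
    rcases (h.z1 h4 (by linarith only [z3])).2.2 with z4 | z4
    · left
      rw [z4] at h4
      have hn4 := h.n _ _ _ h4
      have h5 : p * o'' - o = 1 := by nlinarith only [z3, hn4]
      rw [h5] at z4
      have h6 : o'' = p := by linarith only [z4]
      rw [h6] at h5
      have h7 : o = p ^ 2 - 1 := by linarith only [h5]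
      have h8 : o' = p ^ 3 - 2 * p := by
        rw [h6, h7] at hoo
        linarith only [hoo]
      refine ⟨h7, h8, h6, ?_⟩
      rw [h7, h8] at zm
      have e5 : p * (p ^ 3 - 2 * p) - (p ^ 2 - 1) = (p ^ 2 - p - 1) * (p ^ 2 + p - 1) := by ring
      rcases zm with zm | zm
      · left
        rw [e5] at zm
        rcases mul_eq_zero.1 zm with h9 | h9
        · linarith only [h9]
        · exfalso
          nlinarith only [ho', h8, h9]
      · right
        have e6 : p * (p ^ 3 - 2 * p) - (p ^ 2 - 1) = p ^ 2 * (p ^ 2 - 3) + 1 := by ring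
        rw [e6] at zm
        by_contra hcon
        have := mul_neg_of_pos_of_neg (by nlinarith only [ho', ho'', hoo, hn] : 0 < p ^ 2) (by linarith only [hcon] : p ^ 2 - 3 < 0)
        linarith only [zm, this]
    · right
      have hn' : o ^ 2 + o' ^ 2 - p * o * o' = 1 := by
        rw [hp]
        linear_combination hn
      have hid : o'' ^ 2 = p ^ 2 + o' * (p * (p * o'' - o) - o'') := by
        rw [hoo]
        linear_combination p ^ 2 * hn'
      have hge : p ^ 2 + 1 ≤ o'' ^ 2 := by
        rw [hid]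
        have := mul_le_mul ho' z4 zero_le_one (by linarith only [ho'])
        linarith only [this]
      have hc4 : p * (p * o'' - o) - o'' = (p ^ 3 - 2 * p) * o - (p ^ 2 - 1) * o' := by
        rw [hoo]
        ring
      -- the roots of `O`
      have q1 := h.r2 _ _ _ h.e1
      have f1 : 2 * b2 * 0 + 2 * bO * 1 - 0 = p := by rw [hp]; ring
      rw [f1] at q1
      have hp0 : 0 < p := by
        by_contra hcon
        have := mul_nonpos_of_nonpos_of_nonneg (not_lt.1 hcon) (by linarith only [ho] : 0 ≤ o)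
        linarith only [ho', ho'', hoo, this]
      have q2 := h.r1 _ _ _ q1
      have f2 : 2 * b1 * 0 + 2 * bO * p - 1 = p ^ 2 - 1 := by rw [hp]; ring
      rw [f2] at q2
      have hp3 : 3 ≤ p ^ 2 := by
        rcases (h.z2 q2 hp0).2.1 with z5 | z5
        · exfalso
          have : p = 1 := by nlinarith only [hp0, z5]
          rw [hc4, this] at z4
          linarith only [ho, z4]
        · have q3 := h.r2 _ _ _ q2
          have f3 : 2 * b2 * 0 + 2 * bO * (p ^ 2 - 1) - p = p ^ 3 - 2 * p := by rw [hp]; ring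
          rw [f3] at q3
          rcases (h.z1 q3 (by linarith only [z5])).2.2 with z6 | z6
          · exfalso
            rw [hc4, z6] at z4
            have := mul_pos (by linarith only [z5] : 0 < p ^ 2 - 1) (by linarith only [ho'] : 0 < o')
            linarith only [z4, this]
          · have q4 := h.r1 _ _ _ q3
            have f4 : 2 * b1 * 0 + 2 * bO * (p ^ 3 - 2 * p) - (p ^ 2 - 1) = (p ^ 2 - p - 1) * (p ^ 2 + p - 1) := by
              rw [hp]
              ring
            rw [f4] at q4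
            rcases (h.z2 q4 (by linarith only [z6])).2.1 with z7 | z7
            · exfalso
              have h9 : p ^ 2 = p + 1 := by
                rcases mul_eq_zero.1 z7 with h9 | h9
                · linarith only [h9]
                · exfalso
                  nlinarith only [z6, h9]
              have h10 : p ^ 3 - 2 * p = 1 := by
                have : p ^ 3 = p * p ^ 2 := by ring
                rw [this, h9]
                linarith only [h9, (by ring : p * (p + 1) = p ^ 2 + p)]
              rw [hc4, h10, h9] at z4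
              rcases zm with zm | zm <;> linarith only [z4, zm]
            · have e6 : (p ^ 2 - p - 1) * (p ^ 2 + p - 1) = p ^ 2 * (p ^ 2 - 3) + 1 := by ring
              rw [e6] at z7
              by_contra hcon
              have := mul_neg_of_pos_of_neg (by nlinarith only [z6, z7] : 0 < p ^ 2) (by linarith only [hcon] : p ^ 2 - 3 < 0)
              linarith only [z7, this]
      refine ⟨by linarith only [hge, hp3], ?_⟩
      by_contra hcon
      nlinarith only [ho'', hge, hp3, hcon]

/-- the inequality with `v < 1` -/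
theorem Sa_core (h : RT b1 b2 bO R) (hC : Cg b2 s d e)
    (hflat : ∀ g x2, R g 0 x2 → 0 < s * g - d * x2 → 1 ≤ s * g - d * x2) (hR : R 0 o o')
    (ho : 1 ≤ o) (ho' : 1 ≤ o') (hoo : o'' = 2 * bO * o - o') (ho'' : 0 ≤ o'') (h1o : s = 1 → 1 ≤ o'')
    (hx : R g (o * η) (ζ + o' * η)) (hx' : R g (o * η') (ζ + o' * η'))
    (hS : η + η' = 2 * b1 * o * g + o' * (2 * b2 * g - ζ) + o'' * ζ) (hζ : 0 ≤ ζ)
    (hv0 : 0 < s * g - d * ζ) (hv1 : s * g - d * ζ < 1) (hf : g ≤ s + 1 - (s * g - d * ζ)) : False := by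
  have hO := ot_of h hR ho ho' hoo
  have hd := hC.d1
  have hs1 := hC.s1
  have hg0 : 0 < g := by
    by_contra hcon
    have := mul_nonpos_of_nonneg_of_nonpos (by linarith only [hs1] : 0 ≤ s) (not_lt.1 hcon)
    have := mul_nonneg (by linarith only [hd] : 0 ≤ d) hζ
    linarith
  have hg := (h.z0 hx hg0).1
  have hnO := h.n _ _ _ hR
  have hN : η * η' = g ^ 2 - 1 - ζ * (2 * b2 * g - ζ) := by
    have h1 := h.n _ _ _ hx
    have h2 : η' = 2 * b1 * o * g + o' * (2 * b2 * g - ζ) + o'' * ζ - η := by linarith only [hS]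
    rw [h2, hoo]
    linear_combination -h1 + η ^ 2 * hnO
  have one : ∀ y, R g (o * y) (ζ + o' * y) → 1 ≤ o * y := by
    intro y hy
    rcases (h.z0 hy hg0).2.1 with h1 | h1
    · exfalso
      rcases mul_eq_zero.1 h1 with h2 | h2
      · linarith only [ho, h2]
      · rw [h2] at hy
        have e1 : o * 0 = 0 := by ring
        have e2 : ζ + o' * 0 = ζ := by ring
        rw [e1, e2] at hy
        have := hflat _ _ hy hv0
        linarith only [hv1, this]
    · exact h1
  have hη1 := one _ hx
  have hη1' := one _ hx'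
  have hη : 0 < η := by
    by_contra hcon
    have := mul_nonpos_of_nonneg_of_nonpos (by linarith only [ho] : 0 ≤ o) (not_lt.1 hcon)
    linarith only [hη1, this]
  have hη' : 0 < η' := by
    by_contra hcon
    have := mul_nonpos_of_nonneg_of_nonpos (by linarith only [ho] : 0 ≤ o) (not_lt.1 hcon)
    linarith only [hη1', this]
  have hbO1 : 1 ≤ 2 * bO := by
    rcases h.bOz with h1 | h1
    · exfalso
      rw [h1] at hoo
      linarith only [ho', hoo, ho'']
    · exact h1
  -- the coefficient `e2`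
  have ce2 : ∀ y, R g (o * y) (ζ + o' * y) → R g (o * y) (2 * b2 * g - ζ + o'' * y) := by
    intro y hy
    have h1 := h.r2 _ _ _ hy
    have e1 : 2 * b2 * g + 2 * bO * (o * y) - (ζ + o' * y) = 2 * b2 * g - ζ + o'' * y := by
      rw [hoo]
      ring
    rw [e1] at h1
    exact h1
  have hes := hC.es
  have hed := hC.ed
  by_cases he0 : e = 0
  · -- `j = 3`
    subst he0
    have hd1 : d = 1 := by nlinarith only [hd, hed]
    subst hd1
    have hsb : s = 2 * b2 := by linarith only [hes]
    have e2p : ∀ y, R g (o * y) (ζ + o' * y) → 0 < y → 1 ≤ (s * g - 1 * ζ) + o'' * y := by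
      intro y hy hy0
      have h1 := ce2 y hy
      rw [← hsb] at h1
      have h2 : s * g - ζ + o'' * y = (s * g - 1 * ζ) + o'' * y := by ring
      rw [h2] at h1
      have h3 : 0 < (s * g - 1 * ζ) + o'' * y := by
        have := mul_nonneg ho'' hy0.le
        linarith only [hv0, this]
      exact (h.z2 h1 h3).2.2
    rcases h.b1z with hb | hb
    · have hb0 : b1 = 0 := by linarith only [hb]
      rcases hO.h3 with h3 | h3
      · have := e2p _ hx hη
        rw [h3] at this
        linarith only [hv1, this]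
      · -- `e3`
        have e3p : ∀ y, R g (o * y) (ζ + o' * y) → 0 < y →
            R (s * ((s * g - 1 * ζ) + o'' * y) - g) (o * y) ((s * g - 1 * ζ) + o'' * y) ∧
            Z1 (s * ((s * g - 1 * ζ) + o'' * y) - g) := by
          intro y hy hy0
          have h1 := ce2 y hy
          rw [← hsb] at h1
          have h2 : s * g - ζ + o'' * y = (s * g - 1 * ζ) + o'' * y := by ring
          rw [h2] at h1
          have h4 := h.r0 _ _ _ h1
          have e1 : 2 * b1 * (o * y) + 2 * b2 * ((s * g - 1 * ζ) + o'' * y) - g =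
            s * ((s * g - 1 * ζ) + o'' * y) - g := by
            rw [hb0, ← hsb]
            ring
          rw [e1] at h4
          have := e2p y hy hy0
          exact ⟨h4, (h.z2 h4 (by linarith only [this])).1⟩
        obtain ⟨r3, z3⟩ := e3p _ hx hη
        obtain ⟨r3', z3'⟩ := e3p _ hx' hη'
        have n3 : g ≤ s * ((s * g - 1 * ζ) + o'' * η) := by rcases z3 with z3 | z3 <;> linarith only [z3]
        have n3' : g ≤ s * ((s * g - 1 * ζ) + o'' * η') := by rcases z3' with z3' | z3' <;> linarith only [z3']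
        obtain ⟨v, hv⟩ : ∃ v, v = s * g - 1 * ζ := ⟨_, rfl⟩
        have hI := Sa_30c hC hg hη hη' hS hN hv hb0 (by rw [hv]; exact hv0) (by rw [hv]; exact hv1)
          (by rw [hv]; exact n3) (by rw [hv]; exact n3')
        rw [← hv] at hv0 hv1 hf n3 n3' r3 r3' z3 z3'
        obtain ⟨hD0, hI⟩ := hI
        have hD : g - s * v ≤ (s + 1) * (1 - v) := by linarith only [hf]
        have hs2 : s = 1 ∨ 2 ≤ s ^ 2 := by
          have := h.swap0.swap.swap0.bOs
          have := h.swap.swap0.bOs
          rw [← hsb] at this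
          rcases this with h1 | h1 | h1
          · linarith only [hs1, h1]
          · exact Or.inl h1
          · exact Or.inr h1
        have hs0 : 0 < s := by linarith only [hs1]
        rcases o_class h hR ho ho' hoo h3 with ⟨c1, c2, c3⟩ | ⟨c1, c2, c3, c4⟩ | ⟨c1, c2⟩
        · -- `o'' = 1`
          have h5 := h.r1 _ _ _ (ce2 _ hx)
          have e1 : 2 * b1 * g + 2 * bO * (2 * b2 * g - ζ + o'' * η) - o * η = o * v := by
            rw [hb0, ← hsb, c1, ← c2, hv]
            ring
          rw [e1] at h5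
          have h6 : 0 < o * v := mul_pos (by linarith only [ho]) hv0
          have h7 := (h.z1 h5 h6).2.1
          have h8 : 1 ≤ o ^ 2 * v ^ 2 := by
            rw [← mul_pow]
            nlinarith only [h7]
          have := Sa_301 hs1 c3 h8 hv0 hv1 hD0 hD
          rw [c1] at hI
          linarith only [hI, this]
        · obtain ⟨p, hp⟩ : ∃ p, p = 2 * bO := ⟨_, rfl⟩
          rw [← hp] at c1 c2 c3 c4 hbO1
          rcases hs2 with hs2 | hs2
          · -- `s = 1`
            subst hs2
            have h5 := h.r1 _ _ _ (ce2 _ hx)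
            have h6 := h.r2 _ _ _ h5
            have h7 := h.r0 _ _ _ h6
            have e1 : 2 * b1 * (2 * b1 * g + 2 * bO * (2 * b2 * g - ζ + o'' * η) - o * η) +
              2 * b2 * (2 * b2 * g + 2 * bO * (2 * b1 * g + 2 * bO * (2 * b2 * g - ζ + o'' * η) - o * η) -
                (2 * b2 * g - ζ + o'' * η)) - g = o * v := by
              rw [hb0, ← hsb, c3, ← hp, hv, c1]
              ring
            rw [e1] at h7
            have h8 : 0 < o * v := mul_pos (by linarith only [ho]) hv0
            have h9 := (h.z0 h7 h8).1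
            have := Sa_31p c1 c2 c4 (by linarith only [hbO1]) h9 hv1 hD0 hD
            rw [c3] at hI
            linarith only [hI, this]
          · rcases c4 with c4 | c4
            · -- golden
              have co : o = p := by linarith only [c1, c4]
              have co' : o' = 1 := by
                rw [c2]
                have : p ^ 3 = p * p ^ 2 := by ring
                rw [this, c4]
                linarith only [c4, (by ring : p * (p + 1) = p ^ 2 + p)]
              have key : ∀ y, R g (o * y) (ζ + o' * y) → 0 < y → s * (v + o'' * y) - g = 0 → 1 ≤ o * v := by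
                intro y hy hy0 h0
                have r4 := (e3p _ hy hy0).1
                rw [← hv, h0] at r4
                have r5 := h.r1 _ _ _ r4
                have r6 := h.r2 _ _ _ r5
                have e1 : 2 * b2 * 0 + 2 * bO * (2 * b1 * 0 + 2 * bO * (v + o'' * y) - o * y) - (v + o'' * y) =
                    o * v := by
                  rw [← hp, c3, co]
                  have : p * p = p + 1 := by linarith only [c4, (by ring : p * p = p ^ 2)]
                  linear_combination (p * v + v + p * p * y + y * p) * 0 + (v + y * p + y) * this -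
                    y * (this)
                rw [e1] at r6
                exact (h.z2 r6 (mul_pos (by linarith only [hbO1, co]) hv0)).2.2
              have ho2 : o ^ 2 = o + 1 := by rw [co, c4]
              have fin : 1 ≤ o * v → False := by
                intro h9
                have := Sa_30g hs2 hs0 ho2 (by linarith only [hbO1, co]) h9 hv1 hD0 hD
                rw [c3, co', ← co] at hI
                linarith only [hI, this]
              rcases z3 with z3 | z3
              · exact fin (key _ hx hη z3)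
              · rcases z3' with z3' | z3'
                · exact fin (key _ hx' hη' z3')
                · refine Sa_30g1 (o := o) (η := η) (η' := η') hC hg ?_ hN hv hb0 hs2 hv0 hv1 ho2 (by linarith only [hbO1, co]) hf hD0 ?_ ?_
                  · rw [co', c3, ← co] at hS
                    exact hS
                  · rw [c3, ← co] at z3
                    linarith only [z3]
                  · rw [c3, ← co] at z3'
                    linarith only [z3']
            · have := Sa_30r (o' := o') (o'' := o'') hs2 hs0 ho' (by rw [c3]; exact c4) (by linarith only [hbO1, c3]) hv0 hv1 hD0 hD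
              linarith only [hI, this]
        · rcases hs2 with hs2 | hs2
          · subst hs2
            have := Sa_31r (o' := o') ho' c2 hv0 hv1 hD0 hD
            linarith only [hI, this]
          · have := Sa_30r (o' := o') (o'' := o'') hs2 hs0 ho' c1 (by linarith only [c2]) hv0 hv1 hD0 hD
            linarith only [hI, this]
    · exact Sa_3 hC hO hη1 hη1' hg hζ hS hN hf hv0 hb hv1 (e2p _ hx hη) (e2p _ hx' hη')
  · have he1 : 1 ≤ e := by
      rcases hC.ec with ⟨h1, _⟩ | ⟨h1, _⟩ | ⟨h1, _⟩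
      · exact absurd h1 he0
      · exact h1.ge
      · exact h1
    rcases h.b1z with hb | hb
    · have hb0 : b1 = 0 := by linarith only [hb]
      by_cases h1s : s = 1
      · subst h1s
        obtain ⟨k1, k2⟩ := Sa_om1 hC hO he1 (h1o rfl)
        exact Sa_40 hC hO hη1 hη1' hg hζ hS hN hf hv0 he1 hb0 hv1 k1 k2
      · have hs2 : d + 1 ≤ s ^ 2 := by
          rcases hC.sc with h1 | h1
          · exact absurd h1 h1s
          · exact h1
        have go : ((e = 1 ∧ d = 2 * b2 ∧ 1 ≤ o'') ∨ 2 * b2 ≤ e) → False := fun hc =>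
          Sa_40 hC hO hη1 hη1' hg hζ hS hN hf hv0 he1 hb0 hv1 (Sa_om hC hO he1 hbO1 hs2 hc)
            (Sa_co hC hO (by linarith only [he1]) hbO1 hs2)
        rcases hC.ec with ⟨h1, _⟩ | ⟨h1, h2⟩ | ⟨_, h2⟩
        · exact he0 h1
        · rcases hO.h3 with h3 | h3
          · -- `v` is a coefficient
            have r1 := h.r0 _ _ _ (ce2 _ hx)
            have e1 : 2 * b1 * (o * η) + 2 * b2 * (2 * b2 * g - ζ + o'' * η) - g = s * g - d * ζ := by
              rw [hb0, h3]
              have : s = 2 * b2 * d - e := by linarith only [hes]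
              rw [this, h1, h2]
              ring
            rw [e1] at r1
            have := (h.z0 r1 hv0).1
            linarith only [hv1, this]
          · exact go (Or.inl ⟨h1, h2, h3⟩)
        · exact go (Or.inr h2)
    · exact Sa_4 hC hO hη1 hη1' hg hζ hS hN hf hv0 he1 hb

/-- the reflected pair -/
theorem Sa_hN (h : RT b1 b2 bO R) (hR : R 0 o o') (hoo : o'' = 2 * bO * o - o') (hx : R g (o * η) (ζ + o' * η))
    (hS : η + η' = 2 * b1 * o * g + o' * (2 * b2 * g - ζ) + o'' * ζ) :
    η * η' = g ^ 2 - 1 - ζ * (2 * b2 * g - ζ) := by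
  have hnO := h.n _ _ _ hR
  have h1 := h.n _ _ _ hx
  have h2 : η' = 2 * b1 * o * g + o' * (2 * b2 * g - ζ) + o'' * ζ - η := by linarith only [hS]
  rw [h2, hoo]
  linear_combination -h1 + η ^ 2 * hnO

theorem Sa_fl (h : RT b1 b2 bO R) (n : ℕ) (g x2 : ℝ) (hx : R g 0 x2) (h0 : 0 < sq b2 (n + 1) * g - sq b2 n * x2) :
    1 ≤ sq b2 (n + 1) * g - sq b2 n * x2 := by
  rcases (h.flat (sq_zero b2) (sq_one b2) (sq_rec b2) n g x2 hx).1 with h1 | h1
  · rcases h1 with h1 | h1
    · exact absurd h1 h0.ne'
    · exact h1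
  · exfalso
    rcases h1 with h1 | h1 <;> linarith only [h0, h1]

/-- **(S_a)**: `a = o d1 + o' d2`, `x = g t + η a + ζ d2`, `r_a x = g t + η' a + ζ d2` -/
theorem Sa_pair (h : RT b1 b2 bO R) {m : ℕ} (hs : ∀ n, 1 ≤ n → n ≤ m + 3 → 1 ≤ sq b2 n) (hR : R 0 o o')
    (ho : 1 ≤ o) (ho' : 1 ≤ o') (hoo : o'' = 2 * bO * o - o') (ho'' : 0 ≤ o'')
    (hx : R g (o * η) (ζ + o' * η)) (hx' : R g (o * η') (ζ + o' * η'))
    (hS : η + η' = 2 * b1 * o * g + o' * (2 * b2 * g - ζ) + o'' * ζ) (hζ : 0 ≤ ζ)
    (hv : sq b2 (m + 1) * ζ < sq b2 (m + 2) * g) : 1 + sq b2 (m + 1) / (sq b2 (m + 2) + 1) * ζ ≤ g := by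
  by_contra hcon
  have hC := cg_of (c := b2) (m := m) (fun n h1 h2 => hs n h1 (by omega)) (Or.inl (hs _ (by omega) le_rfl))
  have hf := Sa_bound hC (not_le.1 hcon)
  have hd := hC.d1
  have hs1 := hC.s1
  have hv0 : 0 < sq b2 (m + 2) * g - sq b2 (m + 1) * ζ := by linarith only [hv]
  have hg0 : 0 < g := by
    by_contra hcon
    have := mul_nonpos_of_nonneg_of_nonpos (by linarith only [hs1] : 0 ≤ sq b2 (m + 2)) (not_lt.1 hcon)
    have := mul_nonneg (by linarith only [hd] : 0 ≤ sq b2 (m + 1)) hζ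
    linarith
  have hg := (h.z0 hx hg0).1
  have nn : ∀ y, R g (o * y) (ζ + o' * y) → 0 ≤ y := by
    intro y hy
    by_contra hcon
    have h2 := mul_neg_of_pos_of_neg (by linarith only [ho] : 0 < o) (not_le.1 hcon)
    rcases (h.z0 hy hg0).2.1 with h1 | h1 <;> linarith only [h2, h1]
  have hN := Sa_hN h hR hoo hx hS
  rcases lt_or_ge (sq b2 (m + 2) * g - sq b2 (m + 1) * ζ) 1 with h1 | h1
  · refine Sa_core h hC (Sa_fl h (m + 1)) hR ho ho' hoo ho'' ?_ hx hx' hS hζ hv0 h1 hf.le
    intro h2
    exfalso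
    have h3 := cheb_id (b := b2) (sq_zero b2) (sq_one b2) (sq_rec b2) (m + 1)
    have h4 := hs (m + 3) (by omega) le_rfl
    have e1 : sq b2 (m + 1 + 2) = sq b2 (m + 3) := rfl
    have e2 : sq b2 (m + 1 + 1) = sq b2 (m + 2) := rfl
    rw [e1, e2, h2] at h3
    have := mul_le_mul h4 hd zero_le_one (by linarith only [h4])
    linarith only [h3, this]
  · exact Sa_v1 hC hN hg (nn _ hx) (nn _ hx') hf h1

/-- **(S_a)** beyond all lines of a vertex of finite order -/
theorem Sa_fin (h : RT b1 b2 bO R) {m : ℕ} (hs : ∀ n, 1 ≤ n → n ≤ m + 2 → 1 ≤ sq b2 n) (hs1 : sq b2 (m + 2) = 1)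
    (hR : R 0 o o') (ho : 1 ≤ o) (ho' : 1 ≤ o') (hoo : o'' = 2 * bO * o - o') (ho'' : 1 ≤ o'')
    (hx : R g (o * η) (ζ + o' * η)) (hx' : R g (o * η') (ζ + o' * η'))
    (hS : η + η' = 2 * b1 * o * g + o' * (2 * b2 * g - ζ) + o'' * ζ) (hζ : 0 < ζ)
    (hv : sq b2 (m + 1) * ζ < g) : 1 + sq b2 (m + 1) / 2 * ζ < g := by
  by_contra hcon
  have hC := cg_of (c := b2) (m := m) hs (Or.inr hs1)
  rw [hs1] at hC
  have hd := hC.d1
  have hf : g ≤ 1 + 1 - (1 * g - sq b2 (m + 1) * ζ) := by
    have := not_lt.1 hcon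
    linarith only [this]
  have hv0 : 0 < 1 * g - sq b2 (m + 1) * ζ := by linarith only [hv]
  have hg0 : 0 < g := by
    have := mul_nonneg (by linarith only [hd] : 0 ≤ sq b2 (m + 1)) hζ.le
    linarith only [hv0, this]
  have hg := (h.z0 hx hg0).1
  have hz : 0 < sq b2 (m + 1) * ζ := mul_pos (by linarith only [hd]) hζ
  refine Sa_core h hC ?_ hR ho ho' hoo (by linarith only [ho'']) (fun _ => ho'') hx hx' hS hζ.le hv0 (by linarith only [hf, hz]) hf
  intro g x2 hx hx2
  have := Sa_fl h (m + 1) g x2 hx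
  have e2 : sq b2 (m + 1 + 1) = sq b2 (m + 2) := rfl
  rw [e2, hs1] at this
  exact this hx2

/-- `a = d1`, beyond all lines of a vertex of finite order -/
theorem Sa_fin1 (h : RT b1 b2 bO R) {m : ℕ} (hs : ∀ n, 1 ≤ n → n ≤ m + 2 → 1 ≤ sq b2 n) (hs1 : sq b2 (m + 2) = 1)
    (hbO : 1 ≤ 2 * bO) {x1 x2 : ℝ} (hx : R g x1 x2) (hx1 : 1 ≤ x1) (hx2 : 0 < x2)
    (hsb : sq b2 (m + 1) = 2 * b2) (hv : sq b2 (m + 1) * x2 < g) : 1 + sq b2 (m + 1) / 2 * x2 < g := by
  by_contra hcon
  have hC := cg_of (c := b2) (m := m) hs (Or.inr hs1)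
  rw [hs1] at hC
  have hfl := Sa_fl h (m + 1)
  have e2 : sq b2 (m + 1 + 1) = sq b2 (m + 2) := rfl
  rw [e2, hs1] at hfl
  obtain ⟨d, hd⟩ : ∃ d, d = sq b2 (m + 1) := ⟨_, rfl⟩
  obtain ⟨e, he⟩ : ∃ e, e = sq b2 m := ⟨_, rfl⟩
  rw [← hd] at hC hv hcon hsb hfl
  rw [← he] at hC
  have hd1 := hC.d1
  have hed := hC.ed
  have hv0 : 0 < 1 * g - d * x2 := by linarith only [hv]
  have hf := not_lt.1 hcon
  have hz : 0 < d * x2 := mul_pos (by linarith only [hd1]) hx2
  have hg0 : 0 < g := by linarith only [hv0, hz]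
  have hg := (h.z0 hx hg0).1
  -- `2 b1 ≥ 1`
  have hb : 1 ≤ 2 * b1 := by
    rcases h.b1z with hb | hb
    · exfalso
      have h1 := h.r0 _ _ _ hx
      have e1 : 2 * b1 * x1 + 2 * b2 * x2 - g = -(1 * g - d * x2) := by
        rw [hb, hsb]
        ring
      rw [e1] at h1
      rcases (h.z1 h1 (by linarith only [hx1])).1 with h2 | h2 <;> linarith only [hv0, h2]
    · exact hb
  have hr1 := h.r1 _ _ _ hx
  obtain ⟨x1', hx1'⟩ : ∃ x1', x1' = 2 * b1 * g + 2 * bO * x2 - x1 := ⟨_, rfl⟩
  rw [← hx1'] at hr1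
  have h1' : 1 ≤ x1' := by
    rcases (h.z0 hr1 hg0).2.1 with h1 | h1
    · exfalso
      rw [h1] at hr1
      have := hfl _ _ hr1 hv0
      linarith only [hf, hz, this]
    · exact h1
  have hn := h.n _ _ _ hx
  have hprod : 0 ≤ (x1 - 1) * (x1' - 1) := mul_nonneg (by linarith only [hx1]) (by linarith only [h1'])
  have hpr : x1 * x1' = g ^ 2 + x2 ^ 2 - 2 * b2 * g * x2 - 1 := by
    rw [hx1']
    linear_combination -hn
  have e1 : (x1 - 1) * (x1' - 1) = x1 * x1' - (x1 + x1') + 1 := by ring
  have e3 : x1 + x1' = 2 * b1 * g + 2 * bO * x2 := by rw [hx1']; ring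
  rw [e1, hpr, e3, ← hsb] at hprod
  -- `g ^ 2 + x2 ^ 2 - d g x2 ≥ 2 b1 g + 2 bO x2 ≥ g + x2`
  have e4 : g ≤ 2 * b1 * g := by nlinarith only [hg, hb]
  have e5 : x2 ≤ 2 * bO * x2 := by nlinarith only [hbO, hx2]
  have e6 : 0 ≤ g ^ 2 + x2 ^ 2 - d * g * x2 - (g + x2) := by linarith
  -- `g ≤ 1 + d x2 / 2`
  have e7 : g * (g - 1 - d / 2 * x2) ≤ 0 := mul_nonpos_of_nonneg_of_nonpos hg0.le (by linarith only [hf])
  have e8 : d * x2 * x2 < g * x2 := mul_lt_mul_of_pos_right hv hx2
  have e9 : x2 * x2 ≤ d * x2 * x2 := by nlinarith only [hd1, mul_pos hx2 hx2]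
  nlinarith only [e6, e7, e8, e9]

end rt

end Pool.Agent.Helper62.DY
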